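import Pool.Agent.Work.MP_0f91f8_co.HD.C_All
import Pool.Agent.Work.MP_0f91f8_co.K.AllD

/-!
# Torus form of the collision theorem, module D (helper83): the statement Pos3

For completely multiplicative `f1`, `f2` the average of `f1(x) f2(y) conj (f1 f2)(z)` over the family
`AvK 1` has nonnegative real part in the nested limit.
-/

set_option autoImplicit false

namespace Pool.Agent.F0f91f8.KT

open Filter Topology ComplexConjugate
open Pool.Agent.F0f91f8.HD Pool.Agent.F0f91f8.RC Pool.Agent.F0f91f8.KR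
open scoped BigOperators

namespace PosD

open Pool.Agent.F0f91f8.KR.IKTr Pool.Agent.F0f91f8.KR.IKFi Pool.Agent.F0f91f8.RC.IRFi
open Pool.Agent.F0f91f8.HD.DFi

/-- the correlation of `y` and `z` -/
theorem ypart {f : ℕ → ℂ} (hf : CM f) (hp : Pret f) {E : ℕ} (hE : 0 < E) {ε : ℝ} (hε : 0 < ε) :
    ∀ᶠ w : ℕ in atTop, ∀ᶠ K : ℕ in atTop, ∀ᶠ M : ℕ in atTop,
      -ε ≤ (avg (fun (e : Fin (w + 1) → Fin K) e' => CYK f E w K e e' M)).re := by
  obtain ⟨g, t, q, hd⟩ := pr_DDe f hf hp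
  obtain ⟨cY, hcY, hY⟩ := all_KYm
  obtain ⟨cV, hcV, hV⟩ := all_KV1
  have hg := hd.hg
  have hTl := pr_DTl
  have hFv := pr_RFv
  have hPr := all_KPr
  have hUb := all_KUb_aux pr_DTl
  have hKe := pr_KKe pr_DKp
  obtain ⟨-, -, htlt, hert, -, hcLQ, -⟩ := hTl g hg
  set C : ℝ := cY + cV with hC
  have hC0 : 0 < C := by positivity
  have hYC : cY ≤ C := by linarith
  have hVC : cV ≤ C := by linarith
  obtain ⟨δ, hδ, hδ0⟩ : ∃ δ : ℝ, ε = 7 * δ ∧ 0 < δ := ⟨ε / 7, by ring, by positivity⟩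
  rw [hδ]
  have her0 : ∀ K, 0 ≤ er g K := fun K => Real.sqrt_nonneg _
  by_cases hN : ∃ w₁ : ℕ, ∀ p : ℕ, p.Prime → w₁ < p →
      g p ^ (E * Nat.totient w₁.factorial) = 1
  · obtain ⟨w₁, hw₁⟩ := hN
    have hN1 : 1 ≤ E * Nat.totient w₁.factorial :=
      Nat.mul_pos hE (Nat.totient_pos.mpr (Nat.factorial_pos _))
    set B : ℝ := ((E * Nat.totient w₁.factorial : ℕ) : ℝ) with hB
    have hB0 : 0 ≤ B := Nat.cast_nonneg _
    filter_upwards [ev_inv C _ hδ0, ev_of htlt (C * B) _ hδ0, eventually_ge_atTop q,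
      eventually_ge_atTop 2, eventually_ge_atTop w₁] with w hw1 hw2 hqw hw3 hw4
    have hqd : q ∣ w.factorial := Nat.dvd_factorial hd.hq hqw
    have hgw : ∀ p : ℕ, p.Prime → w < p → g p ^ (E * Nat.totient w.factorial) = 1 := by
      intro p hp hwp
      obtain ⟨c, hc⟩ := Nat.totient_dvd_of_dvd (Nat.factorial_dvd_factorial hw4)
      have h1 : E * Nat.totient w.factorial = (E * Nat.totient w₁.factorial) * c := by
        rw [hc]; ring
      rw [h1, pow_mul, hw₁ p hp (by omega), one_pow]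
    have hBw : ∀ p : ℕ, p.Prime → w < p → ‖1 - g p‖ ≤ B * ‖1 - g p‖ ^ 2 := fun p hp hwp =>
      hFv (g p) _ hN1 (hw₁ p hp (by omega))
    filter_upwards [ev_of hert C _ hδ0, ev_inv (C * (1 + |t|)) _ hδ0,
      eventually_ge_atTop w] with K h1 h2 hwK
    have hK1 : 1 ≤ K := by omega
    obtain ⟨MY, hMY⟩ := hY f g t q hd E w K hE hw3 hwK hqd δ hδ0
    obtain ⟨MV, hMV⟩ := hV g hg B E w K hB0 hE hw3 hwK hBw δ hδ0
    filter_upwards [eventually_ge_atTop MY, eventually_ge_atTop MV] with M hM1 hM2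
    refine avg_re hK1 _ _ fun e e' => ?_
    have b0 := eT_le g w K t cY C δ hYC h1 h2 hw1
    have b1 := hMY M hM1 e e'
    have b2 := hMV M hM2
    obtain ⟨-, -, -, -, -, -, -, hPg⟩ := hPr E w K e e' hE hw3 hwK
    rw [(hPg g hg.cm).2 hgw, one_mul] at b1
    have b3 : ‖CYK f E w K e e' M - 1‖ ≤ 7 * δ := by
      have b4 : CYK f E w K e e' M - 1 = (CYK f E w K e e' M - VYK g E w K M) +
          (VYK g E w K M - 1) := by ring
      rw [b4]
      refine (norm_add_le _ _).trans ?_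
      have b5 : cV * (er g K + B * tl g w) ≤ C * (er g K + B * tl g w) := by
        refine mul_le_mul_of_nonneg_right hVC ?_
        have := her0 K
        have h3 : 0 ≤ tl g w := (hTl g hg).1 w
        positivity
      have b6 : C * (er g K + B * tl g w) = C * er g K + C * B * tl g w := by ring
      linarith
    have b7 := re_of_norm b3
    rw [Complex.sub_re, Complex.one_re] at b7
    linarith
  · push Not at hN
    filter_upwards [ev_inv C _ hδ0, eventually_ge_atTop q,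
      eventually_ge_atTop 2] with w hw1 hqw hw3
    have hqd : q ∣ w.factorial := Nat.dvd_factorial hd.hq hqw
    obtain ⟨p1, hp1, hwp1, hgp1⟩ := hN w
    have hg1 : 0 < ‖1 - g p1 ^ (E * Nat.totient w.factorial)‖ := by
      rw [norm_pos_iff, sub_ne_zero]; exact fun h => hgp1 h.symm
    filter_upwards [ev_of hert C _ hδ0, ev_inv (C * (1 + |t|)) _ hδ0,
      eventually_ge_atTop w, eventually_ge_atTop p1,
      ev_inv (2 / ‖1 - g p1 ^ (E * Nat.totient w.factorial)‖) _ hδ0] with K h1 h2 hwK hpK h3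
    have hK1 : 1 ≤ K := by omega
    have hK0 : (0 : ℝ) < K := by exact_mod_cast hK1
    have hk : ‖(∑ e' : Fin (K + 1) → Fin K, g (kK E w K e')) / (K : ℂ) ^ (K + 1)‖ ≤ δ := by
      refine (hKe g hg.cm E w K p1 hE hK1 hp1 hgp1 hwp1 hpK).trans ?_
      have : 2 / (K * ‖1 - g p1 ^ (E * Nat.totient w.factorial)‖) =
          (2 / ‖1 - g p1 ^ (E * Nat.totient w.factorial)‖) * ((K : ℝ))⁻¹ := by
        field_simp
      rw [this]; exact h3
    obtain ⟨MY, hMY⟩ := hY f g t q hd E w K hE hw3 hwK hqd δ hδ0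
    filter_upwards [eventually_ge_atTop MY] with M hM1
    have b0 := eT_le g w K t cY C δ hYC h1 h2 hw1
    let e0 : Fin (K + 1) → Fin K := fun _ => ⟨0, by omega⟩
    have hVle : ‖VYK g E w K M‖ ≤ 1 := (hUb f g t hf hg E w K e0 M).2.2
    have hb : ∀ (e : Fin (w + 1) → Fin K) (e' : Fin (K + 1) → Fin K),
        ‖CYK f E w K e e' M - 1 * (g (kK E w K e') * VYK g E w K M)‖ ≤ 4 * δ := by
      intro e e'
      rw [one_mul]
      exact (hMY M hM1 e e').trans (by linarith)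
    have hm : ‖(∑ e' : Fin (K + 1) → Fin K, g (kK E w K e') * VYK g E w K M) /
        (K : ℂ) ^ (K + 1)‖ ≤ δ := by
      rw [← Finset.sum_mul, mul_div_right_comm, norm_mul]
      calc _ ≤ δ * 1 := mul_le_mul hk hVle (norm_nonneg _) hδ0.le
        _ = δ := mul_one _
    have h4 := avg_prod hK1 (fun (e : Fin (w + 1) → Fin K) e' => CYK f E w K e e' M)
      (fun _ => 1) (fun e' => g (kK E w K e') * VYK g E w K M) (4 * δ) δ hδ0.le hb
      (Or.inr ⟨fun _ => by simp, hm⟩)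
    have h5 := re_of_norm h4
    linarith

/-- averaging a pointwise bound -/
theorem avg2 (Q D a₀ M : ℕ) (F G : ℕ → ℕ → ℂ) (c : ℂ) (H₁ H₂ : ℕ → ℕ → ℝ) (B₁ B₂ : ℝ)
    (hpt : ∀ b n : ℕ, 0 < b → 0 < n →
      ‖F (Q * b + a₀) n - c * G (Q * b + a₀) n‖ ≤ H₁ (Q * b + a₀) n + H₂ (Q * b + a₀) n)
    (h₁ : BR Q D a₀ M H₁ ≤ B₁) (h₂ : BR Q D a₀ M H₂ ≤ B₂) :
    ‖Bx Q D a₀ M F - c * Bx Q D a₀ M G‖ ≤ B₁ + B₂ := by
  obtain ⟨hadd, hmul, hnorm, -, haddR, -, -⟩ := pr_DBx Q D a₀ M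
  have h0 : Bx Q D a₀ M F - c * Bx Q D a₀ M G =
      Bx Q D a₀ M (fun a n => F a n - c * G a n) := by
    have h1 := hadd F (fun a n => (-c) * G a n)
    have h2 := hmul (-c) G
    rw [h2] at h1
    have h3 : (fun a n => F a n + -c * G a n) = (fun a n => F a n - c * G a n) := by
      funext a n; ring
    rw [h3] at h1
    rw [h1]; ring
  rw [h0]
  refine (hnorm _).trans ?_
  refine (IDXm.BR_mono Q D a₀ M _ (fun a n => H₁ a n + H₂ a n)
    (fun b n hb hn => hpt b n hb hn)).trans ?_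
  rw [haddR]
  linarith

theorem mul_sub_le {A A' B B' : ℂ} {x y : ℝ} (hA : ‖A - A'‖ ≤ x) (hB : ‖B - B'‖ ≤ y)
    (h1 : ‖A'‖ ≤ 1) (h2 : ‖B‖ ≤ 1) : ‖A * B - A' * B'‖ ≤ x + y := by
  have h3 : A * B - A' * B' = (A - A') * B + A' * (B - B') := by ring
  rw [h3]
  refine (norm_add_le _ _).trans ?_
  rw [norm_mul, norm_mul]
  have h4 : ‖A - A'‖ * ‖B‖ ≤ ‖A - A'‖ := mul_le_of_le_one_right (norm_nonneg _) h2
  have h5 : ‖A'‖ * ‖B - B'‖ ≤ ‖B - B'‖ := mul_le_of_le_one_left (norm_nonneg _) h1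
  linarith

/-- main term of the product of the correlations, without the factor `f1 (kp w K e)` -/
noncomputable def UP (f1 g1 g2 : ℕ → ℂ) (t1 : ℝ) (w K : ℕ) (e' : Fin (K + 1) → Fin K) (M : ℕ) :
    ℂ :=
  f1 (2 * w.factorial) * (conj (cQ g1 K M) * cL g1 K M) * (g2 (kK 1 w K e') *
    (cL g2 K M * conj (cQ g2 K M))) *
    BFK 1 w K M fun a n => (f1 n * conj (((kK 1 w K e' * a : ℕ) : ℂ) ^ (t1 * Complex.I)) *
      conj (gP g1 w K n)) * (g2 a * conj (gP g2 w K n))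

theorem UP_le {f1 g1 g2 : ℕ → ℂ} (hf1 : CM f1) (hg1 : G1 g1) (hg2 : G1 g2) (t1 : ℝ) (w K : ℕ)
    (e' : Fin (K + 1) → Fin K) (M : ℕ) : ‖UP f1 g1 g2 t1 w K e' M‖ ≤ 1 := by
  obtain ⟨-, -, -, -, -, hc1, -⟩ := pr_DTl g1 hg1
  obtain ⟨-, -, -, -, -, hc2, -⟩ := pr_DTl g2 hg2
  unfold UP BFK BxR
  rw [norm_mul, norm_mul, norm_mul]
  have a1 : ‖conj (cQ g1 K M) * cL g1 K M‖ ≤ 1 := by
    rw [norm_mul, Complex.norm_conj]
    exact mul_le_one₀ (hc1 K M).2 (norm_nonneg _) (hc1 K M).1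
  have a2 : ‖g2 (kK 1 w K e') * (cL g2 K M * conj (cQ g2 K M))‖ ≤ 1 := by
    rw [norm_mul, norm_mul, Complex.norm_conj]
    exact mul_le_one₀ (cm_le hg2.cm _) (by positivity)
      (mul_le_one₀ (hc2 K M).1 (norm_nonneg _) (hc2 K M).2)
  refine mul_le_one₀ (mul_le_one₀ (mul_le_one₀ (cm_le hf1 _) (norm_nonneg _) a1)
    (norm_nonneg _) a2) (norm_nonneg _) ?_
  refine bx_le _ _ _ _ _ fun a n => ?_
  rw [norm_mul, norm_mul, norm_mul, norm_mul, Complex.norm_conj, Complex.norm_conj,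
    Complex.norm_conj]
  exact mul_le_one₀ (mul_le_one₀ (mul_le_one₀ (cm_le hf1 _) (norm_nonneg _) (pow_le _ t1))
    (norm_nonneg _) (gP_le hg1.cm _ _ _)) (by positivity)
    (mul_le_one₀ (cm_le hg2.cm a) (norm_nonneg _) (gP_le hg2.cm _ _ _))

/-- the error of the pointwise bounds, for `z, x` -/
noncomputable def HZ (g : ℕ → ℂ) (t : ℝ) (w K κ k M : ℕ) (a n : ℕ) : ℝ :=
  10 * |t| / K + 2 * (if K * (κ * n) > 2 * (k * a) then 1 else 0) + 2 * iPq w n +
    ‖gT g K (tZ κ k a n) - cQ g K M‖ + ‖gT g K (k * a + κ * n) - cL g K M‖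

/-- the error of the pointwise bounds, for `y, z` -/
noncomputable def HY (g : ℕ → ℂ) (t : ℝ) (w K κ k M : ℕ) (a n : ℕ) : ℝ :=
  10 * |t| / K + 2 * (if K * (κ * n) > 2 * (k * a) then 1 else 0) + 2 * iPq w n +
    ‖gT g K (k * a + 2 * (κ * n)) - cL g K M‖ + ‖gT g K (tZ κ k a n) - cQ g K M‖

/-- the averages of the errors -/
theorem err : ∃ C : ℝ, 0 < C ∧ ∀ g : ℕ → ℂ, G1 g → ∀ (t : ℝ) (w K : ℕ), 2 ≤ w → w ≤ K →
    ∀ η : ℝ, 0 < η → ∃ M0 : ℕ, ∀ M ≥ M0,
    ∀ (e : Fin (w + 1) → Fin K) (e' : Fin (K + 1) → Fin K),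
      (BR w.factorial (DR 1 w K) 1 M fun a s =>
        HZ g t w K (kR 1 w K e) (kK 1 w K e') M a (w.factorial * s + 1)) ≤ C * eT g t w K + η ∧
      (BR w.factorial (DR 1 w K) 1 M fun a s =>
        HY g t w K (kR 1 w K e) (kK 1 w K e') M a (w.factorial * s + 1)) ≤
        C * eT g t w K + η := by
  obtain ⟨C1, hC1, hLm⟩ := all_RLm
  obtain ⟨C2, hC2, hQd⟩ := all_RQd
  refine ⟨14 + C1 + C2, by positivity, ?_⟩
  intro g hg t w K hw hwK η hη
  have hK : 0 < K := by omega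
  have hw0 : 0 < w := by omega
  have hfac : ∀ p : ℕ, p.Prime → p ∣ w.factorial → p ≤ w := fun p hp h =>
    (hp.dvd_factorial).1 h
  obtain ⟨M1, hM1⟩ := pr_RPq w w.factorial (by omega) (Nat.factorial_pos w) hfac (η / 4)
    (by positivity)
  have hpar : ∀ i : (Fin (w + 1) → Fin K) × (Fin (K + 1) → Fin K), ∃ M0 : ℕ, ∀ M ≥ M0,
      0 < DR 1 w K ∧
      (BR w.factorial (DR 1 w K) 1 M fun a s =>
        ‖gT g K (kK 1 w K i.2 * a + kR 1 w K i.1 * (w.factorial * s + 1)) - cL g K M‖) ≤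
          C1 * er g K + η / 4 ∧
      (BR w.factorial (DR 1 w K) 1 M fun a s =>
        ‖gT g K (kK 1 w K i.2 * a + 2 * (kR 1 w K i.1 * (w.factorial * s + 1))) - cL g K M‖) ≤
          C1 * er g K + η / 4 ∧
      (BR w.factorial (DR 1 w K) 1 M fun a s =>
        ‖gT g K (tZ (kR 1 w K i.1) (kK 1 w K i.2) a (w.factorial * s + 1)) - cQ g K M‖) ≤
          C2 * er g K + η / 4 := by
    rintro ⟨e, e'⟩
    obtain ⟨-, -, -, hκ0, -, hD0, -⟩ := pr_RK2 1 w K e le_rfl hw (by omega)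
    obtain ⟨hPar, -, -, hinv, hpr, hpr2, -⟩ := all_KPr 1 w K e e' le_rfl hw hwK
    obtain ⟨M2, hM2⟩ := hLm g hg K (kR 1 w K e) (kK 1 w K e') w.factorial (DR 1 w K)
      (by omega) hκ0 hPar.k0 (Nat.factorial_pos w) hD0 hpr2 (η / 4) (by positivity)
    obtain ⟨M3, hM3⟩ := hQd g hg K (kR 1 w K e) (kK 1 w K e') w.factorial (DR 1 w K)
      (by omega) hκ0 hPar.k0 (Nat.factorial_pos w) hD0 hpr (η / 4) (by positivity)
    exact ⟨max M2 M3, fun M hM => ⟨hD0, (hM2 M (le_trans (le_max_left _ _) hM) _ hinv).2.1,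
      (hM2 M (le_trans (le_max_left _ _) hM) _ hinv).2.2,
      hM3 M (le_trans (le_max_right _ _) hM) _ hinv⟩⟩
  obtain ⟨M3, hM3⟩ := IDXm.common _ hpar
  refine ⟨max (max M1 M3) 1, fun M hM e e' => ?_⟩
  have ha : M1 ≤ M := le_trans (le_trans (le_max_left _ _) (le_max_left _ _)) hM
  have hb : M3 ≤ M := le_trans (le_trans (le_max_right _ _) (le_max_left _ _)) hM
  have hc : 0 < M := le_trans (le_max_right _ _) hM
  obtain ⟨hD0, h3, h4, h5⟩ := hM3 M hb (e, e')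
  obtain ⟨-, -, -, hκ0, hKκ, -, -⟩ := pr_RK2 1 w K e le_rfl hw (by omega)
  obtain ⟨hPar, -⟩ := all_KPr 1 w K e e' le_rfl hw hwK
  have h1 := pr_RSz w.factorial (DR 1 w K) K (kR 1 w K e) (kK 1 w K e') M
      1 (Nat.factorial_pos w) hK hc hκ0 hPar.k0 hKκ
  have h2 := hM1 M ha (DR 1 w K) 1 hD0
  have hK0 : (0 : ℝ) < K := by exact_mod_cast hK
  have hw0' : (0 : ℝ) < w := by exact_mod_cast hw0
  have her : 0 ≤ er g K := Real.sqrt_nonneg _
  have hfin : 10 * |t| / K + 2 * (2 / (K : ℝ)) + 2 * (1 / (w : ℝ) + η / 4) +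
      (C1 * er g K + η / 4) + (C2 * er g K + η / 4) ≤ (14 + C1 + C2) * eT g t w K + η := by
    unfold eT
    have k1 : 0 ≤ 1 / (w : ℝ) := by positivity
    have k2 : 0 ≤ 1 / (K : ℝ) := by positivity
    have k3 : 0 ≤ |t| / (K : ℝ) := by positivity
    have e1 : 10 * |t| / (K : ℝ) = 10 * (|t| / K) := by ring
    have e2 : (1 + |t|) / (K : ℝ) = 1 / K + |t| / K := by ring
    have e3 : 2 / (K : ℝ) = 2 * (1 / K) := by ring
    rw [e1, e2, e3]
    nlinarith [mul_nonneg hC1.le k1, mul_nonneg hC1.le k2, mul_nonneg hC1.le k3,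
      mul_nonneg hC1.le her, mul_nonneg hC2.le k1, mul_nonneg hC2.le k2, mul_nonneg hC2.le k3,
      mul_nonneg hC2.le her]
  constructor
  · unfold HZ
    rw [IDXm.BR_lin pr_DBx _ _ _ _ hD0 hc]
    linarith
  · unfold HY
    rw [IDXm.BR_lin pr_DBx _ _ _ _ hD0 hc]
    linarith

/-- the product of the correlations `x, z` of `f1` and `y, z` of `f2` -/
theorem prod_main : ∃ C : ℝ, 0 < C ∧ ∀ (f1 g1 f2 g2 : ℕ → ℂ) (t1 t2 : ℝ) (q1 q2 : ℕ),
    Dec f1 g1 t1 q1 → Dec f2 g2 t2 q2 → ∀ w K : ℕ, 2 ≤ w → w ≤ K → q1 ∣ w.factorial →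
    q2 ∣ w.factorial → ∀ η : ℝ, 0 < η → ∃ M0 : ℕ, ∀ M ≥ M0,
    ∀ (e : Fin (w + 1) → Fin K) (e' : Fin (K + 1) → Fin K),
      ‖(BFK 1 w K M fun a n => f1 (tX (kR 1 w K e) (kK 1 w K e') a n) *
          f2 (tY (kR 1 w K e) (kK 1 w K e') a n) *
          conj (f1 (tZ (kR 1 w K e) (kK 1 w K e') a n) *
            f2 (tZ (kR 1 w K e) (kK 1 w K e') a n))) -
        f1 (kp w K e) ^ 1 * UP f1 g1 g2 t1 w K e' M‖ ≤ C * (eT g1 t1 w K + eT g2 t2 w K) + η := by
  obtain ⟨C, hC, herr⟩ := err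
  refine ⟨C, hC, ?_⟩
  intro f1 g1 f2 g2 t1 t2 q1 q2 hd1 hd2 w K hw hwK hq1 hq2 η hη
  obtain ⟨M1, hM1⟩ := herr g1 hd1.hg t1 w K hw hwK (η / 2) (by positivity)
  obtain ⟨M2, hM2⟩ := herr g2 hd2.hg t2 w K hw hwK (η / 2) (by positivity)
  refine ⟨max M1 M2, fun M hM e e' => ?_⟩
  have b1 := (hM1 M (le_trans (le_max_left _ _) hM) e e').1
  have b2 := (hM2 M (le_trans (le_max_right _ _) hM) e e').2
  obtain ⟨-, -, -, hκ0, -, -, hfκ⟩ := pr_RK2 1 w K e le_rfl hw (by omega)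
  obtain ⟨hPar, -, -, -, -, -, hcong, -⟩ := all_KPr 1 w K e e' le_rfl hw hwK
  obtain ⟨-, -, -, -, -, hc1, -⟩ := pr_DTl g1 hd1.hg
  set κ := kR 1 w K e with hκ
  set k := kK 1 w K e' with hk
  have hrew : (BFK 1 w K M fun a n => f1 (tX κ k a n) * f2 (tY κ k a n) *
          conj (f1 (tZ κ k a n) * f2 (tZ κ k a n))) - f1 (kp w K e) ^ 1 * UP f1 g1 g2 t1 w K e' M =
      Bx w.factorial (DR 1 w K) 1 M (fun a s => f1 (tX κ k a (w.factorial * s + 1)) *
          f2 (tY κ k a (w.factorial * s + 1)) * conj (f1 (tZ κ k a (w.factorial * s + 1)) *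
            f2 (tZ κ k a (w.factorial * s + 1)))) -
      (f1 (2 * κ) * (conj (cQ g1 K M) * cL g1 K M) * (g2 k * (cL g2 K M * conj (cQ g2 K M)))) *
      Bx w.factorial (DR 1 w K) 1 M (fun a s =>
        (f1 (w.factorial * s + 1) * conj (((k * a : ℕ) : ℂ) ^ (t1 * Complex.I)) *
          conj (gP g1 w K (w.factorial * s + 1))) *
          (g2 a * conj (gP g2 w K (w.factorial * s + 1)))) := by
    rw [hfκ f1 hd1.hf]
    unfold UP BFK BxR
    ring
  rw [hrew]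
  have hfin := avg2 w.factorial (DR 1 w K) 1 M
    (fun a s => f1 (tX κ k a (w.factorial * s + 1)) *
          f2 (tY κ k a (w.factorial * s + 1)) * conj (f1 (tZ κ k a (w.factorial * s + 1)) *
            f2 (tZ κ k a (w.factorial * s + 1))))
    (fun a s => (f1 (w.factorial * s + 1) * conj (((k * a : ℕ) : ℂ) ^ (t1 * Complex.I)) *
          conj (gP g1 w K (w.factorial * s + 1))) *
          (g2 a * conj (gP g2 w K (w.factorial * s + 1))))
    (f1 (2 * κ) * (conj (cQ g1 K M) * cL g1 K M) * (g2 k * (cL g2 K M * conj (cQ g2 K M))))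
    (fun a s => HZ g1 t1 w K κ k M a (w.factorial * s + 1))
    (fun a s => HY g2 t2 w K κ k M a (w.factorial * s + 1))
    _ _ (fun b s hb hs => ?_) b1 b2
  · refine hfin.trans (le_of_eq ?_)
    ring
  · have ha0 : 0 < w.factorial * b + 1 := Nat.succ_pos _
    have hn0 : 0 < w.factorial * s + 1 := Nat.succ_pos _
    have p1 := all_RPZ f1 g1 t1 q1 hd1 w K κ k hw hwK hq1 hPar M
      (w.factorial * b + 1) (w.factorial * s + 1) (hcong b) ha0 hn0
    have p2 := (all_RPY f2 g2 t2 q2 hd2 w K κ k hw hwK hq2 hPar M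
      (w.factorial * b + 1) (w.factorial * s + 1) (hcong b) ha0 hn0).1
    set a := w.factorial * b + 1 with ha
    set n := w.factorial * s + 1 with hn
    have p1' : ‖f1 (tX κ k a n) * conj (f1 (tZ κ k a n)) -
        f1 (2 * κ) * (conj (cQ g1 K M) * cL g1 K M) *
          (f1 n * conj (((k * a : ℕ) : ℂ) ^ (t1 * Complex.I)) * conj (gP g1 w K n))‖ ≤
        HZ g1 t1 w K κ k M a n := by
      rw [← Complex.norm_conj] at p1
      refine le_trans (le_of_eq ?_) p1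
      congr 1
      simp only [map_sub, map_mul, Complex.conj_conj]
      ring
    have hn1 : ‖f1 (2 * κ) * (conj (cQ g1 K M) * cL g1 K M) *
          (f1 n * conj (((k * a : ℕ) : ℂ) ^ (t1 * Complex.I)) * conj (gP g1 w K n))‖ ≤ 1 := by
      rw [norm_mul, norm_mul, norm_mul, norm_mul, norm_mul, Complex.norm_conj, Complex.norm_conj,
        Complex.norm_conj]
      exact mul_le_one₀ (mul_le_one₀ (cm_le hd1.hf _) (by positivity)
        (mul_le_one₀ (hc1 K M).2 (norm_nonneg _) (hc1 K M).1)) (by positivity)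
        (mul_le_one₀ (mul_le_one₀ (cm_le hd1.hf _) (norm_nonneg _) (pow_le _ t1)) (norm_nonneg _)
          (gP_le hd1.hg.cm _ _ _))
    have hn2 : ‖f2 (tY κ k a n) * conj (f2 (tZ κ k a n))‖ ≤ 1 := by
      rw [norm_mul, Complex.norm_conj]
      exact mul_le_one₀ (cm_le hd2.hf _) (norm_nonneg _) (cm_le hd2.hf _)
    have h3 := mul_sub_le p1' p2 hn1 hn2
    refine le_trans (le_of_eq ?_) h3
    congr 1
    simp only [map_mul]
    ring

end PosD

open Pool.Agent.F0f91f8.KR.IKTr Pool.Agent.F0f91f8.KR.IKFi Pool.Agent.F0f91f8.RC.IRFi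
  Pool.Agent.F0f91f8.HD.DFi in
/-- Pos3 for pretentious functions -/
theorem posPret {f1 f2 : ℕ → ℂ} (hf1 : CM f1) (hf2 : CM f2) (hp1 : Pret f1) (hp2 : Pret f2)
    {ε : ℝ} (hε : 0 < ε) :
    Nest fun w K M => -ε ≤ (AvK 1 w K M fun x y z => f1 x * f2 y * conj (f1 z * f2 z)).re := by
  by_cases hall : ∀ p : ℕ, p.Prime → f1 p ^ 1 = 1
  · -- `f1 = 1`
    have hf1n : ∀ n : ℕ, 0 < n → f1 n = 1 := fun n hn => by
      have := pow_all hf1 hall n hn
      rwa [pow_one] at this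
    have h1 := PosD.ypart hf2 hp2 one_pos hε
    show ∀ᶠ w in atTop, ∀ᶠ K in atTop, ∀ᶠ M in atTop, _
    filter_upwards [h1] with w h2
    filter_upwards [h2] with K h3
    filter_upwards [h3] with M h4
    obtain ⟨-, -, -, hre, hmono, -⟩ := pr_KMo pr_DBx 1 w K M le_rfl
    have h5 : (AvK 1 w K M fun _ y z => f2 y * conj (f2 z)) =
        avg (fun (e : Fin (w + 1) → Fin K) e' => CYK f2 1 w K e e' M) := rfl
    rw [← h5, hre] at h4
    rw [hre]
    refine h4.trans (hmono _ _ fun x y z hx hy hz _ => le_of_eq ?_)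
    rw [hf1n x hx, hf1n z hz, one_mul, one_mul]
  · push Not at hall
    obtain ⟨p0, hp0, hfp0⟩ := hall
    obtain ⟨g1, t1, q1, hd1⟩ := pr_DDe f1 hf1 hp1
    obtain ⟨g2, t2, q2, hd2⟩ := pr_DDe f2 hf2 hp2
    obtain ⟨C, hC, hmain⟩ := PosD.prod_main
    obtain ⟨-, -, -, hert1, -, -, -⟩ := pr_DTl g1 hd1.hg
    obtain ⟨-, -, -, hert2, -, -, -⟩ := pr_DTl g2 hd2.hg
    set δ : ℝ := ε / 8 with hδ
    have hδ0 : 0 < δ := by positivity
    have hf1' : 0 < ‖1 - f1 p0 ^ 1‖ := by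
      rw [norm_pos_iff, sub_ne_zero]; exact fun h => hfp0 h.symm
    show ∀ᶠ w in atTop, ∀ᶠ K in atTop, ∀ᶠ M in atTop, _
    filter_upwards [ev_inv C _ hδ0, eventually_ge_atTop q1, eventually_ge_atTop q2,
      eventually_ge_atTop 2, eventually_ge_atTop p0] with w hw1 hqw1 hqw2 hw3 hpw
    have hqd1 : q1 ∣ w.factorial := Nat.dvd_factorial hd1.hq hqw1
    have hqd2 : q2 ∣ w.factorial := Nat.dvd_factorial hd2.hq hqw2
    filter_upwards [ev_of hert1 C _ hδ0, ev_of hert2 C _ hδ0, ev_inv (C * (1 + |t1|)) _ hδ0,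
      ev_inv (C * (1 + |t2|)) _ hδ0, eventually_ge_atTop w,
      ev_inv (2 / ‖1 - f1 p0 ^ 1‖) _ hδ0] with K h1 h2 h3 h4 hwK h5
    have hK1 : 1 ≤ K := by omega
    have hK0 : (0 : ℝ) < K := by exact_mod_cast hK1
    obtain ⟨M0, hM0⟩ := hmain f1 g1 f2 g2 t1 t2 q1 q2 hd1 hd2 w K hw3 hwK hqd1 hqd2 δ hδ0
    have hk : ‖(∑ e : Fin (w + 1) → Fin K, f1 (kp w K e) ^ 1) / (K : ℂ) ^ (w + 1)‖ ≤ δ := by
      refine (pr_RKp pr_DKp f1 hf1 1 w K p0 le_rfl hK1 hp0 hfp0 hpw).trans ?_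
      have : 2 / (K * ‖1 - f1 p0 ^ 1‖) = (2 / ‖1 - f1 p0 ^ 1‖) * ((K : ℝ))⁻¹ := by
        field_simp
      rw [this]; exact h5
    filter_upwards [eventually_ge_atTop M0] with M hM
    have e1 : (AvK 1 w K M fun x y z => f1 x * f2 y * conj (f1 z * f2 z)) =
        avg (fun (e : Fin (w + 1) → Fin K) (e' : Fin (K + 1) → Fin K) =>
          BFK 1 w K M fun a n => f1 (tX (kR 1 w K e) (kK 1 w K e') a n) *
          f2 (tY (kR 1 w K e) (kK 1 w K e') a n) *
          conj (f1 (tZ (kR 1 w K e) (kK 1 w K e') a n) *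
            f2 (tZ (kR 1 w K e) (kK 1 w K e') a n))) := rfl
    rw [e1]
    have c1 := eT_le g1 w K t1 C C δ le_rfl h1 h3 hw1
    have c2 := eT_le g2 w K t2 C C δ le_rfl h2 h4 hw1
    have h6 := avg_prod hK1 (fun (e : Fin (w + 1) → Fin K) (e' : Fin (K + 1) → Fin K) =>
          BFK 1 w K M fun a n => f1 (tX (kR 1 w K e) (kK 1 w K e') a n) *
          f2 (tY (kR 1 w K e) (kK 1 w K e') a n) *
          conj (f1 (tZ (kR 1 w K e) (kK 1 w K e') a n) *
            f2 (tZ (kR 1 w K e) (kK 1 w K e') a n)))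
      (fun e => f1 (kp w K e) ^ 1) (fun e' => PosD.UP f1 g1 g2 t1 w K e' M) (7 * δ) δ hδ0.le
      (fun e e' => (hM0 M hM e e').trans (by rw [mul_add]; linarith))
      (Or.inl ⟨hk, fun e' => PosD.UP_le hf1 hd1.hg hd2.hg t1 w K e' M⟩)
    have h7 := re_of_norm h6
    have h8 : ε = 8 * δ := by rw [hδ]; ring
    linarith

/-- Pos3 for all completely multiplicative functions, from `Aper3` -/
theorem pos3_of (hA : Aper3) {f1 f2 : ℕ → ℂ} (hf1 : CM f1) (hf2 : CM f2) {ε : ℝ} (hε : 0 < ε) :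
    Nest fun w K M => -ε ≤ (AvK 1 w K M fun x y z => f1 x * f2 y * conj (f1 z * f2 z)).re := by
  by_cases h : Aper f1 ∨ Aper f2
  · have hf3 : CM (fun n => conj (f1 n * f2 n)) := by
      refine ⟨?_, fun m n => ?_, fun n hn => ?_⟩
      · show conj (f1 0 * f2 0) = 0
        rw [hf1.1, zero_mul, map_zero]
      · show conj (f1 (m * n) * f2 (m * n)) = conj (f1 m * f2 m) * conj (f1 n * f2 n)
        rw [hf1.2.1, hf2.2.1, ← map_mul]
        congr 1
        ring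
      · show ‖conj (f1 n * f2 n)‖ = 1
        rw [Complex.norm_conj, norm_mul, hf1.2.2 n hn, hf2.2.2 n hn, one_mul]
    show ∀ᶠ w in atTop, ∀ᶠ K in atTop, ∀ᶠ M in atTop, _
    filter_upwards [eventually_ge_atTop 2] with w hw
    filter_upwards [eventually_ge_atTop w] with K hwK
    have h1 : Tendsto (fun M : ℕ => AvK 1 w K M fun x y z => f1 x * f2 y * conj (f1 z * f2 z))
        atTop (𝓝 0) := by
      have h2 : Tendsto (fun M : ℕ => ∑ e : Fin (w + 1) → Fin K, ∑ e' : Fin (K + 1) → Fin K,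
          BxR w.factorial (DR 1 w K) 1 M fun a n =>
            f1 (tX (kR 1 w K e) (kK 1 w K e') a n) * f2 (tY (kR 1 w K e) (kK 1 w K e') a n) *
              conj (f1 (tZ (kR 1 w K e) (kK 1 w K e') a n) *
                f2 (tZ (kR 1 w K e) (kK 1 w K e') a n))) atTop
          (𝓝 (∑ e : Fin (w + 1) → Fin K, ∑ e' : Fin (K + 1) → Fin K, 0)) := by
        refine tendsto_finsetSum _ fun e _ => tendsto_finsetSum _ fun e' _ => ?_
        obtain ⟨-, -, -, hκ0, -, hD0, -⟩ := pr_RK2 1 w K e le_rfl hw (by omega)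
        obtain ⟨hPar, -⟩ := all_KPr 1 w K e e' le_rfl hw hwK
        exact hA f1 f2 _ hf1 hf2 hf3 h (kR 1 w K e) (kK 1 w K e') w.factorial (DR 1 w K) 1 hκ0
          hPar.k0 (Nat.factorial_pos w) hD0
      simp only [Finset.sum_const_zero] at h2
      have h3 := h2.div_const ((K : ℂ) ^ (w + 1) * (K : ℂ) ^ (K + 1))
      rw [zero_div] at h3
      exact h3
    have h4 : Tendsto (fun M : ℕ =>
        (AvK 1 w K M fun x y z => f1 x * f2 y * conj (f1 z * f2 z)).re) atTop (𝓝 0) := by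
      have := (Complex.continuous_re.tendsto 0).comp h1
      rwa [Complex.zero_re] at this
    exact (h4.eventually (lt_mem_nhds (by linarith : -ε < 0))).mono fun M hM => hM.le
  · push Not at h
    exact posPret hf1 hf2 (pretStmt f1 hf1 h.1) (pretStmt f2 hf2 h.2) hε

end Pool.Agent.F0f91f8.KT
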