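import Pool.Agent.Work.MP_0f91f8_co.K.BU
import Pool.Agent.Work.MP_0f91f8_co.KT.PosD
import Pool.Agent.Work.MP_0f91f8_co.US.All

/-!
# Torus form of the collision theorem, module D (helper83): Pos3 for the families with all `E`
-/

set_option autoImplicit false

namespace Pool.Agent.F0f91f8.KT

open Filter Topology ComplexConjugate
open Pool.Agent.F0f91f8.HD Pool.Agent.F0f91f8.RC Pool.Agent.F0f91f8.KR
open scoped BigOperators

namespace PosE

open Pool.Agent.F0f91f8.KR.IKTr Pool.Agent.F0f91f8.KR.IKFi Pool.Agent.F0f91f8.RC.IRFi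
open Pool.Agent.F0f91f8.HD.DFi PosD

/-- main term of the product of the correlations, without the factor `f1 (kp w K e)` -/
noncomputable def UP (E : ℕ) (f1 g1 g2 : ℕ → ℂ) (t1 : ℝ) (w K : ℕ) (e' : Fin (K + 1) → Fin K) (M : ℕ) :
    ℂ :=
  f1 (2 * w.factorial) ^ E * (conj (cQ g1 K M) * cL g1 K M) * (g2 (kK E w K e') *
    (cL g2 K M * conj (cQ g2 K M))) *
    BFK E w K M fun a n => (f1 n * conj (((kK E w K e' * a : ℕ) : ℂ) ^ (t1 * Complex.I)) *
      conj (gP g1 w K n)) * (g2 a * conj (gP g2 w K n))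

theorem UP_le (E : ℕ) {f1 g1 g2 : ℕ → ℂ} (hf1 : CM f1) (hg1 : G1 g1) (hg2 : G1 g2) (t1 : ℝ) (w K : ℕ)
    (e' : Fin (K + 1) → Fin K) (M : ℕ) : ‖UP E f1 g1 g2 t1 w K e' M‖ ≤ 1 := by
  obtain ⟨-, -, -, -, -, hc1, -⟩ := pr_DTl g1 hg1
  obtain ⟨-, -, -, -, -, hc2, -⟩ := pr_DTl g2 hg2
  unfold UP BFK BxR
  rw [norm_mul, norm_mul, norm_mul]
  have a1 : ‖conj (cQ g1 K M) * cL g1 K M‖ ≤ 1 := by
    rw [norm_mul, Complex.norm_conj]
    exact mul_le_one₀ (hc1 K M).2 (norm_nonneg _) (hc1 K M).1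
  have a2 : ‖g2 (kK E w K e') * (cL g2 K M * conj (cQ g2 K M))‖ ≤ 1 := by
    rw [norm_mul, norm_mul, Complex.norm_conj]
    exact mul_le_one₀ (cm_le hg2.cm _) (by positivity)
      (mul_le_one₀ (hc2 K M).1 (norm_nonneg _) (hc2 K M).2)
  have a0 : ‖f1 (2 * w.factorial) ^ E‖ ≤ 1 := by
    rw [norm_pow]
    exact pow_le_one₀ (norm_nonneg _) (cm_le hf1 _)
  refine mul_le_one₀ (mul_le_one₀ (mul_le_one₀ a0 (norm_nonneg _) a1)
    (norm_nonneg _) a2) (norm_nonneg _) ?_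
  refine bx_le _ _ _ _ _ fun a n => ?_
  rw [norm_mul, norm_mul, norm_mul, norm_mul, Complex.norm_conj, Complex.norm_conj,
    Complex.norm_conj]
  exact mul_le_one₀ (mul_le_one₀ (mul_le_one₀ (cm_le hf1 _) (norm_nonneg _) (pow_le _ t1))
    (norm_nonneg _) (gP_le hg1.cm _ _ _)) (by positivity)
    (mul_le_one₀ (cm_le hg2.cm a) (norm_nonneg _) (gP_le hg2.cm _ _ _))

/-- the error of the pointwise bounds, for `z, x` -/
noncomputable def HZ (g : ℕ → ℂ) (t : ℝ) (w K κ k M : ℕ) (a n : ℕ) : ℝ :=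
  10 * |t| / K + 2 * (if K * (κ * n) > 2 * (k * a) then 1 else 0) + 2 * iPq w n +
    ‖gT g K (tZ κ k a n) - cQ g K M‖ + ‖gT g K (k * a + κ * n) - cL g K M‖

/-- the error of the pointwise bounds, for `y, z` -/
noncomputable def HY (g : ℕ → ℂ) (t : ℝ) (w K κ k M : ℕ) (a n : ℕ) : ℝ :=
  10 * |t| / K + 2 * (if K * (κ * n) > 2 * (k * a) then 1 else 0) + 2 * iPq w n +
    ‖gT g K (k * a + 2 * (κ * n)) - cL g K M‖ + ‖gT g K (tZ κ k a n) - cQ g K M‖

/-- the averages of the errors -/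
theorem err (E : ℕ) (hE : 1 ≤ E) : ∃ C : ℝ, 0 < C ∧ ∀ g : ℕ → ℂ, G1 g → ∀ (t : ℝ) (w K : ℕ),
    2 ≤ w → w ≤ K →
    ∀ η : ℝ, 0 < η → ∃ M0 : ℕ, ∀ M ≥ M0,
    ∀ (e : Fin (w + 1) → Fin K) (e' : Fin (K + 1) → Fin K),
      (BR w.factorial (DR E w K) 1 M fun a s =>
        HZ g t w K (kR E w K e) (kK E w K e') M a (w.factorial * s + 1)) ≤ C * eT g t w K + η ∧
      (BR w.factorial (DR E w K) 1 M fun a s =>
        HY g t w K (kR E w K e) (kK E w K e') M a (w.factorial * s + 1)) ≤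
        C * eT g t w K + η := by
  obtain ⟨C1, hC1, hLm⟩ := all_RLm
  obtain ⟨C2, hC2, hQd⟩ := all_RQd
  refine ⟨14 + C1 + C2, by positivity, ?_⟩
  intro g hg t w K hw hwK η hη
  have hK : 0 < K := by omega
  have hw0 : 0 < w := by omega
  have hfac : ∀ p : ℕ, p.Prime → p ∣ w.factorial → p ≤ w := fun p hp h =>
    (hp.dvd_factorial).1 h
  obtain ⟨M1, hM1⟩ := pr_RPq w w.factorial (by omega) (Nat.factorial_pos w) hfac (η / 4)
    (by positivity)
  have hpar : ∀ i : (Fin (w + 1) → Fin K) × (Fin (K + 1) → Fin K), ∃ M0 : ℕ, ∀ M ≥ M0,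
      0 < DR E w K ∧
      (BR w.factorial (DR E w K) 1 M fun a s =>
        ‖gT g K (kK E w K i.2 * a + kR E w K i.1 * (w.factorial * s + 1)) - cL g K M‖) ≤
          C1 * er g K + η / 4 ∧
      (BR w.factorial (DR E w K) 1 M fun a s =>
        ‖gT g K (kK E w K i.2 * a + 2 * (kR E w K i.1 * (w.factorial * s + 1))) - cL g K M‖) ≤
          C1 * er g K + η / 4 ∧
      (BR w.factorial (DR E w K) 1 M fun a s =>
        ‖gT g K (tZ (kR E w K i.1) (kK E w K i.2) a (w.factorial * s + 1)) - cQ g K M‖) ≤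
          C2 * er g K + η / 4 := by
    rintro ⟨e, e'⟩
    obtain ⟨-, -, -, hκ0, -, hD0, -⟩ := pr_RK2 E w K e hE hw (by omega)
    obtain ⟨hPar, -, -, hinv, hpr, hpr2, -⟩ := all_KPr E w K e e' hE hw hwK
    obtain ⟨M2, hM2⟩ := hLm g hg K (kR E w K e) (kK E w K e') w.factorial (DR E w K)
      (by omega) hκ0 hPar.k0 (Nat.factorial_pos w) hD0 hpr2 (η / 4) (by positivity)
    obtain ⟨M3, hM3⟩ := hQd g hg K (kR E w K e) (kK E w K e') w.factorial (DR E w K)
      (by omega) hκ0 hPar.k0 (Nat.factorial_pos w) hD0 hpr (η / 4) (by positivity)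
    exact ⟨max M2 M3, fun M hM => ⟨hD0, (hM2 M (le_trans (le_max_left _ _) hM) _ hinv).2.1,
      (hM2 M (le_trans (le_max_left _ _) hM) _ hinv).2.2,
      hM3 M (le_trans (le_max_right _ _) hM) _ hinv⟩⟩
  obtain ⟨M3, hM3⟩ := IDXm.common _ hpar
  refine ⟨max (max M1 M3) 1, fun M hM e e' => ?_⟩
  have ha : M1 ≤ M := le_trans (le_trans (le_max_left _ _) (le_max_left _ _)) hM
  have hb : M3 ≤ M := le_trans (le_trans (le_max_right _ _) (le_max_left _ _)) hM
  have hc : 0 < M := le_trans (le_max_right _ _) hM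
  obtain ⟨hD0, h3, h4, h5⟩ := hM3 M hb (e, e')
  obtain ⟨-, -, -, hκ0, hKκ, -, -⟩ := pr_RK2 E w K e hE hw (by omega)
  obtain ⟨hPar, -⟩ := all_KPr E w K e e' hE hw hwK
  have h1 := pr_RSz w.factorial (DR E w K) K (kR E w K e) (kK E w K e') M
      1 (Nat.factorial_pos w) hK hc hκ0 hPar.k0 hKκ
  have h2 := hM1 M ha (DR E w K) 1 hD0
  have hK0 : (0 : ℝ) < K := by exact_mod_cast hK
  have hw0' : (0 : ℝ) < w := by exact_mod_cast hw0
  have her : 0 ≤ er g K := Real.sqrt_nonneg _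
  have hfin : 10 * |t| / K + 2 * (2 / (K : ℝ)) + 2 * (1 / (w : ℝ) + η / 4) +
      (C1 * er g K + η / 4) + (C2 * er g K + η / 4) ≤ (14 + C1 + C2) * eT g t w K + η := by
    unfold eT
    have k1 : 0 ≤ 1 / (w : ℝ) := by positivity
    have k2 : 0 ≤ 1 / (K : ℝ) := by positivity
    have k3 : 0 ≤ |t| / (K : ℝ) := by positivity
    have e1 : 10 * |t| / (K : ℝ) = 10 * (|t| / K) := by ring
    have e2 : (1 + |t|) / (K : ℝ) = 1 / K + |t| / K := by ring
    have e3 : 2 / (K : ℝ) = 2 * (1 / K) := by ring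
    rw [e1, e2, e3]
    nlinarith [mul_nonneg hC1.le k1, mul_nonneg hC1.le k2, mul_nonneg hC1.le k3,
      mul_nonneg hC1.le her, mul_nonneg hC2.le k1, mul_nonneg hC2.le k2, mul_nonneg hC2.le k3,
      mul_nonneg hC2.le her]
  constructor
  · unfold HZ
    rw [IDXm.BR_lin pr_DBx _ _ _ _ hD0 hc]
    linarith
  · unfold HY
    rw [IDXm.BR_lin pr_DBx _ _ _ _ hD0 hc]
    linarith

/-- the product of the correlations `x, z` of `f1` and `y, z` of `f2` -/
theorem prod_main (E : ℕ) (hE : 1 ≤ E) : ∃ C : ℝ, 0 < C ∧ ∀ (f1 g1 f2 g2 : ℕ → ℂ) (t1 t2 : ℝ) (q1 q2 : ℕ),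
    Dec f1 g1 t1 q1 → Dec f2 g2 t2 q2 → ∀ w K : ℕ, 2 ≤ w → w ≤ K → q1 ∣ w.factorial →
    q2 ∣ w.factorial → ∀ η : ℝ, 0 < η → ∃ M0 : ℕ, ∀ M ≥ M0,
    ∀ (e : Fin (w + 1) → Fin K) (e' : Fin (K + 1) → Fin K),
      ‖(BFK E w K M fun a n => f1 (tX (kR E w K e) (kK E w K e') a n) *
          f2 (tY (kR E w K e) (kK E w K e') a n) *
          conj (f1 (tZ (kR E w K e) (kK E w K e') a n) *
            f2 (tZ (kR E w K e) (kK E w K e') a n))) -
        f1 (kp w K e) ^ E * UP E f1 g1 g2 t1 w K e' M‖ ≤ C * (eT g1 t1 w K + eT g2 t2 w K) + η := by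
  obtain ⟨C, hC, herr⟩ := err E hE
  refine ⟨C, hC, ?_⟩
  intro f1 g1 f2 g2 t1 t2 q1 q2 hd1 hd2 w K hw hwK hq1 hq2 η hη
  obtain ⟨M1, hM1⟩ := herr g1 hd1.hg t1 w K hw hwK (η / 2) (by positivity)
  obtain ⟨M2, hM2⟩ := herr g2 hd2.hg t2 w K hw hwK (η / 2) (by positivity)
  refine ⟨max M1 M2, fun M hM e e' => ?_⟩
  have b1 := (hM1 M (le_trans (le_max_left _ _) hM) e e').1
  have b2 := (hM2 M (le_trans (le_max_right _ _) hM) e e').2
  obtain ⟨-, -, -, hκ0, -, -, hfκ⟩ := pr_RK2 E w K e hE hw (by omega)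
  obtain ⟨hPar, -, -, -, -, -, hcong, -⟩ := all_KPr E w K e e' hE hw hwK
  obtain ⟨-, -, -, -, -, hc1, -⟩ := pr_DTl g1 hd1.hg
  set κ := kR E w K e with hκ
  set k := kK E w K e' with hk
  have hrew : (BFK E w K M fun a n => f1 (tX κ k a n) * f2 (tY κ k a n) *
          conj (f1 (tZ κ k a n) * f2 (tZ κ k a n))) - f1 (kp w K e) ^ E * UP E f1 g1 g2 t1 w K e' M =
      Bx w.factorial (DR E w K) 1 M (fun a s => f1 (tX κ k a (w.factorial * s + 1)) *
          f2 (tY κ k a (w.factorial * s + 1)) * conj (f1 (tZ κ k a (w.factorial * s + 1)) *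
            f2 (tZ κ k a (w.factorial * s + 1)))) -
      (f1 (2 * κ) * (conj (cQ g1 K M) * cL g1 K M) * (g2 k * (cL g2 K M * conj (cQ g2 K M)))) *
      Bx w.factorial (DR E w K) 1 M (fun a s =>
        (f1 (w.factorial * s + 1) * conj (((k * a : ℕ) : ℂ) ^ (t1 * Complex.I)) *
          conj (gP g1 w K (w.factorial * s + 1))) *
          (g2 a * conj (gP g2 w K (w.factorial * s + 1)))) := by
    rw [hfκ f1 hd1.hf]
    unfold UP BFK BxR
    ring
  rw [hrew]
  have hfin := avg2 w.factorial (DR E w K) 1 M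
    (fun a s => f1 (tX κ k a (w.factorial * s + 1)) *
          f2 (tY κ k a (w.factorial * s + 1)) * conj (f1 (tZ κ k a (w.factorial * s + 1)) *
            f2 (tZ κ k a (w.factorial * s + 1))))
    (fun a s => (f1 (w.factorial * s + 1) * conj (((k * a : ℕ) : ℂ) ^ (t1 * Complex.I)) *
          conj (gP g1 w K (w.factorial * s + 1))) *
          (g2 a * conj (gP g2 w K (w.factorial * s + 1))))
    (f1 (2 * κ) * (conj (cQ g1 K M) * cL g1 K M) * (g2 k * (cL g2 K M * conj (cQ g2 K M))))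
    (fun a s => HZ g1 t1 w K κ k M a (w.factorial * s + 1))
    (fun a s => HY g2 t2 w K κ k M a (w.factorial * s + 1))
    _ _ (fun b s hb hs => ?_) b1 b2
  · refine hfin.trans (le_of_eq ?_)
    ring
  · have ha0 : 0 < w.factorial * b + 1 := Nat.succ_pos _
    have hn0 : 0 < w.factorial * s + 1 := Nat.succ_pos _
    have p1 := all_RPZ f1 g1 t1 q1 hd1 w K κ k hw hwK hq1 hPar M
      (w.factorial * b + 1) (w.factorial * s + 1) (hcong b) ha0 hn0
    have p2 := (all_RPY f2 g2 t2 q2 hd2 w K κ k hw hwK hq2 hPar M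
      (w.factorial * b + 1) (w.factorial * s + 1) (hcong b) ha0 hn0).1
    set a := w.factorial * b + 1 with ha
    set n := w.factorial * s + 1 with hn
    have p1' : ‖f1 (tX κ k a n) * conj (f1 (tZ κ k a n)) -
        f1 (2 * κ) * (conj (cQ g1 K M) * cL g1 K M) *
          (f1 n * conj (((k * a : ℕ) : ℂ) ^ (t1 * Complex.I)) * conj (gP g1 w K n))‖ ≤
        HZ g1 t1 w K κ k M a n := by
      rw [← Complex.norm_conj] at p1
      refine le_trans (le_of_eq ?_) p1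
      congr 1
      simp only [map_sub, map_mul, Complex.conj_conj]
      ring
    have hn1 : ‖f1 (2 * κ) * (conj (cQ g1 K M) * cL g1 K M) *
          (f1 n * conj (((k * a : ℕ) : ℂ) ^ (t1 * Complex.I)) * conj (gP g1 w K n))‖ ≤ 1 := by
      rw [norm_mul, norm_mul, norm_mul, norm_mul, norm_mul, Complex.norm_conj, Complex.norm_conj,
        Complex.norm_conj]
      exact mul_le_one₀ (mul_le_one₀ (cm_le hd1.hf _) (by positivity)
        (mul_le_one₀ (hc1 K M).2 (norm_nonneg _) (hc1 K M).1)) (by positivity)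
        (mul_le_one₀ (mul_le_one₀ (cm_le hd1.hf _) (norm_nonneg _) (pow_le _ t1)) (norm_nonneg _)
          (gP_le hd1.hg.cm _ _ _))
    have hn2 : ‖f2 (tY κ k a n) * conj (f2 (tZ κ k a n))‖ ≤ 1 := by
      rw [norm_mul, Complex.norm_conj]
      exact mul_le_one₀ (cm_le hd2.hf _) (norm_nonneg _) (cm_le hd2.hf _)
    have h3 := mul_sub_le p1' p2 hn1 hn2
    refine le_trans (le_of_eq ?_) h3
    congr 1
    simp only [map_mul]
    ring

end PosE

open Pool.Agent.F0f91f8.KR.IKTr Pool.Agent.F0f91f8.KR.IKFi Pool.Agent.F0f91f8.RC.IRFi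
  Pool.Agent.F0f91f8.HD.DFi in
/-- Pos3 for pretentious functions, all `E` -/
theorem posPretE {E : ℕ} (hE : 0 < E) {f1 f2 : ℕ → ℂ} (hf1 : CM f1) (hf2 : CM f2)
    (hp1 : Pret f1) (hp2 : Pret f2) {ε : ℝ} (hε : 0 < ε) :
    Nest fun w K M => -ε ≤ (AvK E w K M fun x y z => f1 x * f2 y * conj (f1 z * f2 z)).re := by
  by_cases hall : ∀ p : ℕ, p.Prime → f1 p ^ E = 1
  · -- `f1 ^ E = 1`
    have h1 := PosD.ypart hf2 hp2 hE (half_pos hε)
    have h1' : ∀ᶠ w in atTop, ∀ᶠ K in atTop, ∀ᶠ M in atTop,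
        (AvK E w K M fun x y z => ((‖1 - f1 x‖ + ‖1 - f1 y‖ + ‖1 - f1 z‖ : ℝ) : ℂ)).re ≤ ε / 2 :=
      all_TrivK E hE f1 hf1 hp1 (pow_all hf1 hall) (ε / 2) (half_pos hε)
    show ∀ᶠ w in atTop, ∀ᶠ K in atTop, ∀ᶠ M in atTop, _
    filter_upwards [h1, h1'] with w h2 h2'
    filter_upwards [h2, h2'] with K h3 h3'
    filter_upwards [h3, h3'] with M h4 h4'
    obtain ⟨hadd, hmul, -, hre, hmono, -⟩ := pr_KMo pr_DBx E w K M hE
    have h5 : (AvK E w K M fun _ y z => f2 y * conj (f2 z)) =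
        avg (fun (e : Fin (w + 1) → Fin K) e' => CYK f2 E w K e e' M) := rfl
    rw [← h5, hre] at h4
    rw [hre]
    have h6 := hmono
      (fun x y z => (f2 y * conj (f2 z)).re + (-1) * (‖1 - f1 x‖ + ‖1 - f1 y‖ + ‖1 - f1 z‖))
      (fun x y z => (f1 x * f2 y * conj (f1 z * f2 z)).re) (fun x y z _ _ _ _ => by
        have k1 : f2 y * conj (f2 z) - f1 x * f2 y * conj (f1 z * f2 z) =
            (1 - f1 x * conj (f1 z)) * (f2 y * conj (f2 z)) := by
          rw [map_mul]; ring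
        have k2 : 1 - f1 x * conj (f1 z) = (1 - f1 x) + f1 x * conj (1 - f1 z) := by
          rw [map_sub, map_one]; ring
        have k3 : ‖1 - f1 x * conj (f1 z)‖ ≤ ‖1 - f1 x‖ + ‖1 - f1 z‖ := by
          rw [k2]
          refine (norm_add_le _ _).trans ?_
          rw [norm_mul, Complex.norm_conj]
          have := mul_le_of_le_one_left (norm_nonneg (1 - f1 z)) (DFi.cm_le hf1 x)
          linarith
        have k4 : ‖f2 y * conj (f2 z)‖ ≤ 1 := by
          rw [norm_mul, Complex.norm_conj]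
          exact mul_le_one₀ (DFi.cm_le hf2 _) (norm_nonneg _) (DFi.cm_le hf2 _)
        have k5 : ‖f2 y * conj (f2 z) - f1 x * f2 y * conj (f1 z * f2 z)‖ ≤
            ‖1 - f1 x‖ + ‖1 - f1 z‖ := by
          rw [k1, norm_mul]
          exact (mul_le_of_le_one_right (norm_nonneg _) k4).trans k3
        have k6 := Complex.re_le_norm (f2 y * conj (f2 z) - f1 x * f2 y * conj (f1 z * f2 z))
        rw [Complex.sub_re] at k6
        have k7 := norm_nonneg (1 - f1 y)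
        linarith)
    have h7 : (AvK E w K M fun x y z =>
        (((f2 y * conj (f2 z)).re + (-1) * (‖1 - f1 x‖ + ‖1 - f1 y‖ + ‖1 - f1 z‖) : ℝ) : ℂ)) =
        (AvK E w K M fun _ y z => (((f2 y * conj (f2 z)).re : ℝ) : ℂ)) +
        (-1) * (AvK E w K M fun x y z =>
          ((‖1 - f1 x‖ + ‖1 - f1 y‖ + ‖1 - f1 z‖ : ℝ) : ℂ)) := by
      rw [← hmul, ← hadd]
      congr 1
      funext x y z
      push_cast
      ring
    rw [h7, Complex.add_re] at h6
    have h8 : ((-1) * (AvK E w K M fun x y z =>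
          ((‖1 - f1 x‖ + ‖1 - f1 y‖ + ‖1 - f1 z‖ : ℝ) : ℂ)) : ℂ).re =
        -(AvK E w K M fun x y z => ((‖1 - f1 x‖ + ‖1 - f1 y‖ + ‖1 - f1 z‖ : ℝ) : ℂ)).re := by
      rw [neg_one_mul, Complex.neg_re]
    rw [h8] at h6
    linarith
  · push Not at hall
    obtain ⟨p0, hp0, hfp0⟩ := hall
    obtain ⟨g1, t1, q1, hd1⟩ := pr_DDe f1 hf1 hp1
    obtain ⟨g2, t2, q2, hd2⟩ := pr_DDe f2 hf2 hp2
    obtain ⟨C, hC, hmain⟩ := PosE.prod_main E hE
    obtain ⟨-, -, -, hert1, -, -, -⟩ := pr_DTl g1 hd1.hg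
    obtain ⟨-, -, -, hert2, -, -, -⟩ := pr_DTl g2 hd2.hg
    set δ : ℝ := ε / 8 with hδ
    have hδ0 : 0 < δ := by positivity
    have hf1' : 0 < ‖1 - f1 p0 ^ E‖ := by
      rw [norm_pos_iff, sub_ne_zero]; exact fun h => hfp0 h.symm
    show ∀ᶠ w in atTop, ∀ᶠ K in atTop, ∀ᶠ M in atTop, _
    filter_upwards [ev_inv C _ hδ0, eventually_ge_atTop q1, eventually_ge_atTop q2,
      eventually_ge_atTop 2, eventually_ge_atTop p0] with w hw1 hqw1 hqw2 hw3 hpw
    have hqd1 : q1 ∣ w.factorial := Nat.dvd_factorial hd1.hq hqw1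
    have hqd2 : q2 ∣ w.factorial := Nat.dvd_factorial hd2.hq hqw2
    filter_upwards [ev_of hert1 C _ hδ0, ev_of hert2 C _ hδ0, ev_inv (C * (1 + |t1|)) _ hδ0,
      ev_inv (C * (1 + |t2|)) _ hδ0, eventually_ge_atTop w,
      ev_inv (2 / ‖1 - f1 p0 ^ E‖) _ hδ0] with K h1 h2 h3 h4 hwK h5
    have hK1 : 1 ≤ K := by omega
    have hK0 : (0 : ℝ) < K := by exact_mod_cast hK1
    obtain ⟨M0, hM0⟩ := hmain f1 g1 f2 g2 t1 t2 q1 q2 hd1 hd2 w K hw3 hwK hqd1 hqd2 δ hδ0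
    have hk : ‖(∑ e : Fin (w + 1) → Fin K, f1 (kp w K e) ^ E) / (K : ℂ) ^ (w + 1)‖ ≤ δ := by
      refine (pr_RKp pr_DKp f1 hf1 E w K p0 hE hK1 hp0 hfp0 hpw).trans ?_
      have : 2 / (K * ‖1 - f1 p0 ^ E‖) = (2 / ‖1 - f1 p0 ^ E‖) * ((K : ℝ))⁻¹ := by
        field_simp
      rw [this]; exact h5
    filter_upwards [eventually_ge_atTop M0] with M hM
    have e1 : (AvK E w K M fun x y z => f1 x * f2 y * conj (f1 z * f2 z)) =
        avg (fun (e : Fin (w + 1) → Fin K) (e' : Fin (K + 1) → Fin K) =>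
          BFK E w K M fun a n => f1 (tX (kR E w K e) (kK E w K e') a n) *
          f2 (tY (kR E w K e) (kK E w K e') a n) *
          conj (f1 (tZ (kR E w K e) (kK E w K e') a n) *
            f2 (tZ (kR E w K e) (kK E w K e') a n))) := rfl
    rw [e1]
    have c1 := eT_le g1 w K t1 C C δ le_rfl h1 h3 hw1
    have c2 := eT_le g2 w K t2 C C δ le_rfl h2 h4 hw1
    have h6 := avg_prod hK1 (fun (e : Fin (w + 1) → Fin K) (e' : Fin (K + 1) → Fin K) =>
          BFK E w K M fun a n => f1 (tX (kR E w K e) (kK E w K e') a n) *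
          f2 (tY (kR E w K e) (kK E w K e') a n) *
          conj (f1 (tZ (kR E w K e) (kK E w K e') a n) *
            f2 (tZ (kR E w K e) (kK E w K e') a n)))
      (fun e => f1 (kp w K e) ^ E) (fun e' => PosE.UP E f1 g1 g2 t1 w K e' M) (7 * δ) δ hδ0.le
      (fun e e' => (hM0 M hM e e').trans (by rw [mul_add]; linarith))
      (Or.inl ⟨hk, fun e' => PosE.UP_le E hf1 hd1.hg hd2.hg t1 w K e' M⟩)
    have h7 := re_of_norm h6
    have h8 : ε = 8 * δ := by rw [hδ]; ring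
    linarith

/-- Pos3 for all completely multiplicative functions and all `E`, from `Aper3` -/
theorem pos3E_of (hA : Aper3) {E : ℕ} (hE : 0 < E) {f1 f2 : ℕ → ℂ} (hf1 : CM f1) (hf2 : CM f2)
    {ε : ℝ} (hε : 0 < ε) :
    Nest fun w K M => -ε ≤ (AvK E w K M fun x y z => f1 x * f2 y * conj (f1 z * f2 z)).re := by
  by_cases h : Aper f1 ∨ Aper f2
  · have hf3 : CM (fun n => conj (f1 n * f2 n)) := by
      refine ⟨?_, fun m n => ?_, fun n hn => ?_⟩
      · show conj (f1 0 * f2 0) = 0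
        rw [hf1.1, zero_mul, map_zero]
      · show conj (f1 (m * n) * f2 (m * n)) = conj (f1 m * f2 m) * conj (f1 n * f2 n)
        rw [hf1.2.1, hf2.2.1, ← map_mul]
        congr 1
        ring
      · show ‖conj (f1 n * f2 n)‖ = 1
        rw [Complex.norm_conj, norm_mul, hf1.2.2 n hn, hf2.2.2 n hn, one_mul]
    show ∀ᶠ w in atTop, ∀ᶠ K in atTop, ∀ᶠ M in atTop, _
    filter_upwards [eventually_ge_atTop 2] with w hw
    filter_upwards [eventually_ge_atTop w] with K hwK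
    have h1 : Tendsto (fun M : ℕ => AvK E w K M fun x y z => f1 x * f2 y * conj (f1 z * f2 z))
        atTop (𝓝 0) := by
      have h2 : Tendsto (fun M : ℕ => ∑ e : Fin (w + 1) → Fin K, ∑ e' : Fin (K + 1) → Fin K,
          BxR w.factorial (DR E w K) 1 M fun a n =>
            f1 (tX (kR E w K e) (kK E w K e') a n) * f2 (tY (kR E w K e) (kK E w K e') a n) *
              conj (f1 (tZ (kR E w K e) (kK E w K e') a n) *
                f2 (tZ (kR E w K e) (kK E w K e') a n))) atTop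
          (𝓝 (∑ e : Fin (w + 1) → Fin K, ∑ e' : Fin (K + 1) → Fin K, 0)) := by
        refine tendsto_finsetSum _ fun e _ => tendsto_finsetSum _ fun e' _ => ?_
        obtain ⟨-, -, -, hκ0, -, hD0, -⟩ := pr_RK2 E w K e hE hw (by omega)
        obtain ⟨hPar, -⟩ := all_KPr E w K e e' hE hw hwK
        exact hA f1 f2 _ hf1 hf2 hf3 h (kR E w K e) (kK E w K e') w.factorial (DR E w K) 1 hκ0
          hPar.k0 (Nat.factorial_pos w) hD0
      simp only [Finset.sum_const_zero] at h2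
      have h3 := h2.div_const ((K : ℂ) ^ (w + 1) * (K : ℂ) ^ (K + 1))
      rw [zero_div] at h3
      exact h3
    have h4 : Tendsto (fun M : ℕ =>
        (AvK E w K M fun x y z => f1 x * f2 y * conj (f1 z * f2 z)).re) atTop (𝓝 0) := by
      have := (Complex.continuous_re.tendsto 0).comp h1
      rwa [Complex.zero_re] at this
    exact (h4.eventually (lt_mem_nhds (by linarith : -ε < 0))).mono fun M hM => hM.le
  · push Not at h
    exact posPretE hE hf1 hf2 (pretStmt f1 hf1 h.1) (pretStmt f2 hf2 h.2) hε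

/-- `Aper3`, no hypothesis -/
theorem all_Aper3 : Aper3 := pr_Aper3 (Pool.Agent.US.us_T 7 (by norm_num))

/-- Pos3 for all completely multiplicative functions and all `E`, no hypothesis -/
theorem all_Pos3E (E : ℕ) (hE : 0 < E) (f1 f2 : ℕ → ℂ) (hf1 : CM f1) (hf2 : CM f2)
    (ε : ℝ) (hε : 0 < ε) :
    Nest fun w K M => -ε ≤ (AvK E w K M fun x y z => f1 x * f2 y * conj (f1 z * f2 z)).re :=
  pos3E_of all_Aper3 hE hf1 hf2 hε

end Pool.Agent.F0f91f8.KT
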