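import Pool.Agent.Work.MP_0f91f8_co.KT.Wt
import Pool.Agent.Work.MP_0f91f8_co.K.GenW
import Pool.Agent.Work.MP_0f91f8_co.K.GenQ

/-!
# Torus form of the collision theorem: the inequality for kernels

`GenTL`: for completely multiplicative `χ j` (arbitrary, of modulus one) and kernels `ψ i` there is a
Pythagorean triple at which all `χ j` are almost `1` and `∑ (ψ x y + ψ x z + ψ y z) ≥ -ε`.
-/

set_option autoImplicit false

noncomputable section

namespace Pool.Agent.F0f91f8.KT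

open Filter Topology ComplexConjugate
open Pool.Agent.F0f91f8.HD Pool.Agent.F0f91f8.RC Pool.Agent.F0f91f8.KR
open scoped BigOperators

/-- The general inequality for kernels, at triples at which the `χ j` are almost one and whose members
are `E`-th powers times integers `≡ 1 mod q`. -/
def GenTL : Prop := ∀ (q E N : ℕ), 0 < q → 0 < E → ∀ χ : Fin N → ℕ → ℂ, (∀ j, CM (χ j)) → ∀ (r : ℕ)
  (ψ : Fin r → ℕ → ℕ → ℝ), (∀ i, IsPK (ψ i)) → ∀ ε : ℝ, 0 < ε →
  ∃ x y z : ℕ, 0 < x ∧ 0 < y ∧ 0 < z ∧ x ^ 2 + y ^ 2 = z ^ 2 ∧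
    KR.Loc q E x ∧ KR.Loc q E y ∧ KR.Loc q E z ∧
    (∀ j, ‖χ j x - 1‖ ≤ ε ∧ ‖χ j y - 1‖ ≤ ε ∧ ‖χ j z - 1‖ ≤ ε) ∧
    -ε ≤ ∑ i, (ψ i x y + ψ i x z + ψ i y z)

namespace XT

/-- the values of a kernel are at most one -/
theorem pk_le {ψ : ℕ → ℕ → ℝ} (h : IsPK ψ) {a b : ℕ} (ha : 0 < a) (hb : 0 < b) : ψ a b ≤ 1 := by
  have haa : ψ a a ≤ 1 := by
    have := h.hom a 1 1 ha one_pos one_pos
    rw [mul_one] at this
    rw [this]; exact h.le
  have hbb : ψ b b ≤ 1 := by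
    have := h.hom b 1 1 hb one_pos one_pos
    rw [mul_one] at this
    rw [this]; exact h.le
  by_cases hab : a = b
  · rw [hab]; exact hbb
  obtain ⟨s, hs, h1⟩ := h.psd {a, b} (by
    intro c hc
    rw [Finset.mem_insert, Finset.mem_singleton] at hc
    rcases hc with rfl | rfl
    · exact ha
    · exact hb) (fun c => if c = a then 1 else -1)
  have hba : b ≠ a := fun h => hab h.symm
  rw [Finset.sum_pair hab, Finset.sum_pair hab, Finset.sum_pair hab, if_pos rfl, if_neg hba,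
    h.symm b a] at h1
  simp only [map_one, map_neg, one_mul, mul_neg, neg_mul, neg_neg] at h1
  have h2 : ψ a a - 2 * ψ a b + ψ b b = s := by
    have : ((ψ a a - 2 * ψ a b + ψ b b : ℝ) : ℂ) = (s : ℂ) := by
      rw [← h1]
      push_cast
      ring
    exact_mod_cast this
  linarith

/-- simultaneous recurrence of powers of numbers of modulus one -/
theorem recur {d : ℕ} (u : Fin d → ℂ) (hu : ∀ j, ‖u j‖ = 1) {δ : ℝ} (hδ : 0 < δ) :
    ∃ m : ℕ, ∀ j, ‖u j ^ (m + 1) - 1‖ ≤ δ := by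
  have hb : Bornology.IsBounded (Metric.closedBall (0 : Fin d → ℂ) 1) := Metric.isBounded_closedBall
  obtain ⟨a, -, φ, hφ, hlim⟩ := tendsto_subseq_of_bounded hb (x := fun n => fun j => u j ^ n) (by
    intro n
    rw [mem_closedBall_zero_iff, pi_norm_le_iff_of_nonneg zero_le_one]
    intro j
    rw [norm_pow, hu j, one_pow])
  have hc := hlim.cauchySeq
  obtain ⟨N, hN⟩ := Metric.cauchySeq_iff'.1 hc δ hδ
  have h1 := hN (N + 1) (by omega)
  have hlt : φ N < φ (N + 1) := hφ (Nat.lt_succ_self N)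
  refine ⟨φ (N + 1) - φ N - 1, fun j => ?_⟩
  have h2 : φ (N + 1) - φ N - 1 + 1 = φ (N + 1) - φ N := by omega
  rw [h2]
  have h3 : dist (u j ^ φ (N + 1)) (u j ^ φ N) ≤ δ :=
    (dist_le_pi_dist (fun j => u j ^ φ (N + 1)) (fun j => u j ^ φ N) j).trans h1.le
  rw [dist_eq_norm] at h3
  have h4 : u j ^ φ (N + 1) - u j ^ φ N = u j ^ φ N * (u j ^ (φ (N + 1) - φ N) - 1) := by
    rw [mul_sub, ← pow_add, Nat.add_sub_cancel' hlt.le, mul_one]
  rw [h4, norm_mul, norm_pow, hu j, one_pow, one_mul] at h3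
  exact h3

theorem cm_npow {f : ℕ → ℂ} (hf : CM f) (z m : ℕ) : f (z ^ m) = f z ^ m := by
  induction m with
  | zero =>
    rw [pow_zero, pow_zero]
    have e1 := hf.2.1 1 1
    rw [mul_one] at e1
    have e2 : f 1 ≠ 0 := by
      intro e3
      have := hf.2.2 1 one_pos
      rw [e3, norm_zero] at this
      exact zero_ne_one this
    exact (mul_right_cancel₀ e2 (by rw [one_mul]; exact e1)).symm
  | succ k ih => rw [pow_succ, hf.2.1, ih, pow_succ]

/-- only the members with local information matter -/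
theorem av_loc {q E w K M : ℕ} (hq : 0 < q) (hE : 0 < E) (hqw : q ≤ w) (hK : 0 < K) (hM : 0 < M)
    {Φ Ψ : ℕ → ℕ → ℕ → ℂ}
    (h : ∀ x y z, Loc q E x → Loc q E y → Loc q E z → Φ x y z = Ψ x y z) :
    AvK E w K M Φ = AvK E w K M Ψ := by
  obtain ⟨ι, S, X, Y, Z, -, h1, h2⟩ := XQ.rep E w K M hE hK hM
  rw [h2 Φ, h2 Ψ]
  congr 1
  refine Finset.sum_congr rfl fun i hi => ?_
  obtain ⟨a, b, c⟩ := XQ.loc_mem hE hq hqw (h1 i hi).2.2.2
  exact h _ _ _ a b c

theorem nest_loc {q E : ℕ} (hq : 0 < q) (hE : 0 < E) {Φ Ψ : ℕ → ℕ → ℕ → ℂ} {c : ℝ}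
    (h : ∀ x y z, Loc q E x → Loc q E y → Loc q E z → Φ x y z = Ψ x y z)
    (hN : Nest fun w K M => c ≤ (AvK E w K M Φ).re) : Nest fun w K M => c ≤ (AvK E w K M Ψ).re := by
  have h1 : ∀ᶠ w in atTop, ∀ᶠ K in atTop, ∀ᶠ M in atTop, c ≤ (AvK E w K M Φ).re := hN
  show ∀ᶠ w in atTop, ∀ᶠ K in atTop, ∀ᶠ M in atTop, c ≤ (AvK E w K M Ψ).re
  filter_upwards [h1, eventually_ge_atTop q] with w h2 hw
  filter_upwards [h2, eventually_gt_atTop 0] with K h3 hK
  filter_upwards [h3, eventually_gt_atTop 0] with M h4 hM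
  rw [← av_loc hq hE hw hK hM h]
  exact h4

end XT

open XT in
open Classical in
theorem genTL (hG : GenW) (hP : ∀ E : ℕ, 0 < E → PosE E) : GenTL := by
  intro q E d hq hE f hf r ψ hψ ε hε
  have hW : WtT E := wtT (hP E hE)
  set δ0 : ℝ := min (ε / 2) 1 with hδ0
  have hδ0p : 0 < δ0 := by rw [hδ0]; positivity
  have hδ01 : δ0 ≤ 1 := min_le_right _ _
  have hδ02 : δ0 ≤ ε / 2 := min_le_left _ _
  obtain ⟨N, hN⟩ := exN d (3 * r + ε) (ε / 4) δ0 (by positivity) hδ0p hδ01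
  have hc0 := cN_pos d N
  set P : ℕ → ℕ → ℕ → ℝ := fun x y z =>
    if Loc q E x ∧ Loc q E y ∧ Loc q E z then wN f N x y z else 0 with hPd
  have hPloc : ∀ x y z, Loc q E x → Loc q E y → Loc q E z → P x y z = wN f N x y z := by
    intro x y z a b c
    rw [hPd]
    exact if_pos ⟨a, b, c⟩
  have hP0 : ∀ x y z, 0 ≤ P x y z := by
    intro x y z
    rw [hPd]
    beta_reduce
    split_ifs
    · exact wN_nonneg f N x y z
    · exact le_refl _
  have hP1 : ∀ x y z, P x y z ≤ 1 := by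
    intro x y z
    rw [hPd]
    beta_reduce
    split_ifs
    · exact wN_le_one hf N x y z
    · exact zero_le_one
  obtain ⟨x, y, z, hx, hy, hz, hxyz, hle⟩ := hG E P 1 (cN d N / 2) hP0 hP1
    (fun g hg η hη => nest_loc hq hE (Φ := fun x y z => ((wN f N x y z : ℝ) : ℂ) * pc g x y z)
      (fun x y z a b c => by rw [hPloc x y z a b c]) ((hW d f hf N η hη).1 g hg))
    (by
      have h1 := (hW d f hf N (cN d N / 2) (by positivity)).2
      have h2 : cN d N - cN d N / 2 = cN d N / 2 := by ring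
      rw [h2] at h1
      exact nest_loc hq hE (Φ := fun x y z => ((wN f N x y z : ℝ) : ℂ))
        (fun x y z a b c => by rw [hPloc x y z a b c]) h1)
    (by positivity) r ψ hψ ε hε
  set S : ℝ := ∑ i, (ψ i x y + ψ i x z + ψ i y z) with hS
  have hS3 : S ≤ 3 * r := by
    have h1 : S ≤ ∑ _i : Fin r, (3 : ℝ) := Finset.sum_le_sum fun i _ => by
      have := pk_le (hψ i) hx hy
      have := pk_le (hψ i) hx hz
      have := pk_le (hψ i) hy hz
      linarith
    rw [Finset.sum_const, Finset.card_univ, Fintype.card_fin, nsmul_eq_mul] at h1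
    linarith
  have hpos : 0 < cN d N / 2 * ε / 2 := by positivity
  have hloc : Loc q E x ∧ Loc q E y ∧ Loc q E z := by
    by_contra hcon
    have h0 : P x y z = 0 := by
      rw [hPd]
      exact if_neg hcon
    rw [h0, zero_mul] at hle
    linarith
  rw [hPloc x y z hloc.1 hloc.2.1 hloc.2.2] at hle
  have hw0 := wN_nonneg f N x y z
  have hSε : 0 < S + ε := by
    by_contra hcon
    push Not at hcon
    have := mul_nonpos_of_nonneg_of_nonpos hw0 hcon
    linarith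
  have hclose : ∀ j, ‖f j x - f j z‖ ≤ δ0 ∧ ‖f j y - f j z‖ ≤ δ0 := by
    by_contra hcon
    push Not at hcon
    obtain ⟨j, hj⟩ := hcon
    have h1 : δ0 < ‖f j x - f j z‖ ∨ δ0 < ‖f j y - f j z‖ := by
      by_cases h : δ0 < ‖f j x - f j z‖
      · exact Or.inl h
      · exact Or.inr (hj (not_lt.1 h))
    have h2 := wN_small hf N hx hy hz hδ0p.le ⟨j, h1⟩
    have h3 : wN f N x y z * (S + ε) ≤ (1 - δ0 ^ 2 / 4) ^ N * (3 * r + ε) :=
      mul_le_mul h2 (by linarith) hSε.le (hw0.trans h2)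
    have h4 : (3 * r + ε) * (1 - δ0 ^ 2 / 4) ^ N < ε / 4 * cN d N := hN
    nlinarith
  obtain ⟨m, hm⟩ := recur (fun j => f j z) (fun j => (hf j).2.2 z hz) hδ0p
  have hpow : ∀ j, f j (z ^ m) = f j z ^ m := fun j => cm_npow (hf j) z m
  have ht : 0 < z ^ m := pow_pos hz m
  have hzl : Loc q E (z ^ m) := XQ.loc_pow hloc.2.2 m
  have hval : ∀ (j : Fin d) (v : ℕ), 0 < v → ‖f j v - f j z‖ ≤ δ0 → ‖f j (z ^ m * v) - 1‖ ≤ ε := by
    intro j v hv h1
    have h2 : f j (z ^ m * v) - 1 = f j z ^ m * (f j v - f j z) + (f j z ^ (m + 1) - 1) := by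
      rw [(hf j).2.1, hpow j, pow_succ]
      ring
    rw [h2]
    refine (norm_add_le _ _).trans ?_
    rw [norm_mul, norm_pow, (hf j).2.2 z hz, one_pow, one_mul]
    have := hm j
    linarith
  refine ⟨z ^ m * x, z ^ m * y, z ^ m * z, Nat.mul_pos ht hx, Nat.mul_pos ht hy,
    Nat.mul_pos ht hz, ?_, XQ.loc_mul hzl hloc.1, XQ.loc_mul hzl hloc.2.1,
    XQ.loc_mul hzl hloc.2.2, fun j => ⟨hval j x hx (hclose j).1, hval j y hy (hclose j).2,
      hval j z hz (by rw [sub_self, norm_zero]; exact hδ0p.le)⟩, ?_⟩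
  · rw [mul_pow, mul_pow, mul_pow, ← Nat.mul_add, hxyz]
  · have h5 : ∑ i, (ψ i (z ^ m * x) (z ^ m * y) + ψ i (z ^ m * x) (z ^ m * z) +
        ψ i (z ^ m * y) (z ^ m * z)) = S := by
      refine Finset.sum_congr rfl fun i _ => ?_
      rw [(hψ i).hom _ x y ht hx hy, (hψ i).hom _ x z ht hx hz, (hψ i).hom _ y z ht hy hz]
    rw [h5]
    linarith

/-- with the weighted inequality of `K/GenW.lean` -/
theorem genTL_of (hP : ∀ E : ℕ, 0 < E → PosE E) : GenTL := genTL KR.genW_all hP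

end Pool.Agent.F0f91f8.KT
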