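import Pool.Agent.Work.MP_0f91f8_co.KT.FinP
import Pool.Agent.Work.MP_0f91f8_co.KT.GenT
import Pool.Agent.Work.MP_0f91f8_co.KT.PosE

/-!
# Torus form of the collision theorem: composition
-/

set_option autoImplicit false

namespace Pool.Agent.F0f91f8.KT

open Pool.Agent.F0f91f8.HD Pool.Agent.F0f91f8.RC Pool.Agent.F0f91f8.KR

/-- the real parts of the correlations are asymptotically nonnegative -/
theorem all_PosE (E : ℕ) (hE : 0 < E) : PosE E := fun f1 f2 hf1 hf2 ε hε =>
  all_Pos3E E hE f1 f2 hf1 hf2 ε hε

/-- the inequality for kernels -/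
theorem all_GenTL : GenTL := genTL_of all_PosE

/-- the torus form of the collision theorem -/
theorem all_KTQ : KTQ := ktq (tCntN (tPairs all_GenTL))

end Pool.Agent.F0f91f8.KT
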