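import Pool.Agent.Work.MP_0f91f8_co.KT.GenT
import Pool.Agent.Work.MP_0f91f8_co.KT.PosE

/-!
# Torus form of the collision theorem: `GenTL` without hypotheses
-/

set_option autoImplicit false

namespace Pool.Agent.F0f91f8.KT

theorem all_PosE (E : ℕ) (hE : 0 < E) : PosE E :=
  fun f1 f2 h1 h2 ε hε => all_Pos3E E hE f1 f2 h1 h2 ε hε

theorem all_GenTL : GenTL := genTL_of all_PosE

end Pool.Agent.F0f91f8.KT
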