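import Pool.Agent.Work.MP_0f91f8_co.K.StmtsW
import Pool.Agent.Work.MP_0f91f8_co.K.StmtsD
import Pool.Agent.Work.MP_0f91f8_co.RC.StmtsE

/-!
# Torus form of the collision theorem (block KT, MP_0f91f8_co): interface statements

`K` with arbitrary completely multiplicative functions `χ j : ℕ → ℂ` (`j < N`) of modulus one in place
of a homomorphism into a finite group, and a continuous weight `V n = W (χ · n)` in place of a cell.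
The family is `AvK 1 w K M` of `K/Defs.lean`.

* D‴ `Pos3`           (helper83): from `Aper3`, `PretStmt` and the landed items of `RC`, `K`;
* W‴ `PWT`, `PT1`     (`KT/StmtsW.lean`, helper75): from `Pos3`;
* E‴ `GenT1`, `TCnt`  (helper79, helper43): from `PWT`, `PT1`.
-/

set_option autoImplicit false

noncomputable section

namespace Pool.Agent.F0f91f8.KT

open Filter Topology ComplexConjugate
open Pool.Agent.F0f91f8.HD Pool.Agent.F0f91f8.RC Pool.Agent.F0f91f8.KR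
open scoped BigOperators

/-- MODULE D‴. The real parts of the correlations `f1(x) f2(y) f3(z)` with `f1 f2 f3 = 1` are
asymptotically nonnegative (their nested limits are `1` if `f1 = 1` and `f2` is locally trivial up to
finitely many primes, and `0` otherwise). Cases: `f1` or `f2` aperiodic (`StVan`); both
pretentious, `f1 p₀ ≠ 1` (average over `e`); both pretentious, `f1 = 1` (the correlation `y, z`). -/
def Pos3 : Prop := ∀ f1 f2 : ℕ → ℂ, CM f1 → CM f2 → ∀ ε : ℝ, 0 < ε →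
  Nest fun w K M => -ε ≤ (AvK 1 w K M (t3 f1 f2 fun n => conj (f1 n * f2 n))).re

/-- the kernel `|1 + u|^(2L) / C(2L, L)`: nonnegative, with nonnegative coefficients, of mean `1` -/
def kL (L : ℕ) (u : ℂ) : ℝ := ‖1 + u‖ ^ (2 * L) / (Nat.centralBinom L : ℝ)

/-- one half of the weight -/
def PH (L : ℕ) {N : ℕ} (χ : Fin N → ℕ → ℂ) (x z : ℕ) : ℝ := ∏ j, kL L (χ j x * conj (χ j z))

/-- the weight: it is concentrated on the triples with `χ j x`, `χ j y`, `χ j z` almost equal -/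
def PL (L : ℕ) {N : ℕ} (χ : Fin N → ℕ → ℂ) (x y z : ℕ) : ℝ := PH L χ x z * PH L χ y z

/-- MODULE W‴, the lower bound -/
def PWT : Prop := ∀ (L N : ℕ) (χ : Fin N → ℕ → ℂ), (∀ j, CM (χ j)) → ∀ f : ℕ → ℂ, CM f →
  ∀ ε : ℝ, 0 < ε →
  Nest fun w K M => -ε ≤ (AvK 1 w K M fun x y z => ((PL L χ x y z : ℝ) : ℂ) * pc f x y z).re

/-- MODULE W‴, the mass of the weight -/
def PT1 : Prop := ∀ (L N : ℕ) (χ : Fin N → ℕ → ℂ), (∀ j, CM (χ j)) → ∀ ε : ℝ, 0 < ε →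
  Nest fun w K M => 1 - ε ≤ (AvK 1 w K M fun x y z => ((PL L χ x y z : ℝ) : ℂ)).re

/-- MODULE E‴, first part: kernels, at triples with all `χ j` close to `1` -/
def GenT1 : Prop := ∀ (N : ℕ) (χ : Fin N → ℕ → ℂ), (∀ j, CM (χ j)) → ∀ (r : ℕ)
  (ψ : Fin r → ℕ → ℕ → ℝ), (∀ i, IsPK (ψ i)) → ∀ ε : ℝ, 0 < ε →
  ∃ x y z : ℕ, 0 < x ∧ 0 < y ∧ 0 < z ∧ x ^ 2 + y ^ 2 = z ^ 2 ∧
    (∀ j, ‖χ j x - 1‖ ≤ ε ∧ ‖χ j y - 1‖ ≤ ε ∧ ‖χ j z - 1‖ ≤ ε) ∧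
    -ε ≤ ∑ i, (ψ i x y + ψ i x z + ψ i y z)

open Classical in
/-- MODULE E‴, the final form. `V n = W (χ · n)`. -/
def TCnt : Prop := ∀ (N : ℕ) (W : (Fin N → ℂ) → ℝ), Continuous W → (∀ u, 0 ≤ W u ∧ W u ≤ 1) →
  ∀ ε : ℝ, 0 < ε → ∃ (k : ℕ) (δ : ℝ), 0 < δ ∧
    ∀ χ : Fin N → ℕ → ℂ, (∀ j, CM (χ j)) → ∀ V : ℕ → ℝ, (∀ n, V n = W fun j => χ j n) →
    ∀ F : Finset ℕ, F.Nonempty → (∀ n ∈ F, 0 < n) →
    (∀ p ≤ k, p.Prime → (1 - δ) * (F.card : ℝ) ≤ ((F.filter fun n => p * n ∈ F).card : ℝ)) →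
    ∀ (r : ℕ) (A : Fin r → Finset ℕ), (∀ i, A i ⊆ F) → (∀ i j, i ≠ j → Disjoint (A i) (A j)) →
    ∃ x y z : ℕ, 0 < x ∧ x ≤ k ∧ 0 < y ∧ y ≤ k ∧ 0 < z ∧ z ≤ k ∧ x ^ 2 + y ^ 2 = z ^ 2 ∧
      (∀ j, ‖χ j x - 1‖ ≤ ε ∧ ‖χ j y - 1‖ ≤ ε ∧ ‖χ j z - 1‖ ≤ ε) ∧
      3 / 2 * (∑ i, (∑ n ∈ A i, V n) ^ 2 -
        min ((∑ n ∈ F, V n) ^ 2 / 3) ((∑ n ∈ F, V n) * (∑ i, ∑ n ∈ A i, V n) / 2) -
          ε * (F.card : ℝ) ^ 2) ≤
        (∑ n ∈ F, V n) *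
          ∑ n ∈ F.filter (fun n => ∃ i, x * n ∈ A i ∧ y * n ∈ A i ∧ z * n ∈ A i), V n

end Pool.Agent.F0f91f8.KT
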