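import Pool.Agent.Work.MP_0f91f8_co.KT.FinT

/-!
# Torus form of the collision theorem: the final form for positive integers
-/

set_option autoImplicit false

open Filter Topology MeasureTheory

noncomputable section

namespace Pool.Agent.F0f91f8.KT

open Pool.Agent.F0f91f8.HD Pool.Agent.F0f91f8.RC Pool.Agent.F0f91f8.KR
open Pool.Agent.Work.MP_0f91f8_co.EF

/-- The final form. -/
def KTQ : Prop :=
  ∀ (q E N : ℕ), 0 < q → 0 < E → ∀ (L ε : ℝ), 0 < ε → ∃ (k : ℕ) (δ : ℝ), 0 < δ ∧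
    ∀ (θ : ℕ+ →* (Fin N → Circle)) (v : ℕ+ → ℝ), (∀ n, 0 ≤ v n ∧ v n ≤ 1) →
    (∀ c m n : ℕ+, (m : ℕ) ≡ 1 [MOD q] →
      |v (c ^ E * m * n) - v n| ≤ L * dist (θ (c ^ E * m)) 1) →
    ∀ F : Finset ℕ+, F.Nonempty →
    (∀ p : ℕ+, (p : ℕ) ≤ k → (p : ℕ).Prime →
      (1 - δ) * (F.card : ℝ) ≤ ((F.filter fun n => p * n ∈ F).card : ℝ)) →
    ∀ (r : ℕ) (A : Fin r → Finset ℕ+), (∀ i, A i ⊆ F) → (∀ i j, i ≠ j → Disjoint (A i) (A j)) →
    ∃ x y z : ℕ+, (x : ℕ) ≤ k ∧ (y : ℕ) ≤ k ∧ (z : ℕ) ≤ k ∧ x ^ 2 + y ^ 2 = z ^ 2 ∧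
      (∀ t : ℕ+, t = x ∨ t = y ∨ t = z → dist (θ t) 1 ≤ ε ∧
        ∃ c m : ℕ+, t = c ^ E * m ∧ (m : ℕ) ≡ 1 [MOD q]) ∧
      3 * ∑ i, (∑ n ∈ A i, v n) ^ 2 - (∑ n ∈ F, v n) ^ 2 - ε * (F.card : ℝ) ^ 2 ≤
        (∑ n ∈ F, v n) *
          (2 * ∑ n ∈ F.filter (fun n => ∃ i, x * n ∈ A i ∧ y * n ∈ A i ∧ z * n ∈ A i), v n -
            ∑ n ∈ F.filter (fun n => ∀ i, ¬ (x * n ∈ A i ∧ y * n ∈ A i) ∧
              ¬ (x * n ∈ A i ∧ z * n ∈ A i) ∧ ¬ (y * n ∈ A i ∧ z * n ∈ A i)), v n) ∧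
      3 / 2 * (∑ i, (∑ n ∈ A i, v n) ^ 2 - (∑ n ∈ F, v n) * (∑ i, ∑ n ∈ A i, v n) / 2 -
          ε * (F.card : ℝ) ^ 2) ≤
        (∑ n ∈ F, v n) *
          ∑ n ∈ F.filter (fun n => ∃ i, x * n ∈ A i ∧ y * n ∈ A i ∧ z * n ∈ A i), v n

namespace XFinP

theorem dist_circle (a b : Circle) : dist a b = ‖(a : ℂ) - (b : ℂ)‖ := by
  rw [← dist_eq_norm]
  rfl

/-- the completely multiplicative functions of a homomorphism -/
def ch {N : ℕ} (θ : ℕ+ →* (Fin N → Circle)) (j : Fin N) (n : ℕ) : ℂ :=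
  if n = 0 then 0 else ((θ n.toPNat' j : Circle) : ℂ)

theorem ch_pos {N : ℕ} (θ : ℕ+ →* (Fin N → Circle)) (j : Fin N) {n : ℕ} (hn : 0 < n) :
    ch θ j n = ((θ n.toPNat' j : Circle) : ℂ) := by
  unfold ch
  rw [if_neg hn.ne']

theorem ch_cm {N : ℕ} (θ : ℕ+ →* (Fin N → Circle)) (j : Fin N) : CM (ch θ j) := by
  refine ⟨?_, ?_, ?_⟩
  · unfold ch
    rw [if_pos rfl]
  · intro m n
    rcases Nat.eq_zero_or_pos m with rfl | hm
    · unfold ch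
      rw [zero_mul, if_pos rfl, zero_mul]
    rcases Nat.eq_zero_or_pos n with rfl | hn
    · unfold ch
      rw [mul_zero, if_pos rfl, mul_zero]
    rw [ch_pos θ j hm, ch_pos θ j hn, ch_pos θ j (Nat.mul_pos hm hn), ICel.toPNat_mul hm hn, map_mul,
      Pi.mul_apply, Circle.coe_mul]
  · intro n hn
    rw [ch_pos θ j hn, Circle.norm_coe]

theorem ch_dist {N : ℕ} (θ : ℕ+ →* (Fin N → Circle)) (n : ℕ+) (η : ℝ) (hη : 0 ≤ η) :
    (∀ j, ‖ch θ j n - 1‖ ≤ η) ↔ dist (θ n) 1 ≤ η := by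
  rw [dist_pi_le_iff hη]
  refine forall_congr' fun j => ?_
  rw [ch_pos θ j n.pos, PNat.coe_toPNat', dist_circle, Pi.one_apply, Circle.coe_one]

/-- sums over the image of a finite set -/
theorem sum_cc (S : Finset ℕ+) (g : ℕ → ℝ) (P : ℕ → Prop) (Q : ℕ+ → Prop) [DecidablePred Q]
    (hPQ : ∀ n : ℕ+, P n ↔ Q n) :
    ∑ s ∈ S.map IFinP.cc, g s * XFinG.ind (P s) = ∑ n ∈ S.filter Q, g n := by
  rw [Finset.sum_map, Finset.sum_filter]
  refine Finset.sum_congr rfl fun n _ => ?_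
  show g (n : ℕ) * XFinG.ind (P (n : ℕ)) = _
  by_cases h : Q n
  · rw [if_pos h, XFinG.ind_pos ((hPQ n).2 h), mul_one]
  · rw [if_neg h, XFinG.ind_neg fun h' => h ((hPQ n).1 h'), mul_zero]

theorem fin4 {M a b c D2 S2 ε : ℝ} (hM : 0 < M) (h : 3 * D2 - a ^ 2 - ε ≤ a * (2 * b - c))
    (hS : S2 = D2 * M ^ 2) :
    3 * S2 - (a * M) ^ 2 - ε * M ^ 2 ≤ (a * M) * (2 * (b * M) - c * M) := by
  have h1 := mul_le_mul_of_nonneg_right h (sq_nonneg M)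
  rw [hS]
  nlinarith

theorem fin5 {M a b D2 S2 D S ε : ℝ} (hM : 0 < M)
    (h : 3 / 2 * (D2 - a * D / 2 - ε) ≤ a * b) (hS2 : S2 = D2 * M ^ 2) (hS : S = D * M) :
    3 / 2 * (S2 - (a * M) * S / 2 - ε * M ^ 2) ≤ (a * M) * (b * M) := by
  have h1 := mul_le_mul_of_nonneg_right h (sq_nonneg M)
  rw [hS2, hS]
  nlinarith

end XFinP

open XFinP KerF IFinP in
/-- **The final form.** -/
theorem ktq (h : TCntN) : KTQ := by
  classical
  intro q E N hq hE L ε hε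
  obtain ⟨k, δ, hδ, H⟩ := h q E N hq hE |L| ε hε
  refine ⟨k, δ, hδ, fun θ v hv hL F hF hfol r A hA hd => ?_⟩
  have hsum : ∀ S : Finset ℕ+, ∑ n ∈ S.map cc, v n.toPNat' = ∑ n ∈ S, v n := by
    intro S
    rw [Finset.sum_map]
    refine Finset.sum_congr rfl fun n _ => ?_
    show v (n : ℕ).toPNat' = v n
    rw [PNat.coe_toPNat']
  let d : Dat r :=
    { F := F.map cc
      v := fun n => v n.toPNat'
      A := fun i => (A i).map cc
      ne := Finset.map_nonempty.2 hF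
      pos := fun n hn => by
        obtain ⟨m, _, rfl⟩ := Finset.mem_map.1 hn
        exact m.pos
      v0 := fun n => (hv _).1
      v1 := fun n => (hv _).2
      sub := fun i => Finset.map_subset_map.2 (hA i)
      dis := fun i j hij => (Finset.disjoint_map cc).2 (hd i j hij) }
  have hLip : Lip q E |L| (ch θ) d.v := by
    intro x n hn hx η hη hc
    obtain ⟨c, m, hc0, hm0, rfl, hmq⟩ := hx
    have e1 : ((c ^ E * m) * n).toPNat' = c.toPNat' ^ E * m.toPNat' * n.toPNat' := by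
      rw [ICel.toPNat_mul (Nat.mul_pos (Nat.pow_pos hc0) hm0) hn,
        ICel.toPNat_mul (Nat.pow_pos hc0) hm0, ICel.toPNat_pow hc0]
    have e2 : (((c.toPNat' ^ E * m.toPNat' : ℕ+)) : ℕ) = c ^ E * m := by
      rw [PNat.mul_coe, PNat.pow_coe, Nat.toPNat'_coe, Nat.toPNat'_coe, if_pos hc0, if_pos hm0]
    have h1 := hL c.toPNat' m.toPNat' n.toPNat' (by rwa [Nat.toPNat'_coe, if_pos hm0])
    have h2 : dist (θ (c.toPNat' ^ E * m.toPNat')) 1 ≤ η := by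
      rw [← ch_dist θ _ η hη, e2]
      exact hc
    show |v ((c ^ E * m) * n).toPNat' - v n.toPNat'| ≤ |L| * η
    rw [e1]
    refine h1.trans ((mul_le_mul_of_nonneg_right (le_abs_self L) dist_nonneg).trans ?_)
    exact mul_le_mul_of_nonneg_left h2 (abs_nonneg L)
  have hfol' : ∀ p ≤ k, p.Prime → (1 - δ) * (d.F.card : ℝ) ≤
      ((d.F.filter fun n => p * n ∈ d.F).card : ℝ) := by
    intro p hp hpp
    have h1 := hfol ⟨p, hpp.pos⟩ hp hpp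
    have h2 := card_filt F ⟨p, hpp.pos⟩
    rw [← h2] at h1
    show (1 - δ) * ((F.map cc).card : ℝ) ≤ (((F.map cc).filter fun n => p * n ∈ F.map cc).card : ℝ)
    rw [Finset.card_map]
    exact h1
  obtain ⟨x, y, z, c1, c2, c3, c4, c5, c6, c7, l1, l2, l3, hc, hle1, hle2⟩ :=
    H (ch θ) (ch_cm θ) r d hLip hfol'
  lift x to ℕ+ using c1
  lift y to ℕ+ using c3
  lift z to ℕ+ using c5
  have hloc : ∀ t : ℕ+, Loc q E (t : ℕ) → ∃ c m : ℕ+, t = c ^ E * m ∧ (m : ℕ) ≡ 1 [MOD q] := by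
    rintro t ⟨c, m, hc0, hm0, h1, h2⟩
    refine ⟨⟨c, hc0⟩, ⟨m, hm0⟩, PNat.eq ?_, h2⟩
    rw [PNat.mul_coe, PNat.pow_coe]
    exact h1
  refine ⟨x, y, z, c2, c4, c6, PNat.eq (by push_cast; exact c7), ?_, ?_, ?_⟩
  · rintro t (rfl | rfl | rfl)
    · exact ⟨(ch_dist θ t ε hε.le).1 fun j => (hc j).1, hloc t l1⟩
    · exact ⟨(ch_dist θ t ε hε.le).1 fun j => (hc j).2.1, hloc t l2⟩
    · exact ⟨(ch_dist θ t ε hε.le).1 fun j => (hc j).2.2, hloc t l3⟩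
  all_goals
    have hM := M_pos (d := d)
    have hMc : d.M = (F.card : ℝ) := by
      show ((F.map cc).card : ℝ) = _
      rw [Finset.card_map]
    have eF : ∑ n ∈ F, v n = d.be * d.M := by
      have : d.be = (∑ n ∈ F.map cc, v n.toPNat') / d.M := rfl
      rw [this, hsum]
      field_simp
    have eA : ∀ i, ∑ n ∈ A i, v n = d.D i * d.M := by
      intro i
      have : d.D i = (∑ n ∈ (A i).map cc, v n.toPNat') / d.M := rfl
      rw [this, hsum]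
      field_simp
    have em : ∑ n ∈ F.filter (fun n => ∃ i, x * n ∈ A i ∧ y * n ∈ A i ∧ z * n ∈ A i), v n =
        d.m x y z * d.M := by
      have h1 : d.m x y z = (∑ s ∈ F.map cc, v s.toPNat' * XFinG.ind
        (∃ i, (x : ℕ) * s ∈ (A i).map cc ∧ (y : ℕ) * s ∈ (A i).map cc ∧
          (z : ℕ) * s ∈ (A i).map cc)) / d.M := rfl
      have h2 := sum_cc F (fun s => v s.toPNat') (fun s => ∃ i, (x : ℕ) * s ∈ (A i).map cc ∧
        (y : ℕ) * s ∈ (A i).map cc ∧ (z : ℕ) * s ∈ (A i).map cc)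
        (fun n => ∃ i, x * n ∈ A i ∧ y * n ∈ A i ∧ z * n ∈ A i) (fun n => by
          simp only [← PNat.mul_coe, mem_cc])
      rw [h1, h2, div_mul_cancel₀ _ hM.ne']
      exact Finset.sum_congr rfl fun n _ => by rw [PNat.coe_toPNat']
    have eS2 : ∑ i, (∑ n ∈ A i, v n) ^ 2 = (∑ i, d.D i ^ 2) * d.M ^ 2 := by
      rw [Finset.sum_mul]
      exact Finset.sum_congr rfl fun i _ => by rw [eA i, mul_pow]
  · have ez : ∑ n ∈ F.filter (fun n => ∀ i, ¬ (x * n ∈ A i ∧ y * n ∈ A i) ∧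
        ¬ (x * n ∈ A i ∧ z * n ∈ A i) ∧ ¬ (y * n ∈ A i ∧ z * n ∈ A i)), v n =
        d.z x y z * d.M := by
      have h1 : d.z x y z = (∑ s ∈ F.map cc, v s.toPNat' * XFinG.ind
        (¬ d.two ((x : ℕ) * s) ((y : ℕ) * s) ((z : ℕ) * s))) / d.M := rfl
      have h2 := sum_cc F (fun s => v s.toPNat') (fun s => ¬ d.two ((x : ℕ) * s) ((y : ℕ) * s)
        ((z : ℕ) * s))
        (fun n => ∀ i, ¬ (x * n ∈ A i ∧ y * n ∈ A i) ∧
        ¬ (x * n ∈ A i ∧ z * n ∈ A i) ∧ ¬ (y * n ∈ A i ∧ z * n ∈ A i)) (fun n => by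
          unfold Dat.two
          show (¬ ∃ i, ((x : ℕ) * (n : ℕ) ∈ (A i).map cc ∧ (y : ℕ) * (n : ℕ) ∈ (A i).map cc) ∨
            ((x : ℕ) * (n : ℕ) ∈ (A i).map cc ∧ (z : ℕ) * (n : ℕ) ∈ (A i).map cc) ∨
            ((y : ℕ) * (n : ℕ) ∈ (A i).map cc ∧ (z : ℕ) * (n : ℕ) ∈ (A i).map cc)) ↔ _
          simp only [← PNat.mul_coe, mem_cc]
          push Not
          refine forall_congr' fun i => ?_
          tauto)
      rw [h1, h2, div_mul_cancel₀ _ hM.ne']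
      exact Finset.sum_congr rfl fun n _ => by rw [PNat.coe_toPNat']
    rw [ez, em, eF, ← hMc]
    exact fin4 hM hle1 eS2
  · have eS : ∑ i, ∑ n ∈ A i, v n = (∑ i, d.D i) * d.M := by
      rw [Finset.sum_mul]
      exact Finset.sum_congr rfl fun i _ => eA i
    rw [em, eF, ← hMc]
    exact fin5 hM hle2 eS2 eS

end Pool.Agent.F0f91f8.KT
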