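import Mathlib

/-!
# Torus form of the collision theorem: the kernel of a finite family of classes

`F` a finite set of positive integers, `v : ℕ → [0,1]` a weight, `A i` disjoint subsets of `F`,
`β = v(F)/|F|`, `D i = v(A i)/|F|`. The kernel
`K a b = |F|⁻¹ ∑ i, ∑ s ∈ F, g i (a s) g i (b s)`, `g i n = √(v n) (β 1_{A i}(n) - D i) 1_F(n)`.
-/

set_option autoImplicit false

open Classical

noncomputable section

namespace Pool.Agent.F0f91f8.KT

namespace KerF

/-- the indicator -/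
def cI (A : Finset ℕ) (n : ℕ) : ℝ := if n ∈ A then 1 else 0

theorem cI_nonneg (A : Finset ℕ) (n : ℕ) : 0 ≤ cI A n := by
  unfold cI; split_ifs <;> norm_num

theorem cI_le (A : Finset ℕ) (n : ℕ) : cI A n ≤ 1 := by
  unfold cI; split_ifs <;> norm_num

theorem cI_sq (A : Finset ℕ) (n : ℕ) : cI A n * cI A n = cI A n := by
  unfold cI; split_ifs <;> norm_num

/-- sums over dilates -/
theorem dil_le (F : Finset ℕ) (h : ℕ → ℝ) (h0 : ∀ n, 0 ≤ h n) (hs : ∀ n, n ∉ F → h n = 0) (a : ℕ)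
    (ha : 0 < a) : ∑ s ∈ F, h (a * s) ≤ ∑ n ∈ F, h n := by
  have inj : Set.InjOn (fun s : ℕ => a * s) (F : Set ℕ) := fun x _ y _ hxy =>
    Nat.eq_of_mul_eq_mul_left ha hxy
  rw [← Finset.sum_image (s := F) (g := fun s : ℕ => a * s) (f := h) inj]
  have h1 : ∑ n ∈ F.image (fun s : ℕ => a * s), h n =
      ∑ n ∈ (F.image (fun s : ℕ => a * s)).filter (fun n => n ∈ F), h n := by
    refine (Finset.sum_filter_of_ne fun n _ hn => ?_).symm
    by_contra hnF
    exact hn (hs n hnF)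
  rw [h1]
  refine Finset.sum_le_sum_of_subset_of_nonneg (fun n hn => (Finset.mem_filter.1 hn).2)
    fun n _ _ => h0 n

/-- the defect -/
def ef (F : Finset ℕ) (k : ℕ) : ℝ := (F.card : ℝ) - ((F.filter fun s => k * s ∈ F).card : ℝ)

theorem ef_nonneg (F : Finset ℕ) (k : ℕ) : 0 ≤ ef F k := by
  unfold ef
  rw [sub_nonneg]
  exact_mod_cast Finset.card_filter_le _ _

theorem ef_eq (F : Finset ℕ) (k : ℕ) : ∑ s ∈ F, (1 - cI F (k * s)) = ef F k := by
  unfold ef
  rw [Finset.sum_sub_distrib, Finset.sum_const, nsmul_eq_mul, mul_one, Finset.card_filter]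
  push_cast
  rfl

/-- comparison of a sum with the sum over dilates -/
theorem dil_diff (F : Finset ℕ) (G : ℕ → ℝ) (C : ℝ) (hG : ∀ n, |G n| ≤ C) (k : ℕ) (hk : 0 < k) :
    |∑ s ∈ F, G (k * s) - ∑ s ∈ F, G s| ≤ 2 * C * ef F k := by
  have hC : 0 ≤ C := (abs_nonneg _).trans (hG 0)
  obtain ⟨F', hF'⟩ : ∃ F', F' = F.filter fun s => k * s ∈ F := ⟨_, rfl⟩
  have hsub : F' ⊆ F := by rw [hF']; exact Finset.filter_subset _ _
  have inj : Set.InjOn (fun s : ℕ => k * s) (F' : Set ℕ) := fun x _ y _ hxy =>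
    Nat.eq_of_mul_eq_mul_left hk hxy
  have himg : F'.image (fun s : ℕ => k * s) ⊆ F := by
    intro n hn
    obtain ⟨s, hs, rfl⟩ := Finset.mem_image.1 hn
    rw [hF', Finset.mem_filter] at hs
    exact hs.2
  have hci : (F'.image (fun s : ℕ => k * s)).card = F'.card := Finset.card_image_of_injOn inj
  have h1 : ∑ s ∈ F, G (k * s) = ∑ s ∈ F \ F', G (k * s) + ∑ s ∈ F', G (k * s) :=
    (Finset.sum_sdiff hsub).symm
  have h2 : ∑ s ∈ F, G s = ∑ s ∈ F \ F'.image (fun s : ℕ => k * s), G s +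
      ∑ s ∈ F'.image (fun s : ℕ => k * s), G s := (Finset.sum_sdiff himg).symm
  rw [Finset.sum_image inj] at h2
  have h3 : |∑ s ∈ F \ F', G (k * s)| ≤ C * ef F k := by
    refine (Finset.abs_sum_le_sum_abs _ _).trans ((Finset.sum_le_sum fun s _ => hG _).trans ?_)
    rw [Finset.sum_const, nsmul_eq_mul, Finset.card_sdiff_of_subset hsub, mul_comm]
    refine mul_le_mul_of_nonneg_left ?_ hC
    unfold ef
    rw [← hF', Nat.cast_sub (Finset.card_le_card hsub)]
  have h4 : |∑ s ∈ F \ F'.image (fun s : ℕ => k * s), G s| ≤ C * ef F k := by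
    refine (Finset.abs_sum_le_sum_abs _ _).trans ((Finset.sum_le_sum fun s _ => hG _).trans ?_)
    rw [Finset.sum_const, nsmul_eq_mul, Finset.card_sdiff_of_subset himg, hci, mul_comm]
    refine mul_le_mul_of_nonneg_left ?_ hC
    unfold ef
    rw [← hF', Nat.cast_sub (Finset.card_le_card hsub)]
  rw [h1, h2]
  have h5 : (∑ s ∈ F \ F', G (k * s) + ∑ s ∈ F', G (k * s)) -
      (∑ s ∈ F \ F'.image (fun s : ℕ => k * s), G s + ∑ s ∈ F', G (k * s)) =
      ∑ s ∈ F \ F', G (k * s) - ∑ s ∈ F \ F'.image (fun s : ℕ => k * s), G s := by ring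
  rw [h5]
  refine (abs_sub _ _).trans ?_
  linarith

/-- lower bound for the sum over dilates -/
theorem dil_ge (F : Finset ℕ) (H : ℕ → ℝ) (h0 : ∀ n, 0 ≤ H n) (h1 : ∀ n, H n ≤ 1) (k : ℕ)
    (hk : 0 < k) : ∑ n ∈ F, H n - ef F k ≤ ∑ s ∈ F, H (k * s) := by
  obtain ⟨F', hF'⟩ : ∃ F', F' = F.filter fun s => k * s ∈ F := ⟨_, rfl⟩
  have hsub : F' ⊆ F := by rw [hF']; exact Finset.filter_subset _ _
  have inj : Set.InjOn (fun s : ℕ => k * s) (F' : Set ℕ) := fun x _ y _ hxy =>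
    Nat.eq_of_mul_eq_mul_left hk hxy
  have himg : F'.image (fun s : ℕ => k * s) ⊆ F := by
    intro n hn
    obtain ⟨s, hs, rfl⟩ := Finset.mem_image.1 hn
    rw [hF', Finset.mem_filter] at hs
    exact hs.2
  have hci : (F'.image (fun s : ℕ => k * s)).card = F'.card := Finset.card_image_of_injOn inj
  have h2 : ∑ s ∈ F', H (k * s) ≤ ∑ s ∈ F, H (k * s) :=
    Finset.sum_le_sum_of_subset_of_nonneg hsub fun s _ _ => h0 _
  have h3 : ∑ s ∈ F, H s = ∑ s ∈ F \ F'.image (fun s : ℕ => k * s), H s +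
      ∑ s ∈ F'.image (fun s : ℕ => k * s), H s := (Finset.sum_sdiff himg).symm
  rw [Finset.sum_image inj] at h3
  have h4 : ∑ s ∈ F \ F'.image (fun s : ℕ => k * s), H s ≤ ef F k := by
    refine (Finset.sum_le_sum fun s _ => h1 _).trans ?_
    rw [Finset.sum_const, nsmul_eq_mul, Finset.card_sdiff_of_subset himg, hci, mul_one]
    unfold ef
    rw [← hF', Nat.cast_sub (Finset.card_le_card hsub)]
  linarith

/-- the data -/
structure Dat (r : ℕ) where
  F : Finset ℕ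
  v : ℕ → ℝ
  A : Fin r → Finset ℕ
  ne : F.Nonempty
  pos : ∀ n ∈ F, 0 < n
  v0 : ∀ n, 0 ≤ v n
  v1 : ∀ n, v n ≤ 1
  sub : ∀ i, A i ⊆ F
  dis : ∀ i j, i ≠ j → Disjoint (A i) (A j)

variable {r : ℕ} (d : Dat r)

/-- the size of `F` -/
def Dat.M : ℝ := (d.F.card : ℝ)

/-- `v(F)/|F|` -/
def Dat.be : ℝ := (∑ n ∈ d.F, d.v n) / d.M

/-- `v(A i)/|F|` -/
def Dat.D (i : Fin r) : ℝ := (∑ n ∈ d.A i, d.v n) / d.M

/-- the values of the classes -/
def Dat.u (i : Fin r) (n : ℕ) : ℝ := d.be * cI (d.A i) n - d.D i * cI d.F n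

/-- the functions of the kernel -/
def Dat.g (i : Fin r) (n : ℕ) : ℝ := Real.sqrt (d.v n) * d.u i n

/-- the kernel -/
def Dat.K (a b : ℕ) : ℝ := (∑ s ∈ d.F, ∑ i, d.g i (a * s) * d.g i (b * s)) / d.M

/-- the proportion of monochromatic pairs, weighted -/
def Dat.Q (a b : ℕ) : ℝ := (∑ s ∈ d.F, d.v s * ∑ i, cI (d.A i) (a * s) * cI (d.A i) (b * s)) / d.M

/-- the proportional defect -/
def Dat.e (k : ℕ) : ℝ := ef d.F k / d.M

variable {d}

theorem M_pos : 0 < d.M := by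
  unfold Dat.M
  exact_mod_cast d.ne.card_pos

theorem uniq {n : ℕ} {i j : Fin r} (hi : n ∈ d.A i) (hj : n ∈ d.A j) : i = j := by
  by_contra h
  exact Finset.disjoint_left.1 (d.dis i j h) hi hj

/-- a sum over classes of a function times the indicators is at most its bound -/
theorem sum_cI_le (f : Fin r → ℝ) (C : ℝ) (hC : 0 ≤ C) (hf : ∀ i, f i ≤ C) (n : ℕ) :
    ∑ i, f i * cI (d.A i) n ≤ C := by
  by_cases h : ∃ i, n ∈ d.A i
  · obtain ⟨i, hi⟩ := h
    rw [Finset.sum_eq_single i]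
    · unfold cI
      rw [if_pos hi, mul_one]
      exact hf i
    · intro j _ hj
      unfold cI
      rw [if_neg fun h' => hj (uniq h' hi), mul_zero]
    · intro h'
      exact absurd (Finset.mem_univ i) h'
  · push Not at h
    rw [Finset.sum_eq_zero fun i _ => by unfold cI; rw [if_neg (h i), mul_zero]]
    exact hC

theorem sum_A (f : ℕ → ℝ) (i : Fin r) : ∑ n ∈ d.F, f n * cI (d.A i) n = ∑ n ∈ d.A i, f n := by
  unfold cI
  simp only [mul_ite, mul_one, mul_zero]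
  rw [← Finset.sum_filter]
  refine Finset.sum_congr ?_ fun _ _ => rfl
  ext n
  rw [Finset.mem_filter]
  exact ⟨fun h => h.2, fun h => ⟨d.sub i h, h⟩⟩

theorem D_nonneg (i : Fin r) : 0 ≤ d.D i :=
  div_nonneg (Finset.sum_nonneg fun n _ => d.v0 n) M_pos.le

theorem be_nonneg : 0 ≤ d.be :=
  div_nonneg (Finset.sum_nonneg fun n _ => d.v0 n) M_pos.le

theorem be_le : d.be ≤ 1 := by
  unfold Dat.be
  rw [div_le_one M_pos]
  refine (Finset.sum_le_sum fun n _ => d.v1 n).trans ?_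
  rw [Finset.sum_const, nsmul_eq_mul, mul_one]
  rfl

theorem sum_D_le : ∑ i, d.D i ≤ d.be := by
  unfold Dat.D Dat.be
  rw [← Finset.sum_div, div_le_div_iff_of_pos_right M_pos]
  have h1 : ∑ i, ∑ n ∈ d.A i, d.v n = ∑ n ∈ d.F, ∑ i, d.v n * cI (d.A i) n := by
    rw [Finset.sum_comm]
    exact Finset.sum_congr rfl fun i _ => (sum_A d.v i).symm
  rw [h1]
  exact Finset.sum_le_sum fun n _ => sum_cI_le (fun _ => d.v n) (d.v n) (d.v0 n) (fun _ => le_rfl) n

theorem D_le (i : Fin r) : d.D i ≤ d.be :=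
  (Finset.single_le_sum (fun j _ => D_nonneg j) (Finset.mem_univ i)).trans sum_D_le

theorem sum_D2_le : ∑ i, d.D i ^ 2 ≤ d.be ^ 2 := by
  have h1 : ∑ i, d.D i ^ 2 ≤ ∑ i, d.be * d.D i := Finset.sum_le_sum fun i _ => by
    rw [sq]
    exact mul_le_mul_of_nonneg_right (D_le i) (D_nonneg i)
  rw [← Finset.mul_sum] at h1
  refine h1.trans ?_
  rw [sq]
  exact mul_le_mul_of_nonneg_left sum_D_le be_nonneg

theorem sum_D2_nonneg : 0 ≤ ∑ i, d.D i ^ 2 := Finset.sum_nonneg fun i _ => sq_nonneg _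

theorem sum_D2_le_one : ∑ i, d.D i ^ 2 ≤ 1 := by
  have h1 := sum_D2_le (d := d)
  have h2 := be_le (d := d)
  have h3 := be_nonneg (d := d)
  nlinarith

theorem u_zero {n : ℕ} (hn : n ∉ d.F) (i : Fin r) : d.u i n = 0 := by
  unfold Dat.u cI
  rw [if_neg hn, if_neg fun h => hn (d.sub i h)]
  ring

theorem u_sq_le (i : Fin r) (n : ℕ) : d.u i n ^ 2 ≤ d.be ^ 2 * cI (d.A i) n + d.D i ^ 2 := by
  have h1 := be_nonneg (d := d)
  have h2 := D_nonneg (d := d) i
  have h3 := mul_nonneg h1 h2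
  unfold Dat.u cI
  split_ifs with h4 h5 h5
  · nlinarith
  · exact absurd (d.sub i h4) h5
  · nlinarith
  · nlinarith [sq_nonneg (d.D i)]

theorem sum_u_sq_le (n : ℕ) : ∑ i, d.u i n ^ 2 ≤ 2 := by
  have h1 : ∑ i, d.u i n ^ 2 ≤ ∑ i, (d.be ^ 2 * cI (d.A i) n + d.D i ^ 2) :=
    Finset.sum_le_sum fun i _ => u_sq_le i n
  rw [Finset.sum_add_distrib] at h1
  have h2 : ∑ i, d.be ^ 2 * cI (d.A i) n ≤ d.be ^ 2 :=
    sum_cI_le (fun _ => d.be ^ 2) _ (sq_nonneg _) (fun _ => le_rfl) n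
  have h3 := sum_D2_le_one (d := d)
  have h4 : d.be ^ 2 ≤ 1 := by
    have := be_le (d := d)
    have := be_nonneg (d := d)
    nlinarith
  linarith

theorem g_sq (i : Fin r) (n : ℕ) : d.g i n ^ 2 = d.v n * d.u i n ^ 2 := by
  unfold Dat.g
  rw [mul_pow, Real.sq_sqrt (d.v0 n)]

theorem g_zero {n : ℕ} (hn : n ∉ d.F) (i : Fin r) : d.g i n = 0 := by
  unfold Dat.g
  rw [u_zero hn, mul_zero]

theorem sum_g_sq_le (n : ℕ) : ∑ i, d.g i n ^ 2 ≤ 2 := by
  refine (Finset.sum_le_sum fun i _ => ?_).trans (sum_u_sq_le (d := d) n)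
  rw [g_sq]
  have := d.v1 n
  have := d.v0 n
  nlinarith [sq_nonneg (d.u i n)]

theorem abs_sum_mul_le (f h : Fin r → ℝ) (C : ℝ) (hf : ∑ i, f i ^ 2 ≤ C) (hh : ∑ i, h i ^ 2 ≤ C) :
    ∑ i, |f i * h i| ≤ C := by
  have h1 : ∑ i, |f i * h i| ≤ ∑ i, (f i ^ 2 + h i ^ 2) / 2 := Finset.sum_le_sum fun i _ => by
    rw [abs_mul]
    have := two_mul_le_add_sq |f i| |h i|
    rw [sq_abs, sq_abs] at this
    linarith
  rw [← Finset.sum_div, Finset.sum_add_distrib] at h1
  linarith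

theorem sum_g_total : ∑ n ∈ d.F, ∑ i, d.g i n ^ 2 ≤ d.M := by
  have hM := M_pos (d := d)
  have h1 : ∀ i, ∑ n ∈ d.F, d.g i n ^ 2 = d.M * (d.be ^ 2 * d.D i - d.be * d.D i ^ 2) := by
    intro i
    have e1 : ∀ n ∈ d.F, d.g i n ^ 2 = (d.be ^ 2 - 2 * d.be * d.D i) * (d.v n * cI (d.A i) n) +
        d.D i ^ 2 * d.v n := by
      intro n hn
      rw [g_sq]
      unfold Dat.u
      have e2 : cI d.F n = 1 := by unfold cI; rw [if_pos hn]
      rw [e2]
      have e3 := cI_sq (d.A i) n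
      have e4 : (d.be * cI (d.A i) n - d.D i * 1) ^ 2 =
          d.be ^ 2 * (cI (d.A i) n * cI (d.A i) n) - 2 * d.be * d.D i * cI (d.A i) n + d.D i ^ 2 := by
        ring
      rw [e4, e3]
      ring
    rw [Finset.sum_congr rfl e1, Finset.sum_add_distrib, ← Finset.mul_sum, ← Finset.mul_sum, sum_A]
    have e5 : ∑ n ∈ d.A i, d.v n = d.M * d.D i := by
      unfold Dat.D
      field_simp
    have e6 : ∑ n ∈ d.F, d.v n = d.M * d.be := by
      unfold Dat.be
      field_simp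
    rw [e5, e6]
    ring
  rw [Finset.sum_comm, Finset.sum_congr rfl fun i _ => h1 i, ← Finset.mul_sum,
    Finset.sum_sub_distrib, ← Finset.mul_sum, ← Finset.mul_sum]
  have h2 := sum_D_le (d := d)
  have h3 := be_le (d := d)
  have h4 := be_nonneg (d := d)
  have h5 := sum_D2_nonneg (d := d)
  have h6 : d.be ^ 2 * ∑ i, d.D i ≤ 1 := by
    have h7 : d.be ^ 2 * ∑ i, d.D i ≤ d.be ^ 2 * d.be := mul_le_mul_of_nonneg_left h2 (sq_nonneg _)
    have h8 : d.be ^ 2 * d.be ≤ 1 := by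
      have : d.be ^ 2 ≤ 1 := by nlinarith
      nlinarith
    linarith
  have h9 : 0 ≤ d.be * ∑ i, d.D i ^ 2 := mul_nonneg h4 h5
  nlinarith

theorem K_symm (a b : ℕ) : d.K a b = d.K b a := by
  unfold Dat.K
  congr 1
  exact Finset.sum_congr rfl fun s _ => Finset.sum_congr rfl fun i _ => mul_comm _ _

theorem K_abs_le (a b : ℕ) : |d.K a b| ≤ 1 := by
  have hM := M_pos (d := d)
  have h0 : (0 : ℕ) ∉ d.F := fun h => lt_irrefl 0 (d.pos 0 h)
  have key : ∀ a : ℕ, ∑ s ∈ d.F, ∑ i, d.g i (a * s) ^ 2 ≤ d.M := by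
    intro a
    rcases Nat.eq_zero_or_pos a with rfl | ha
    · refine le_trans (le_of_eq ?_) hM.le
      refine Finset.sum_eq_zero fun s _ => Finset.sum_eq_zero fun i _ => ?_
      rw [zero_mul, g_zero h0]
      ring
    · refine le_trans (dil_le d.F (fun n => ∑ i, d.g i n ^ 2)
        (fun n => Finset.sum_nonneg fun i _ => sq_nonneg _) (fun n hn => ?_) a ha) sum_g_total
      refine Finset.sum_eq_zero fun i _ => ?_
      rw [g_zero hn]
      ring
  unfold Dat.K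
  rw [abs_div, abs_of_pos hM, div_le_one hM]
  refine (Finset.abs_sum_le_sum_abs _ _).trans ?_
  have h1 : ∀ s ∈ d.F, |∑ i, d.g i (a * s) * d.g i (b * s)| ≤
      (∑ i, d.g i (a * s) ^ 2 + ∑ i, d.g i (b * s) ^ 2) / 2 := by
    intro s _
    refine (Finset.abs_sum_le_sum_abs _ _).trans ?_
    rw [← Finset.sum_add_distrib, Finset.sum_div]
    refine Finset.sum_le_sum fun i _ => ?_
    rw [abs_mul]
    have := two_mul_le_add_sq |d.g i (a * s)| |d.g i (b * s)|
    rw [sq_abs, sq_abs] at this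
    linarith
  refine (Finset.sum_le_sum h1).trans ?_
  rw [← Finset.sum_div, Finset.sum_add_distrib]
  have := key a
  have := key b
  linarith

theorem K_hom (k a b : ℕ) (hk : 0 < k) :
    |d.K (k * a) (k * b) - d.K a b| ≤ 4 * d.e k := by
  have hM := M_pos (d := d)
  have h1 := dil_diff d.F (fun t => ∑ i, d.g i (a * t) * d.g i (b * t)) 2
    (fun t => (Finset.abs_sum_le_sum_abs _ _).trans
      (abs_sum_mul_le _ _ 2 (sum_g_sq_le (a * t)) (sum_g_sq_le (b * t)))) k hk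
  unfold Dat.K Dat.e
  rw [← sub_div, abs_div, abs_of_pos hM, ← mul_div_assoc, div_le_div_iff_of_pos_right hM]
  have h2 : ∀ s i, d.g i (k * a * s) * d.g i (k * b * s) =
      d.g i (a * (k * s)) * d.g i (b * (k * s)) := by
    intro s i
    rw [show k * a * s = a * (k * s) by ring, show k * b * s = b * (k * s) by ring]
  simp only [h2]
  refine h1.trans (le_of_eq (by ring))

theorem K_psd (S : Finset ℕ) (c : ℕ → ℂ) : ∃ s : ℝ, 0 ≤ s ∧
    ∑ a ∈ S, ∑ b ∈ S, c a * (starRingEnd ℂ) (c b) * ((d.K a b : ℝ) : ℂ) = (s : ℂ) := by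
  have hM := M_pos (d := d)
  refine ⟨(∑ s ∈ d.F, ∑ i, Complex.normSq (∑ a ∈ S, c a * ((d.g i (a * s) : ℝ) : ℂ))) / d.M,
    div_nonneg (Finset.sum_nonneg fun s _ => Finset.sum_nonneg fun i _ => Complex.normSq_nonneg _)
      hM.le, ?_⟩
  have h1 : ∀ s i, ((Complex.normSq (∑ a ∈ S, c a * ((d.g i (a * s) : ℝ) : ℂ)) : ℝ) : ℂ) =
      ∑ a ∈ S, ∑ b ∈ S, c a * (starRingEnd ℂ) (c b) *
        (((d.g i (a * s) * d.g i (b * s) : ℝ)) : ℂ) := by
    intro s i
    rw [← Complex.mul_conj, map_sum, Finset.sum_mul_sum]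
    refine Finset.sum_congr rfl fun a _ => Finset.sum_congr rfl fun b _ => ?_
    rw [map_mul, Complex.conj_ofReal]
    push_cast
    ring
  unfold Dat.K
  push_cast
  simp only [h1]
  rw [Finset.sum_div]
  have h2 : ∀ a b : ℕ, c a * (starRingEnd ℂ) (c b) *
      ((∑ s ∈ d.F, ∑ i, ((d.g i (a * s) : ℝ) : ℂ) * ((d.g i (b * s) : ℝ) : ℂ)) / (d.M : ℂ)) =
      ∑ s ∈ d.F, (∑ i, c a * (starRingEnd ℂ) (c b) *
        (((d.g i (a * s) * d.g i (b * s) : ℝ)) : ℂ)) / (d.M : ℂ) := by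
    intro a b
    rw [Finset.sum_div, Finset.mul_sum]
    refine Finset.sum_congr rfl fun s _ => ?_
    rw [← mul_div_assoc, Finset.mul_sum]
    push_cast
    rfl
  simp only [h2]
  have h3 : ∀ a ∈ S, ∑ b ∈ S, ∑ s ∈ d.F, (∑ i, c a * (starRingEnd ℂ) (c b) *
      (((d.g i (a * s) * d.g i (b * s) : ℝ)) : ℂ)) / (d.M : ℂ) =
      ∑ s ∈ d.F, ∑ b ∈ S, (∑ i, c a * (starRingEnd ℂ) (c b) *
      (((d.g i (a * s) * d.g i (b * s) : ℝ)) : ℂ)) / (d.M : ℂ) := fun a _ => Finset.sum_comm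
  rw [Finset.sum_congr rfl h3, Finset.sum_comm]
  refine Finset.sum_congr rfl fun s _ => ?_
  rw [Finset.sum_div]
  have h4 : ∀ i : Fin r, (∑ a ∈ S, ∑ b ∈ S, c a * (starRingEnd ℂ) (c b) *
      (((d.g i (a * s) * d.g i (b * s) : ℝ)) : ℂ)) / (d.M : ℂ) =
      ∑ a ∈ S, ∑ b ∈ S, (c a * (starRingEnd ℂ) (c b) *
      (((d.g i (a * s) * d.g i (b * s) : ℝ)) : ℂ)) / (d.M : ℂ) := by
    intro i
    rw [Finset.sum_div]
    exact Finset.sum_congr rfl fun a _ => Finset.sum_div _ _ _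
  simp only [h4, Finset.sum_div]
  rw [Finset.sum_comm' (s := Finset.univ) (t := fun _ => S) (s' := fun _ => Finset.univ) (t' := S)
    (by simp)]
  refine Finset.sum_congr rfl fun a _ => ?_
  rw [Finset.sum_comm]

theorem sqrt_mul_le {p q m τ : ℝ} (hp0 : 0 ≤ p) (hm0 : 0 ≤ m) (hτ : 0 ≤ τ)
    (hp : |p - m| ≤ τ) (hq : |q - m| ≤ τ) : |Real.sqrt p * Real.sqrt q - m| ≤ τ := by
  rw [abs_le] at hp hq
  rw [← Real.sqrt_mul hp0, abs_le]
  constructor
  · by_cases h : m ≤ τ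
    · have := Real.sqrt_nonneg (p * q)
      linarith
    · push Not at h
      have h1 : m - τ ≤ Real.sqrt (p * q) := by
        apply Real.le_sqrt_of_sq_le
        nlinarith
      linarith
  · have h1 : Real.sqrt (p * q) ≤ m + τ := by
      rw [Real.sqrt_le_left (by linarith)]
      nlinarith
    linarith

/-- the value of the kernel at almost invariant pairs -/
theorem K_le (a b : ℕ) (ha : 0 < a) (hb : 0 < b) (τ : ℝ) (hτ : 0 ≤ τ)
    (hva : ∀ s ∈ d.F, |d.v (a * s) - d.v s| ≤ τ) (hvb : ∀ s ∈ d.F, |d.v (b * s) - d.v s| ≤ τ) :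
    d.K a b ≤ d.be ^ 2 * d.Q a b - d.be * ∑ i, d.D i ^ 2 + 4 * τ + 2 * (d.e a + d.e b) := by
  have hM := M_pos (d := d)
  have hbe0 := be_nonneg (d := d)
  have hbe1 := be_le (d := d)
  have hD0 := fun i => D_nonneg (d := d) i
  -- step A
  have hA : ∑ s ∈ d.F, ∑ i, d.g i (a * s) * d.g i (b * s) ≤
      ∑ s ∈ d.F, d.v s * ∑ i, d.u i (a * s) * d.u i (b * s) + 2 * τ * d.M := by
    have h1 : ∀ s ∈ d.F, ∑ i, d.g i (a * s) * d.g i (b * s) ≤
        d.v s * ∑ i, d.u i (a * s) * d.u i (b * s) + 2 * τ := by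
      intro s hs
      have h2 : ∑ i, d.g i (a * s) * d.g i (b * s) =
          (Real.sqrt (d.v (a * s)) * Real.sqrt (d.v (b * s))) *
            ∑ i, d.u i (a * s) * d.u i (b * s) := by
        rw [Finset.mul_sum]
        refine Finset.sum_congr rfl fun i _ => ?_
        unfold Dat.g
        ring
      have h3 : |∑ i, d.u i (a * s) * d.u i (b * s)| ≤ 2 :=
        (Finset.abs_sum_le_sum_abs _ _).trans
          (abs_sum_mul_le _ _ 2 (sum_u_sq_le (a * s)) (sum_u_sq_le (b * s)))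
      have h4 := sqrt_mul_le (d.v0 (a * s)) (d.v0 s) hτ (hva s hs) (hvb s hs)
      rw [h2]
      have h5 : (Real.sqrt (d.v (a * s)) * Real.sqrt (d.v (b * s)) - d.v s) *
          (∑ i, d.u i (a * s) * d.u i (b * s)) ≤ τ * 2 := by
        refine (le_abs_self _).trans ?_
        rw [abs_mul]
        exact mul_le_mul h4 h3 (abs_nonneg _) hτ
      linarith
    refine (Finset.sum_le_sum h1).trans (le_of_eq ?_)
    rw [Finset.sum_add_distrib, Finset.sum_const, nsmul_eq_mul]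
    unfold Dat.M
    ring
  -- step B: expansion
  have hB : ∀ s ∈ d.F, d.v s * ∑ i, d.u i (a * s) * d.u i (b * s) ≤
      d.be ^ 2 * (d.v s * ∑ i, cI (d.A i) (a * s) * cI (d.A i) (b * s)) -
      d.be * ((∑ i, d.D i * (d.v (a * s) * cI (d.A i) (a * s))) - τ - (1 - cI d.F (b * s))) -
      d.be * ((∑ i, d.D i * (d.v (b * s) * cI (d.A i) (b * s))) - τ - (1 - cI d.F (a * s))) +
      (∑ i, d.D i ^ 2) * d.v s := by
    intro s hs
    have e1 : d.v s * ∑ i, d.u i (a * s) * d.u i (b * s) =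
        d.be ^ 2 * (d.v s * ∑ i, cI (d.A i) (a * s) * cI (d.A i) (b * s)) -
        d.be * (d.v s * cI d.F (b * s) * ∑ i, d.D i * cI (d.A i) (a * s)) -
        d.be * (d.v s * cI d.F (a * s) * ∑ i, d.D i * cI (d.A i) (b * s)) +
        (∑ i, d.D i ^ 2) * (d.v s * (cI d.F (a * s) * cI d.F (b * s))) := by
      simp only [Finset.mul_sum, Finset.sum_mul]
      rw [← Finset.sum_sub_distrib, ← Finset.sum_sub_distrib, ← Finset.sum_add_distrib]
      refine Finset.sum_congr rfl fun i _ => ?_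
      unfold Dat.u
      ring
    have low : ∀ x y : ℕ, |d.v (x * s) - d.v s| ≤ τ →
        (∑ i, d.D i * (d.v (x * s) * cI (d.A i) (x * s))) - τ - (1 - cI d.F (y * s)) ≤
        d.v s * cI d.F (y * s) * ∑ i, d.D i * cI (d.A i) (x * s) := by
      intro x y hx
      have s0 : 0 ≤ ∑ i, d.D i * cI (d.A i) (x * s) :=
        Finset.sum_nonneg fun i _ => mul_nonneg (hD0 i) (cI_nonneg _ _)
      have s1 : ∑ i, d.D i * cI (d.A i) (x * s) ≤ 1 :=
        sum_cI_le d.D 1 zero_le_one (fun i => (D_le i).trans hbe1) _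
      have e2 : ∑ i, d.D i * (d.v (x * s) * cI (d.A i) (x * s)) =
          d.v (x * s) * ∑ i, d.D i * cI (d.A i) (x * s) := by
        rw [Finset.mul_sum]
        exact Finset.sum_congr rfl fun i _ => by ring
      rw [e2]
      rw [abs_le] at hx
      have v0 := d.v0 s
      have v1 := d.v1 s
      have c0 := cI_nonneg d.F (y * s)
      have c1 := cI_le d.F (y * s)
      have h6 : d.v (x * s) * ∑ i, d.D i * cI (d.A i) (x * s) ≤
          (d.v s + τ) * ∑ i, d.D i * cI (d.A i) (x * s) :=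
        mul_le_mul_of_nonneg_right (by linarith) s0
      have h7 : τ * ∑ i, d.D i * cI (d.A i) (x * s) ≤ τ := by nlinarith
      have h8 : d.v s * (∑ i, d.D i * cI (d.A i) (x * s)) * (1 - cI d.F (y * s)) ≤
          1 - cI d.F (y * s) := by
        have h9 : d.v s * (∑ i, d.D i * cI (d.A i) (x * s)) ≤ 1 := by nlinarith
        nlinarith
      nlinarith
    have l1 := mul_le_mul_of_nonneg_left (low a b (hva s hs)) hbe0
    have l2 := mul_le_mul_of_nonneg_left (low b a (hvb s hs)) hbe0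
    have l3 : (∑ i, d.D i ^ 2) * (d.v s * (cI d.F (a * s) * cI d.F (b * s))) ≤
        (∑ i, d.D i ^ 2) * d.v s := by
      refine mul_le_mul_of_nonneg_left ?_ sum_D2_nonneg
      have c0 := cI_nonneg d.F (a * s)
      have c1 := cI_le d.F (a * s)
      have c2 := cI_nonneg d.F (b * s)
      have c3 := cI_le d.F (b * s)
      have c4 : cI d.F (a * s) * cI d.F (b * s) ≤ 1 := by nlinarith
      have := d.v0 s
      nlinarith
    rw [e1]
    linarith
  -- the sums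
  have hS : ∀ x : ℕ, 0 < x → d.M * (∑ i, d.D i ^ 2) - ef d.F x ≤
      ∑ s ∈ d.F, ∑ i, d.D i * (d.v (x * s) * cI (d.A i) (x * s)) := by
    intro x hx
    have h1 := dil_ge d.F (fun n => ∑ i, d.D i * (d.v n * cI (d.A i) n))
      (fun n => Finset.sum_nonneg fun i _ => mul_nonneg (hD0 i) (mul_nonneg (d.v0 n) (cI_nonneg _ _)))
      (fun n => by
        have e2 : ∑ i, d.D i * (d.v n * cI (d.A i) n) = ∑ i, (d.D i * d.v n) * cI (d.A i) n :=
          Finset.sum_congr rfl fun i _ => by ring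
        rw [e2]
        refine sum_cI_le (fun i => d.D i * d.v n) 1 zero_le_one (fun i => ?_) n
        have := hD0 i
        have := (D_le (d := d) i).trans hbe1
        have := d.v0 n
        have := d.v1 n
        nlinarith) x hx
    have h2 : ∑ n ∈ d.F, ∑ i, d.D i * (d.v n * cI (d.A i) n) = d.M * ∑ i, d.D i ^ 2 := by
      rw [Finset.sum_comm, Finset.mul_sum]
      refine Finset.sum_congr rfl fun i _ => ?_
      rw [← Finset.mul_sum, sum_A]
      have e5 : ∑ n ∈ d.A i, d.v n = d.M * d.D i := by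
        unfold Dat.D
        field_simp
      rw [e5]
      ring
    rw [h2] at h1
    exact h1
  have hsum := Finset.sum_le_sum hB
  have e3 : ∑ s ∈ d.F, (d.be ^ 2 * (d.v s * ∑ i, cI (d.A i) (a * s) * cI (d.A i) (b * s)) -
      d.be * ((∑ i, d.D i * (d.v (a * s) * cI (d.A i) (a * s))) - τ - (1 - cI d.F (b * s))) -
      d.be * ((∑ i, d.D i * (d.v (b * s) * cI (d.A i) (b * s))) - τ - (1 - cI d.F (a * s))) +
      (∑ i, d.D i ^ 2) * d.v s) =
      d.be ^ 2 * (d.M * d.Q a b) -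
      d.be * ((∑ s ∈ d.F, ∑ i, d.D i * (d.v (a * s) * cI (d.A i) (a * s))) - τ * d.M - ef d.F b) -
      d.be * ((∑ s ∈ d.F, ∑ i, d.D i * (d.v (b * s) * cI (d.A i) (b * s))) - τ * d.M - ef d.F a) +
      (∑ i, d.D i ^ 2) * (d.M * d.be) := by
    have e8 : ∀ (f : ℕ → ℝ) (y : ℕ), ∑ s ∈ d.F, (f s - τ - (1 - cI d.F (y * s))) =
        ∑ s ∈ d.F, f s - τ * d.M - ef d.F y := by
      intro f y
      rw [Finset.sum_sub_distrib, Finset.sum_sub_distrib, ef_eq, Finset.sum_const, nsmul_eq_mul]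
      unfold Dat.M
      ring
    rw [Finset.sum_add_distrib, Finset.sum_sub_distrib, Finset.sum_sub_distrib, ← Finset.mul_sum,
      ← Finset.mul_sum, ← Finset.mul_sum, ← Finset.mul_sum, e8, e8]
    have e6 : ∑ n ∈ d.F, d.v n = d.M * d.be := by
      unfold Dat.be
      field_simp
    have e7 : ∑ s ∈ d.F, d.v s * ∑ i, cI (d.A i) (a * s) * cI (d.A i) (b * s) = d.M * d.Q a b := by
      unfold Dat.Q
      field_simp
    rw [e6, e7]
  rw [e3] at hsum
  have ha' := hS a ha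
  have hb' := hS b hb
  have ea : ef d.F a = d.M * d.e a := by
    unfold Dat.e
    field_simp
  have eb : ef d.F b = d.M * d.e b := by
    unfold Dat.e
    field_simp
  have hea : 0 ≤ d.e a := div_nonneg (ef_nonneg _ _) hM.le
  have heb : 0 ≤ d.e b := div_nonneg (ef_nonneg _ _) hM.le
  rw [ea] at ha' hsum
  rw [eb] at hb' hsum
  have m1 := mul_le_mul_of_nonneg_left ha' hbe0
  have m2 := mul_le_mul_of_nonneg_left hb' hbe0
  unfold Dat.K
  rw [div_le_iff₀ hM]
  have n1 : d.be * (τ * d.M) ≤ τ * d.M := by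
    have := mul_nonneg hτ hM.le
    nlinarith
  have n2 : d.be * (d.M * d.e a) ≤ d.M * d.e a := by
    have := mul_nonneg hM.le hea
    nlinarith
  have n3 : d.be * (d.M * d.e b) ≤ d.M * d.e b := by
    have := mul_nonneg hM.le heb
    nlinarith
  nlinarith

end KerF

end Pool.Agent.F0f91f8.KT
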