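import Pool.Agent.Work.MP_0f91f8_co.KT.GenT
import Pool.Agent.Work.MP_0f91f8_co.KT.KerF
import Pool.Agent.Work.MP_0f91f8_co.RC.FinG

/-!
# Torus form of the collision theorem: the finite forms

From `GenTL` (the inequality for one kernel, at triples where finitely many completely
multiplicative functions are close to `1`) to the final form `KTQ`.
-/

set_option autoImplicit false

open Filter Topology MeasureTheory

noncomputable section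

namespace Pool.Agent.F0f91f8.KT

open Pool.Agent.F0f91f8.HD Pool.Agent.F0f91f8.RC Pool.Agent.F0f91f8.KR
open Pool.Agent.Work.MP_0f91f8_co.EF

/-- the weight is Lipschitz along `χ` -/
def Lip (q E : ℕ) (L : ℝ) {N : ℕ} (χ : Fin N → ℕ → ℂ) (v : ℕ → ℝ) : Prop :=
  ∀ x n : ℕ, 0 < n → Loc q E x → ∀ η : ℝ, 0 ≤ η → (∀ j, ‖χ j x - 1‖ ≤ η) →
    |v (x * n) - v n| ≤ L * η

/-- pair counts -/
def TPairs : Prop := ∀ (q E N : ℕ), 0 < q → 0 < E → ∀ (L ε : ℝ), 0 < ε →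
  ∃ (k : ℕ) (δ : ℝ), 0 < δ ∧ ∀ χ : Fin N → ℕ → ℂ, (∀ j, CM (χ j)) →
    ∀ (r : ℕ) (d : KerF.Dat r), Lip q E L χ d.v →
    (∀ p ≤ k, p.Prime → (1 - δ) * (d.F.card : ℝ) ≤ ((d.F.filter fun n => p * n ∈ d.F).card : ℝ)) →
    ∃ x y z : ℕ, 0 < x ∧ x ≤ k ∧ 0 < y ∧ y ≤ k ∧ 0 < z ∧ z ≤ k ∧ x ^ 2 + y ^ 2 = z ^ 2 ∧
      Loc q E x ∧ Loc q E y ∧ Loc q E z ∧
      (∀ j, ‖χ j x - 1‖ ≤ ε ∧ ‖χ j y - 1‖ ≤ ε ∧ ‖χ j z - 1‖ ≤ ε) ∧
      3 * ∑ i, d.D i ^ 2 - ε ≤ d.be * (d.Q x y + d.Q x z + d.Q y z)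

namespace XFinT

theorem ulimR (U : Ultrafilter ℕ) (f : ℕ → ℝ) (hf : ∀ j, |f j| ≤ 1) :
    ∃ x, Tendsto f U (𝓝 x) := by
  obtain ⟨x, -, h⟩ := isCompact_Icc.ultrafilter_le_nhds (s := Set.Icc (-1 : ℝ) 1) (U.map f) (by
    rw [le_principal_iff, Ultrafilter.coe_map, mem_map]
    exact Eventually.of_forall fun j => abs_le.1 (hf j))
  exact ⟨x, h⟩

theorem ulimC (U : Ultrafilter ℕ) (f : ℕ → ℂ) (hf : ∀ j, ‖f j‖ ≤ 1) :
    ∃ x, Tendsto f U (𝓝 x) := by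
  obtain ⟨x, -, h⟩ := (isCompact_closedBall (0 : ℂ) 1).ultrafilter_le_nhds (U.map f) (by
    rw [le_principal_iff, Ultrafilter.coe_map, mem_map]
    exact Eventually.of_forall fun j => by
      show f j ∈ Metric.closedBall (0 : ℂ) 1
      rw [mem_closedBall_zero_iff]
      exact hf j)
  exact ⟨x, h⟩

theorem cm_le {f : ℕ → ℂ} (h : CM f) (n : ℕ) : ‖f n‖ ≤ 1 := by
  rcases Nat.eq_zero_or_pos n with rfl | hn
  · rw [h.1, norm_zero]; exact zero_le_one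
  · exact (h.2.2 n hn).le

/-- limits of completely multiplicative functions along an ultrafilter -/
theorem limCM (U : Ultrafilter ℕ) (f : ℕ → ℕ → ℂ) (hf : ∀ j, CM (f j)) :
    ∃ g : ℕ → ℂ, CM g ∧ ∀ n, Tendsto (fun j => f j n) U (𝓝 (g n)) := by
  choose g hg using fun n : ℕ => ulimC U (fun j => f j n) fun j => cm_le (hf j) n
  refine ⟨g, ⟨?_, ?_, ?_⟩, hg⟩
  · refine tendsto_nhds_unique (hg 0) ?_
    have : (fun j => f j 0) = fun _ => (0 : ℂ) := funext fun j => (hf j).1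
    rw [this]
    exact tendsto_const_nhds
  · intro m n
    refine tendsto_nhds_unique (hg (m * n)) ?_
    have : (fun j => f j (m * n)) = fun j => f j m * f j n := funext fun j => (hf j).2.1 m n
    rw [this]
    exact (hg m).mul (hg n)
  · intro n hn
    refine tendsto_nhds_unique (hg n).norm ?_
    have : (fun j => ‖f j n‖) = fun _ => (1 : ℝ) := funext fun j => (hf j).2.2 n hn
    rw [this]
    exact tendsto_const_nhds

open KerF in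
/-- the limit of the kernels along an ultrafilter -/
theorem limK (U : Ultrafilter ℕ) (r : ℕ → ℕ) (d : ∀ j, Dat (r j))
    (he : ∀ n : ℕ, 0 < n → Tendsto (fun j => (d j).e n) U (𝓝 0)) :
    ∃ ψ : ℕ → ℕ → ℝ, IsPK ψ ∧ ∀ a b, Tendsto (fun j => (d j).K a b) U (𝓝 (ψ a b)) := by
  choose ψ hψ using fun a b : ℕ => ulimR U (fun j => (d j).K a b) fun j => K_abs_le a b
  refine ⟨ψ, ⟨?_, ?_, ?_, ?_⟩, hψ⟩
  · intro a b
    refine tendsto_nhds_unique (hψ a b) ?_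
    have : (fun j => (d j).K a b) = fun j => (d j).K b a := funext fun j => K_symm a b
    rw [this]
    exact hψ b a
  · intro k a b hk _ _
    have h1 : Tendsto (fun j => (d j).K (k * a) (k * b) - (d j).K a b) U (𝓝 0) := by
      refine squeeze_zero_norm (fun j => ?_) (show Tendsto (fun j => 4 * (d j).e k) U (𝓝 0) by
        have := (he k hk).const_mul 4
        rwa [mul_zero] at this)
      rw [Real.norm_eq_abs]
      exact K_hom k a b hk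
    have h2 := (hψ (k * a) (k * b)).sub (hψ a b)
    have h3 := tendsto_nhds_unique h2 h1
    linarith
  · refine le_of_tendsto (hψ 1 1) (Eventually.of_forall fun j => ?_)
    exact (le_abs_self _).trans (K_abs_le 1 1)
  · intro S _ c
    have hT : Tendsto (fun j => ∑ a ∈ S, ∑ b ∈ S, c a * (starRingEnd ℂ) (c b) *
        (((d j).K a b : ℝ) : ℂ)) U
        (𝓝 (∑ a ∈ S, ∑ b ∈ S, c a * (starRingEnd ℂ) (c b) * ((ψ a b : ℝ) : ℂ))) := by
      refine tendsto_finsetSum _ fun a _ => tendsto_finsetSum _ fun b _ => ?_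
      exact ((Complex.continuous_ofReal.tendsto _).comp (hψ a b)).const_mul _
    have hre : 0 ≤ (∑ a ∈ S, ∑ b ∈ S, c a * (starRingEnd ℂ) (c b) * ((ψ a b : ℝ) : ℂ)).re := by
      refine ge_of_tendsto ((Complex.continuous_re.tendsto _).comp hT)
        (Eventually.of_forall fun j => ?_)
      obtain ⟨s, hs, h⟩ := K_psd (d := d j) S c
      show 0 ≤ (∑ a ∈ S, ∑ b ∈ S, c a * (starRingEnd ℂ) (c b) * (((d j).K a b : ℝ) : ℂ)).re
      rw [h, Complex.ofReal_re]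
      exact hs
    have him : (∑ a ∈ S, ∑ b ∈ S, c a * (starRingEnd ℂ) (c b) * ((ψ a b : ℝ) : ℂ)).im = 0 := by
      refine tendsto_nhds_unique ((Complex.continuous_im.tendsto _).comp hT) ?_
      have : (Complex.im ∘ fun j => ∑ a ∈ S, ∑ b ∈ S, c a * (starRingEnd ℂ) (c b) *
          (((d j).K a b : ℝ) : ℂ)) = fun _ => (0 : ℝ) := by
        funext j
        obtain ⟨s, hs, h⟩ := K_psd (d := d j) S c
        show (∑ a ∈ S, ∑ b ∈ S, c a * (starRingEnd ℂ) (c b) * (((d j).K a b : ℝ) : ℂ)).im = 0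
        rw [h, Complex.ofReal_im]
      rw [this]
      exact tendsto_const_nhds
    refine ⟨_, hre, ?_⟩
    exact Complex.ext (by rw [Complex.ofReal_re]) (by rw [Complex.ofReal_im, him])

open KerF in
theorem Q_nonneg {r : ℕ} (d : Dat r) (a b : ℕ) : 0 ≤ d.Q a b :=
  div_nonneg (Finset.sum_nonneg fun s _ => mul_nonneg (d.v0 s)
    (Finset.sum_nonneg fun i _ => mul_nonneg (cI_nonneg _ _) (cI_nonneg _ _))) M_pos.le

end XFinT

open XFinT KerF in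
/-- **Pair counts.** -/
theorem tPairs (hG : GenTL) : TPairs := by
  intro q E N hq hE L ε hε
  by_contra hcon
  have hcon' : ∀ j : ℕ, ∃ (χ : Fin N → ℕ → ℂ) (r : ℕ) (d : Dat r), (∀ i, CM (χ i)) ∧
      Lip q E L χ d.v ∧
      (∀ p ≤ j, p.Prime → (1 - 1 / ((j : ℝ) + 1)) * (d.F.card : ℝ) ≤
        ((d.F.filter fun n => p * n ∈ d.F).card : ℝ)) ∧
      ∀ x y z : ℕ, 0 < x → x ≤ j → 0 < y → y ≤ j → 0 < z → z ≤ j → x ^ 2 + y ^ 2 = z ^ 2 →
        Loc q E x → Loc q E y → Loc q E z →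
        (∀ i, ‖χ i x - 1‖ ≤ ε ∧ ‖χ i y - 1‖ ≤ ε ∧ ‖χ i z - 1‖ ≤ ε) →
        d.be * (d.Q x y + d.Q x z + d.Q y z) < 3 * ∑ i, d.D i ^ 2 - ε := by
    intro j
    by_contra hno
    apply hcon
    refine ⟨j, 1 / ((j : ℝ) + 1), by positivity, fun χ hχ r d hL hF => ?_⟩
    by_contra hn
    refine hno ⟨χ, r, d, hχ, hL, hF, fun x y z h1 h2 h3 h4 h5 h6 h7 l1 l2 l3 h8 => ?_⟩
    by_contra h9
    exact hn ⟨x, y, z, h1, h2, h3, h4, h5, h6, h7, l1, l2, l3, h8, not_lt.1 h9⟩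
  choose χ r d hχ hL hF hno using hcon'
  obtain ⟨U, hU⟩ : ∃ U : Ultrafilter ℕ, (U : Filter ℕ) ≤ atTop :=
    ⟨Ultrafilter.of atTop, Ultrafilter.of_le atTop⟩
  have hFo : IsFo fun j => (d j).F :=
    XFinF.isFo_of (fun j => (d j).ne) (fun j => (d j).pos) fun j p hp1 hp2 => hF j p hp1 hp2
  have he : ∀ n : ℕ, 0 < n → Tendsto (fun j => (d j).e n) U (𝓝 0) := by
    intro n hn
    have h1 := (hFo.lim n hn).mono_left hU
    have h2 := h1.const_sub 1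
    rw [sub_self] at h2
    refine h2.congr fun j => ?_
    have hM := M_pos (d := d j)
    unfold Dat.e ef
    rw [sub_div]
    unfold Dat.M at hM ⊢
    rw [div_self hM.ne']
  obtain ⟨ψ, hψ, hKl⟩ := limK U r d he
  choose g hg hgl using fun i : Fin N => limCM U (fun j => χ j i) fun j => hχ j i
  set ε' : ℝ := min (ε / 2) (ε ^ 2 / (3 * (24 * |L| + 20))) with hε'
  have hL0 : 0 ≤ |L| := abs_nonneg L
  have hε0 : 0 < ε' := lt_min (by positivity) (by positivity)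
  have hε1 : ε' ≤ ε / 2 := min_le_left _ _
  have hε2 : ε' * (3 * (24 * |L| + 20)) ≤ ε ^ 2 := by
    rw [← le_div_iff₀ (by positivity)]
    exact min_le_right _ _
  obtain ⟨x, y, z, hx, hy, hz, hxyz, l1, l2, l3, hc, hle⟩ :=
    hG q E N hq hE g hg 1 (fun _ => ψ) (fun _ => hψ) ε' hε0
  rw [Fin.sum_univ_one] at hle
  have hclose : ∀ t : ℕ, (∀ i, ‖g i t - 1‖ ≤ ε') →
      ∀ᶠ j in (U : Filter ℕ), ∀ i, ‖χ j i t - 1‖ ≤ 2 * ε' := by
    intro t ht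
    rw [eventually_all]
    intro i
    have h1 : Tendsto (fun j => χ j i t - 1) U (𝓝 (g i t - 1)) := (hgl i t).sub_const 1
    have h2 := h1.norm.eventually (eventually_lt_nhds (show ‖g i t - 1‖ < 2 * ε' by
      have := ht i
      linarith))
    exact h2.mono fun j hj => hj.le
  have hK : ∀ a b : ℕ, ∀ᶠ j in (U : Filter ℕ), ψ a b - ε' / 3 ≤ (d j).K a b := by
    intro a b
    have h2 := (hKl a b).eventually (eventually_gt_nhds (show ψ a b - ε' / 3 < ψ a b by linarith))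
    exact h2.mono fun j hj => hj.le
  have hee : ∀ n : ℕ, 0 < n → ∀ᶠ j in (U : Filter ℕ), (d j).e n ≤ ε' := by
    intro n hn
    exact ((he n hn).eventually (eventually_lt_nhds hε0)).mono fun j hj => hj.le
  have hbig : ∀ᶠ j in (U : Filter ℕ), max x (max y z) ≤ j := hU (eventually_ge_atTop _)
  obtain ⟨j, c1, c2, c3, k1, k2, k3, e1, e2, e3, hj⟩ :=
    ((hclose x fun i => (hc i).1).and ((hclose y fun i => (hc i).2.1).and
      ((hclose z fun i => (hc i).2.2).and ((hK x y).and ((hK x z).and ((hK y z).and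
        ((hee x hx).and ((hee y hy).and ((hee z hz).and hbig))))))))).exists
  have hlt := hno j x y z hx (by omega) hy (by omega) hz (by omega) hxyz l1 l2 l3
    (fun i => ⟨(c1 i).trans (by linarith), (c2 i).trans (by linarith),
      (c3 i).trans (by linarith)⟩)
  have hv : ∀ t : ℕ, Loc q E t → (∀ i, ‖χ j i t - 1‖ ≤ 2 * ε') →
      ∀ s ∈ (d j).F, |(d j).v (t * s) - (d j).v s| ≤ |L| * (2 * ε') := by
    intro t lt ht s hs
    refine (hL j t s ((d j).pos s hs) lt (2 * ε') (by linarith) ht).trans ?_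
    exact mul_le_mul_of_nonneg_right (le_abs_self L) (by linarith)
  have hτ : 0 ≤ |L| * (2 * ε') := by positivity
  have b1 := K_le (d := d j) x y hx hy _ hτ (hv x l1 c1) (hv y l2 c2)
  have b2 := K_le (d := d j) x z hx hz _ hτ (hv x l1 c1) (hv z l3 c3)
  have b3 := K_le (d := d j) y z hy hz _ hτ (hv y l2 c2) (hv z l3 c3)
  have hbe0 := be_nonneg (d := d j)
  have hbe1 := be_le (d := d j)
  have hD := sum_D2_le (d := d j)
  have q1 := Q_nonneg (d j) x y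
  have q2 := Q_nonneg (d j) x z
  have q3 := Q_nonneg (d j) y z
  have hP0 : 0 ≤ (d j).be * ((d j).Q x y + (d j).Q x z + (d j).Q y z) := by positivity
  have hbe : ε / 3 ≤ (d j).be := by nlinarith
  have h5 : (d j).be * ((d j).be * ((d j).Q x y + (d j).Q x z + (d j).Q y z)) ≤
      (d j).be * (3 * ∑ i, (d j).D i ^ 2 - ε) := mul_le_mul_of_nonneg_left hlt.le hbe0
  have h6 : ε / 3 * ε ≤ (d j).be * ε := mul_le_mul_of_nonneg_right hbe hε.le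
  have h7 : 0 ≤ |L| * ε' := by positivity
  nlinarith

open XFinG in
/-- the weighted count of monochromatic dilates -/
def KerF.Dat.m {r : ℕ} (d : KerF.Dat r) (x y z : ℕ) : ℝ :=
  (∑ s ∈ d.F, d.v s * ind (∃ i, x * s ∈ d.A i ∧ y * s ∈ d.A i ∧ z * s ∈ d.A i)) / d.M

/-- two of `x`, `y`, `z` are in the same class -/
def KerF.Dat.two {r : ℕ} (d : KerF.Dat r) (x y z : ℕ) : Prop :=
  ∃ i, (x ∈ d.A i ∧ y ∈ d.A i) ∨ (x ∈ d.A i ∧ z ∈ d.A i) ∨ (y ∈ d.A i ∧ z ∈ d.A i)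

open XFinG in
/-- the weighted count of dilates with no two members in one class -/
def KerF.Dat.z {r : ℕ} (d : KerF.Dat r) (x y z : ℕ) : ℝ :=
  (∑ s ∈ d.F, d.v s * ind (¬ d.two (x * s) (y * s) (z * s))) / d.M

/-- counts of monochromatic dilates -/
def TCntN : Prop := ∀ (q E N : ℕ), 0 < q → 0 < E → ∀ (L ε : ℝ), 0 < ε →
  ∃ (k : ℕ) (δ : ℝ), 0 < δ ∧ ∀ χ : Fin N → ℕ → ℂ, (∀ j, CM (χ j)) →
    ∀ (r : ℕ) (d : KerF.Dat r), Lip q E L χ d.v →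
    (∀ p ≤ k, p.Prime → (1 - δ) * (d.F.card : ℝ) ≤ ((d.F.filter fun n => p * n ∈ d.F).card : ℝ)) →
    ∃ x y z : ℕ, 0 < x ∧ x ≤ k ∧ 0 < y ∧ y ≤ k ∧ 0 < z ∧ z ≤ k ∧ x ^ 2 + y ^ 2 = z ^ 2 ∧
      Loc q E x ∧ Loc q E y ∧ Loc q E z ∧
      (∀ j, ‖χ j x - 1‖ ≤ ε ∧ ‖χ j y - 1‖ ≤ ε ∧ ‖χ j z - 1‖ ≤ ε) ∧
      3 * ∑ i, d.D i ^ 2 - d.be ^ 2 - ε ≤ d.be * (2 * d.m x y z - d.z x y z) ∧
      3 / 2 * (∑ i, d.D i ^ 2 - d.be * (∑ i, d.D i) / 2 - ε) ≤ d.be * d.m x y z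

namespace XFinT

open KerF XFinG

theorem fin3 {Q S c m P e t ε : ℝ} (hc : 0 ≤ c) (hc1 : c ≤ 1) (hm : 0 ≤ m) (ht0 : 0 ≤ t)
    (he : e ≤ ε) (ht : t ≤ ε) (hle : 3 * Q - e ≤ c * P)
    (b2 : 2 * P ≤ 3 * S + 3 * t + 3 * m) :
    3 / 2 * (Q - c * S / 2 - ε) ≤ c * m := by
  have hcm : 0 ≤ c * m := mul_nonneg hc hm
  have h7 := mul_le_mul_of_nonneg_left b2 hc
  have h8 : c * t ≤ t := by nlinarith
  by_cases h10 : 0 ≤ Q - c * S / 2 - ε
  · nlinarith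
  · push Not at h10
    linarith

theorem pt3 {XY XZ YZ T : Prop} (h1 : XY → XZ → T) (h2 : XY → YZ → T) (h3 : XZ → YZ → T)
    (h4 : T → XY ∧ XZ ∧ YZ) :
    ind XY + ind XZ + ind YZ = 1 + 2 * ind T - ind (¬ (XY ∨ XZ ∨ YZ)) := by
  unfold ind
  by_cases hT : T
  · obtain ⟨p, q, r⟩ := h4 hT
    simp [hT, p, q, r]
    norm_num
  · by_cases b1 : XY
    · have b2 : ¬ XZ := fun h => hT (h1 b1 h)
      have b3 : ¬ YZ := fun h => hT (h2 b1 h)
      simp [hT, b1, b2, b3]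
    · by_cases b2 : XZ
      · have b3 : ¬ YZ := fun h => hT (h3 b2 h)
        simp [hT, b1, b2, b3]
      · by_cases b3 : YZ
        · simp [hT, b1, b2, b3]
        · simp [hT, b1, b2, b3]

theorem cI_eq (A : Finset ℕ) (n : ℕ) : cI A n = ind (n ∈ A) := by
  unfold cI ind
  split_ifs <;> rfl

theorem ind_mul (P Q : Prop) : ind P * ind Q = ind (P ∧ Q) := by
  by_cases hp : P
  · by_cases hq : Q
    · rw [ind_pos hp, ind_pos hq, ind_pos ⟨hp, hq⟩, one_mul]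
    · rw [ind_neg hq, mul_zero, ind_neg (P := P ∧ Q) fun h => hq h.2]
  · rw [ind_neg hp, zero_mul, ind_neg (P := P ∧ Q) fun h => hp h.1]

/-- pointwise: the number of pairs in one class -/
theorem ptw {r : ℕ} (d : Dat r) (x y z : ℕ) :
    (∑ i, cI (d.A i) x * cI (d.A i) y + ∑ i, cI (d.A i) x * cI (d.A i) z +
      ∑ i, cI (d.A i) y * cI (d.A i) z =
      1 + 2 * ind (∃ i, x ∈ d.A i ∧ y ∈ d.A i ∧ z ∈ d.A i) - ind (¬ d.two x y z)) ∧
    2 * (∑ i, cI (d.A i) x * cI (d.A i) y + ∑ i, cI (d.A i) x * cI (d.A i) z +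
      ∑ i, cI (d.A i) y * cI (d.A i) z) ≤
      ∑ i, cI (d.A i) x + ∑ i, cI (d.A i) y + ∑ i, cI (d.A i) z +
        3 * ind (∃ i, x ∈ d.A i ∧ y ∈ d.A i ∧ z ∈ d.A i) := by
  have e1 : ∀ a b : ℕ, ∑ i, cI (d.A i) a * cI (d.A i) b = ind (∃ i, a ∈ d.A i ∧ b ∈ d.A i) := by
    intro a b
    rw [← sum_ind _ fun i j h h' => KerF.uniq h.1 h'.1]
    refine Finset.sum_congr rfl fun i _ => ?_
    rw [cI_eq, cI_eq, ind_mul]
  have e2 : ∀ a : ℕ, ∑ i, cI (d.A i) a = ind (∃ i, a ∈ d.A i) := by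
    intro a
    rw [← sum_ind _ fun i j h h' => KerF.uniq h h']
    exact Finset.sum_congr rfl fun i _ => cI_eq _ _
  rw [e1, e1, e1, e2, e2, e2]
  have t1 : (∃ i, x ∈ d.A i ∧ y ∈ d.A i) → (∃ i, x ∈ d.A i ∧ z ∈ d.A i) →
      ∃ i, x ∈ d.A i ∧ y ∈ d.A i ∧ z ∈ d.A i := by
    rintro ⟨i, h1, h2⟩ ⟨j, h3, h4⟩
    have h5 := KerF.uniq h1 h3
    rw [← h5] at h4
    exact ⟨i, h1, h2, h4⟩
  have t2 : (∃ i, x ∈ d.A i ∧ y ∈ d.A i) → (∃ i, y ∈ d.A i ∧ z ∈ d.A i) →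
      ∃ i, x ∈ d.A i ∧ y ∈ d.A i ∧ z ∈ d.A i := by
    rintro ⟨i, h1, h2⟩ ⟨j, h3, h4⟩
    have h5 := KerF.uniq h2 h3
    rw [← h5] at h4
    exact ⟨i, h1, h2, h4⟩
  have t3 : (∃ i, x ∈ d.A i ∧ z ∈ d.A i) → (∃ i, y ∈ d.A i ∧ z ∈ d.A i) →
      ∃ i, x ∈ d.A i ∧ y ∈ d.A i ∧ z ∈ d.A i := by
    rintro ⟨i, h1, h2⟩ ⟨j, h3, h4⟩
    have h5 := KerF.uniq h2 h4
    rw [← h5] at h3
    exact ⟨i, h1, h3, h2⟩
  constructor
  · rw [pt3 t1 t2 t3 fun ⟨i, h1, h2, h3⟩ => ⟨⟨i, h1, h2⟩, ⟨i, h1, h3⟩, ⟨i, h2, h3⟩⟩]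
    congr 2
    unfold Dat.two
    rw [← exists_or, ← exists_or]
  · exact pt2 t1 t2 t3 (fun ⟨i, h1, h2⟩ => ⟨⟨i, h1⟩, ⟨i, h2⟩⟩)
      (fun ⟨i, h1, h2⟩ => ⟨⟨i, h1⟩, ⟨i, h2⟩⟩) (fun ⟨i, h1, h2⟩ => ⟨⟨i, h1⟩, ⟨i, h2⟩⟩)
      (fun ⟨i, h1, h2, h3⟩ => ⟨⟨i, h1⟩, ⟨i, h2⟩, ⟨i, h3⟩⟩)

/-- the two counting relations -/
theorem cnt {r : ℕ} (d : Dat r) (x y z : ℕ) (hx : 0 < x) (hy : 0 < y) (hz : 0 < z) (τ : ℝ)
    (hτ : 0 ≤ τ)
    (hvx : ∀ s ∈ d.F, |d.v (x * s) - d.v s| ≤ τ) (hvy : ∀ s ∈ d.F, |d.v (y * s) - d.v s| ≤ τ)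
    (hvz : ∀ s ∈ d.F, |d.v (z * s) - d.v s| ≤ τ) :
    d.Q x y + d.Q x z + d.Q y z = d.be + 2 * d.m x y z - d.z x y z ∧
    2 * (d.Q x y + d.Q x z + d.Q y z) ≤ 3 * ∑ i, d.D i + 3 * τ + 3 * d.m x y z := by
  have hM := M_pos (d := d)
  have hpt := fun s : ℕ => ptw d (x * s) (y * s) (z * s)
  have hone : ∀ t : ℕ, 0 < t → (∀ s ∈ d.F, |d.v (t * s) - d.v s| ≤ τ) →
      ∑ s ∈ d.F, d.v s * ∑ i, cI (d.A i) (t * s) ≤ d.M * ∑ i, d.D i + τ * d.M := by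
    intro t ht hvt
    have h1 : ∀ s ∈ d.F, d.v s * ∑ i, cI (d.A i) (t * s) ≤
        (∑ i, d.v (t * s) * cI (d.A i) (t * s)) + τ := by
      intro s hs
      have h2 := abs_le.1 (hvt s hs)
      have h3 : ∑ i, cI (d.A i) (t * s) ≤ 1 := by
        have := sum_cI_le (d := d) (fun _ => (1 : ℝ)) 1 zero_le_one (fun _ => le_rfl) (t * s)
        simpa using this
      have h4 : 0 ≤ ∑ i, cI (d.A i) (t * s) := Finset.sum_nonneg fun i _ => cI_nonneg _ _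
      rw [← Finset.mul_sum]
      nlinarith
    refine (Finset.sum_le_sum h1).trans ?_
    rw [Finset.sum_add_distrib, Finset.sum_const, nsmul_eq_mul]
    have h5 := dil_le d.F (fun n => ∑ i, d.v n * cI (d.A i) n)
      (fun n => Finset.sum_nonneg fun i _ => mul_nonneg (d.v0 n) (cI_nonneg _ _))
      (fun n hn => Finset.sum_eq_zero fun i _ => by
        unfold cI
        rw [if_neg fun h => hn (d.sub i h), mul_zero]) t ht
    have h6 : ∑ n ∈ d.F, ∑ i, d.v n * cI (d.A i) n = d.M * ∑ i, d.D i := by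
      rw [Finset.sum_comm, Finset.mul_sum]
      refine Finset.sum_congr rfl fun i _ => ?_
      rw [sum_A]
      unfold Dat.D
      field_simp
    rw [h6] at h5
    have h7 : (d.F.card : ℝ) * τ = τ * d.M := by
      unfold Dat.M
      ring
    rw [h7]
    linarith
  constructor
  · unfold Dat.Q Dat.m Dat.be Dat.z
    rw [← mul_div_assoc, ← add_div, ← add_div, ← add_div, ← sub_div]
    congr 1
    rw [Finset.mul_sum, ← Finset.sum_add_distrib, ← Finset.sum_add_distrib,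
      ← Finset.sum_add_distrib, ← Finset.sum_sub_distrib]
    refine Finset.sum_congr rfl fun s _ => ?_
    have h1 := (hpt s).1
    have h2 : d.v s * (∑ i, cI (d.A i) (x * s) * cI (d.A i) (y * s) +
        ∑ i, cI (d.A i) (x * s) * cI (d.A i) (z * s) +
        ∑ i, cI (d.A i) (y * s) * cI (d.A i) (z * s)) = d.v s * (1 +
        2 * ind (∃ i, x * s ∈ d.A i ∧ y * s ∈ d.A i ∧ z * s ∈ d.A i) -
        ind (¬ d.two (x * s) (y * s) (z * s))) := by rw [h1]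
    linarith
  · have h8 : 2 * (∑ s ∈ d.F, d.v s * ∑ i, cI (d.A i) (x * s) * cI (d.A i) (y * s) +
        ∑ s ∈ d.F, d.v s * ∑ i, cI (d.A i) (x * s) * cI (d.A i) (z * s) +
        ∑ s ∈ d.F, d.v s * ∑ i, cI (d.A i) (y * s) * cI (d.A i) (z * s)) ≤
        ∑ s ∈ d.F, d.v s * ∑ i, cI (d.A i) (x * s) + ∑ s ∈ d.F, d.v s * ∑ i, cI (d.A i) (y * s) +
        ∑ s ∈ d.F, d.v s * ∑ i, cI (d.A i) (z * s) +
        3 * ∑ s ∈ d.F, d.v s * ind (∃ i, x * s ∈ d.A i ∧ y * s ∈ d.A i ∧ z * s ∈ d.A i) := by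
      rw [← Finset.sum_add_distrib, ← Finset.sum_add_distrib, Finset.mul_sum, Finset.mul_sum,
        ← Finset.sum_add_distrib, ← Finset.sum_add_distrib, ← Finset.sum_add_distrib]
      refine Finset.sum_le_sum fun s _ => ?_
      have h1 := mul_le_mul_of_nonneg_left (hpt s).2 (d.v0 s)
      linarith
    have hx' := hone x hx hvx
    have hy' := hone y hy hvy
    have hz' := hone z hz hvz
    unfold Dat.Q Dat.m
    rw [← add_div, ← add_div, ← mul_div_assoc, div_le_iff₀ hM]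
    have h9 : (3 * ∑ i, d.D i + 3 * τ + 3 * ((∑ s ∈ d.F, d.v s *
        ind (∃ i, x * s ∈ d.A i ∧ y * s ∈ d.A i ∧ z * s ∈ d.A i)) / d.M)) * d.M =
        3 * (d.M * ∑ i, d.D i) + 3 * (τ * d.M) + 3 * ∑ s ∈ d.F, d.v s *
        ind (∃ i, x * s ∈ d.A i ∧ y * s ∈ d.A i ∧ z * s ∈ d.A i) := by
      field_simp
    rw [h9]
    linarith

end XFinT

open XFinT KerF XFinG in
/-- **Counts.** -/
theorem tCntN (hP : TPairs) : TCntN := by
  intro q E N hq hE L ε hε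
  set ε1 : ℝ := min ε (ε / (|L| + 1)) with hε1
  have hL0 : 0 ≤ |L| := abs_nonneg L
  have h0 : 0 < ε1 := lt_min hε (by positivity)
  have h1 : ε1 ≤ ε := min_le_left _ _
  have h2 : |L| * ε1 ≤ ε := by
    have h3 : ε1 ≤ ε / (|L| + 1) := min_le_right _ _
    rw [le_div_iff₀ (by positivity)] at h3
    nlinarith
  obtain ⟨k, δ, hδ, hk⟩ := hP q E N hq hE L ε1 h0
  refine ⟨k, δ, hδ, fun χ hχ r d hL hF => ?_⟩
  obtain ⟨x, y, z, c1, c2, c3, c4, c5, c6, c7, l1, l2, l3, hc, hle⟩ := hk χ hχ r d hL hF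
  have hv : ∀ t : ℕ, Loc q E t → (∀ i, ‖χ i t - 1‖ ≤ ε1) →
      ∀ s ∈ d.F, |d.v (t * s) - d.v s| ≤ |L| * ε1 := by
    intro t lt ht s hs
    refine (hL t s (d.pos s hs) lt ε1 h0.le ht).trans ?_
    exact mul_le_mul_of_nonneg_right (le_abs_self L) h0.le
  have hτ : 0 ≤ |L| * ε1 := by positivity
  obtain ⟨b1, b2⟩ := cnt d x y z c1 c3 c5 (|L| * ε1) hτ (hv x l1 fun i => (hc i).1)
    (hv y l2 fun i => (hc i).2.1) (hv z l3 fun i => (hc i).2.2)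
  have hm0 : 0 ≤ d.m x y z := div_nonneg (Finset.sum_nonneg fun s _ =>
    mul_nonneg (d.v0 s) (ind_nonneg _)) M_pos.le
  refine ⟨x, y, z, c1, c2, c3, c4, c5, c6, c7, l1, l2, l3, fun j =>
    ⟨(hc j).1.trans h1, (hc j).2.1.trans h1, (hc j).2.2.trans h1⟩, ?_, ?_⟩
  · rw [b1] at hle
    nlinarith
  · exact fin3 be_nonneg be_le hm0 hτ h1 h2 hle b2

end Pool.Agent.F0f91f8.KT
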