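import Pool.Agent.Work.MP_0f91f8_co.KT.All

/-!
# Torus form of the collision theorem: the statement of the hand-in
-/

set_option autoImplicit false

namespace Pool.Agent.F0f91f8.KT

/-- The statement of the hand-in. -/
def KTF : Prop :=
  ∀ (q E N : ℕ), 0 < q → 0 < E → ∀ (L ε : ℝ), 0 < ε → ∃ (k : ℕ) (δ : ℝ), 0 < δ ∧
    ∀ (θ : ℕ+ →* (Fin N → Circle)) (v : ℕ+ → ℝ), (∀ n, 0 ≤ v n ∧ v n ≤ 1) →
    (∀ c m n : ℕ+, (m : ℕ) ≡ 1 [MOD q] →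
      |v (c ^ E * m * n) - v n| ≤ L * dist (θ (c ^ E * m)) 1) →
    ∀ F : Finset ℕ+, F.Nonempty →
    (∀ p : ℕ+, (p : ℕ) ≤ k → (p : ℕ).Prime →
      (1 - δ) * (F.card : ℝ) ≤ ((F.filter fun n => p * n ∈ F).card : ℝ)) →
    ∀ (r : ℕ) (A : Fin r → Finset ℕ+), (∀ i, A i ⊆ F) → (∀ i j, i ≠ j → Disjoint (A i) (A j)) →
    ∃ x y z : ℕ+, (x : ℕ) ≤ k ∧ (y : ℕ) ≤ k ∧ (z : ℕ) ≤ k ∧ x ^ 2 + y ^ 2 = z ^ 2 ∧
      (∀ t : ℕ+, t = x ∨ t = y ∨ t = z → dist (θ t) 1 ≤ ε ∧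
        ∃ c m : ℕ+, t = c ^ E * m ∧ (m : ℕ) ≡ 1 [MOD q]) ∧
      3 / 2 * (∑ i, (∑ n ∈ A i, v n) ^ 2 -
        min ((∑ n ∈ F, v n) * ((∑ n ∈ F, v n) -
            ∑ n ∈ F.filter (fun n => ∀ i, ¬ (x * n ∈ A i ∧ y * n ∈ A i) ∧
              ¬ (x * n ∈ A i ∧ z * n ∈ A i) ∧ ¬ (y * n ∈ A i ∧ z * n ∈ A i)), v n) / 3)
          ((∑ n ∈ F, v n) * (∑ i, ∑ n ∈ A i, v n) / 2) -
        ε * (F.card : ℝ) ^ 2) ≤
      (∑ n ∈ F, v n) *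
        ∑ n ∈ F.filter (fun n => ∃ i, x * n ∈ A i ∧ y * n ∈ A i ∧ z * n ∈ A i), v n

theorem fin6 {S V R T m e : ℝ} (he : 0 ≤ e) (h1 : 3 * S - V ^ 2 - e ≤ V * (2 * m - R))
    (h2 : 3 / 2 * (S - V * T / 2 - e) ≤ V * m) :
    3 / 2 * (S - min (V * (V - R) / 3) (V * T / 2) - e) ≤ V * m := by
  rcases min_choice (V * (V - R) / 3) (V * T / 2) with h | h
  · rw [h]
    nlinarith
  · rw [h]
    exact h2

theorem all_KTF : KTF := by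
  intro q E N hq hE L ε hε
  obtain ⟨k, δ, hδ, H⟩ := all_KTQ q E N hq hE L ε hε
  refine ⟨k, δ, hδ, fun θ v hv hL F hF hfol r A hA hd => ?_⟩
  obtain ⟨x, y, z, c1, c2, c3, c4, c5, h1, h2⟩ := H θ v hv hL F hF hfol r A hA hd
  exact ⟨x, y, z, c1, c2, c3, c4, c5, fin6 (by positivity) h1 h2⟩

end Pool.Agent.F0f91f8.KT
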