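import Pool.Agent.Work.MP_0f91f8_co.KT.Defs
import Pool.Agent.Work.MP_0f91f8_co.KT.PosD

/-!
# Torus form: `Pos3` from `Aper3`
-/

set_option autoImplicit false

namespace Pool.Agent.F0f91f8.KT

open Pool.Agent.F0f91f8.KR

theorem all_Pos3_of (hA : Aper3) : Pos3 := fun _ _ h1 h2 _ hε => pos3_of hA h1 h2 hε

end Pool.Agent.F0f91f8.KT
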