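import Pool.Agent.Work.MP_0f91f8_co.KT.PosE
import Pool.Agent.Work.MP_0f91f8_co.KT.GenT

/-!
# Torus form of the collision theorem: `PosE` and `GenTL` with no hypotheses
-/

set_option autoImplicit false

noncomputable section

namespace Pool.Agent.F0f91f8.KT

open Filter Topology ComplexConjugate
open Pool.Agent.F0f91f8.HD Pool.Agent.F0f91f8.RC Pool.Agent.F0f91f8.KR

/-- positivity of all terms `f1 x * f2 y * conj (f1 z * f2 z)`, no hypotheses -/
theorem posE : ∀ E : ℕ, 0 < E → PosE E := fun E hE f1 f2 h1 h2 ε hε =>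
  all_Pos3E E hE f1 f2 h1 h2 ε hε

/-- the inequality for kernels, no hypotheses -/
theorem all_GenTL : GenTL := genTL_of posE

end Pool.Agent.F0f91f8.KT
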