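import Pool.Agent.Work.MP_0f91f8_co.K.I_AvL
import Pool.Agent.Work.MP_0f91f8_co.K.I_AvP
import Pool.Agent.Work.MP_0f91f8_co.K.I_Nst
import Pool.Agent.Work.MP_0f91f8_co.K.I_CMm

/-!
# Torus form of the collision theorem: the weights

`PosE` (positivity of all terms `f1 x * f2 y * conj (f1 z * f2 z)`) gives the lower bound for the
pair correlations with the weight `wN f N`, which is concentrated on the triples at which each of
the completely multiplicative functions `f j` takes almost the same value three times.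
-/

set_option autoImplicit false

noncomputable section

namespace Pool.Agent.F0f91f8.KT

open Filter Topology ComplexConjugate
open Pool.Agent.F0f91f8.HD Pool.Agent.F0f91f8.RC Pool.Agent.F0f91f8.KR
open scoped BigOperators

/-- the term of two functions (the three functions have product one) -/
def tt (f1 f2 : ℕ → ℂ) (x y z : ℕ) : ℂ := f1 x * f2 y * conj (f1 z * f2 z)

/-- TRIPLE POSITIVITY for the family with parameter `E` -/
def PosE (E : ℕ) : Prop := ∀ f1 f2 : ℕ → ℂ, CM f1 → CM f2 → ∀ ε : ℝ, 0 < ε →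
  Nest fun w K M => -ε ≤ (AvK E w K M fun x y z => f1 x * f2 y * conj (f1 z * f2 z)).re

/-- nonnegative combinations of the terms `tt`, on positive triples -/
def Cone (Φ : ℕ → ℕ → ℕ → ℂ) : Prop :=
  ∃ (ι : Type) (_ : Fintype ι) (c : ι → ℝ) (F G : ι → ℕ → ℂ), (∀ i, 0 ≤ c i) ∧
    (∀ i, CM (F i)) ∧ (∀ i, CM (G i)) ∧
    ∀ x y z : ℕ, 0 < x → 0 < y → 0 < z → Φ x y z = ∑ i, (c i : ℂ) * tt (F i) (G i) x y z

/-- the weight of two variables -/
def h2 (f : ℕ → ℂ) (N x z : ℕ) : ℝ := (‖f x + f z‖ ^ 2 / 4) ^ N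

/-- the weight -/
def wN {d : ℕ} (f : Fin d → ℕ → ℂ) (N x y z : ℕ) : ℝ := ∏ j, (h2 (f j) N x z * h2 (f j) N y z)

/-- the lower bound for its mass -/
def cN (d N : ℕ) : ℝ := (1 / ((N : ℝ) + 1)) ^ (2 * d)

/-- WEIGHTED LOWER BOUND and MASS OF THE WEIGHT -/
def WtT (E : ℕ) : Prop := ∀ (d : ℕ) (f : Fin d → ℕ → ℂ), (∀ j, CM (f j)) → ∀ N : ℕ, ∀ ε : ℝ, 0 < ε →
  (∀ g : ℕ → ℂ, CM g → Nest fun w K M =>
    -ε ≤ (AvK E w K M fun x y z => ((wN f N x y z : ℝ) : ℂ) * pc g x y z).re) ∧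
  Nest fun w K M => cN d N - ε ≤ (AvK E w K M fun x y z => ((wN f N x y z : ℝ) : ℂ)).re

/-! ## Completely multiplicative functions -/

theorem cm_le {f : ℕ → ℂ} (hf : CM f) (n : ℕ) : ‖f n‖ ≤ 1 := by
  rcases Nat.eq_zero_or_pos n with rfl | h
  · rw [hf.1, norm_zero]; exact zero_le_one
  · exact (hf.2.2 n h).le

theorem cm_conj_mul {f : ℕ → ℂ} (hf : CM f) {n : ℕ} (hn : 0 < n) : f n * conj (f n) = 1 := by
  rw [Complex.mul_conj, Complex.normSq_eq_norm_sq, hf.2.2 n hn]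
  norm_num

theorem cm_conj_mul' {f : ℕ → ℂ} (hf : CM f) {n : ℕ} (hn : 0 < n) : conj (f n) * f n = 1 := by
  rw [mul_comm]; exact cm_conj_mul hf hn

/-- the trivial function -/
def one1 (n : ℕ) : ℂ := if 0 < n then 1 else 0

theorem one1_pos {n : ℕ} (h : 0 < n) : one1 n = 1 := if_pos h

theorem cm_one1 : CM one1 := by
  refine ⟨by simp [one1], fun m n => ?_, fun n hn => by rw [one1_pos hn, norm_one]⟩
  unfold one1
  by_cases hm : 0 < m <;> by_cases hn : 0 < n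
  · rw [if_pos hm, if_pos hn, if_pos (Nat.mul_pos hm hn), one_mul]
  all_goals simp_all

theorem cm_mul {f g : ℕ → ℂ} (hf : CM f) (hg : CM g) : CM fun n => f n * g n := by
  refine ⟨by simp [hf.1], fun m n => ?_, fun n hn => ?_⟩
  · simp only [hf.2.1, hg.2.1]; ring
  · rw [norm_mul, hf.2.2 n hn, hg.2.2 n hn, one_mul]

theorem cm_conj {f : ℕ → ℂ} (hf : CM f) : CM fun n => conj (f n) := by
  refine ⟨by simp [hf.1], fun m n => ?_, fun n hn => ?_⟩
  · simp only [hf.2.1, map_mul]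
  · rw [Complex.norm_conj, hf.2.2 n hn]

/-- powers, `0` at `0` -/
theorem cm_pow {f : ℕ → ℂ} (hf : CM f) (a : ℕ) : CM fun n => one1 n * f n ^ a := by
  refine ⟨by simp [one1], fun m n => ?_, fun n hn => ?_⟩
  · simp only [hf.2.1, cm_one1.2.1, mul_pow]; ring
  · rw [norm_mul, norm_pow, hf.2.2 n hn, one1_pos hn, norm_one, one_pow, one_mul]

/-! ## The cone -/

theorem cone_congr {Φ Ψ : ℕ → ℕ → ℕ → ℂ} (h : Cone Φ)
    (he : ∀ x y z : ℕ, 0 < x → 0 < y → 0 < z → Ψ x y z = Φ x y z) : Cone Ψ := by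
  obtain ⟨ι, _, c, F, G, h1, h2, h3, h4⟩ := h
  exact ⟨ι, inferInstance, c, F, G, h1, h2, h3, fun x y z hx hy hz => (he x y z hx hy hz).trans
    (h4 x y z hx hy hz)⟩

theorem cone_tt {F G : ℕ → ℂ} (hF : CM F) (hG : CM G) : Cone (tt F G) :=
  ⟨Unit, inferInstance, fun _ => 1, fun _ => F, fun _ => G, fun _ => zero_le_one, fun _ => hF,
    fun _ => hG, fun x y z _ _ _ => by simp⟩

theorem tt_one {x y z : ℕ} (hx : 0 < x) (hy : 0 < y) (hz : 0 < z) : tt one1 one1 x y z = 1 := by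
  unfold tt
  rw [one1_pos hx, one1_pos hy, one1_pos hz]
  simp

theorem cone_smul {Φ : ℕ → ℕ → ℕ → ℂ} (h : Cone Φ) {a : ℝ} (ha : 0 ≤ a) :
    Cone fun x y z => (a : ℂ) * Φ x y z := by
  obtain ⟨ι, _, c, F, G, h1, h2, h3, h4⟩ := h
  refine ⟨ι, inferInstance, fun i => a * c i, F, G, fun i => mul_nonneg ha (h1 i), h2, h3,
    fun x y z hx hy hz => ?_⟩
  simp only [h4 x y z hx hy hz, Finset.mul_sum]
  refine Finset.sum_congr rfl fun i _ => ?_
  push_cast
  ring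

theorem cone_const {a : ℝ} (ha : 0 ≤ a) : Cone fun _ _ _ => (a : ℂ) :=
  cone_congr (cone_smul (cone_tt cm_one1 cm_one1) ha) fun x y z hx hy hz => by
    rw [tt_one hx hy hz, mul_one]

theorem cone_add {Φ Ψ : ℕ → ℕ → ℕ → ℂ} (h : Cone Φ) (h' : Cone Ψ) :
    Cone fun x y z => Φ x y z + Ψ x y z := by
  obtain ⟨ι, _, c, F, G, h1, h2, h3, h4⟩ := h
  obtain ⟨ι', _, c', F', G', h1', h2', h3', h4'⟩ := h'
  refine ⟨ι ⊕ ι', inferInstance, Sum.elim c c', Sum.elim F F', Sum.elim G G', ?_, ?_, ?_, ?_⟩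
  · rintro (i | i)
    · exact h1 i
    · exact h1' i
  · rintro (i | i)
    · exact h2 i
    · exact h2' i
  · rintro (i | i)
    · exact h3 i
    · exact h3' i
  · intro x y z hx hy hz
    simp only [Fintype.sum_sum_type, Sum.elim_inl, Sum.elim_inr, h4 x y z hx hy hz,
      h4' x y z hx hy hz]

theorem tt_mul (F G F' G' : ℕ → ℂ) (x y z : ℕ) :
    tt F G x y z * tt F' G' x y z = tt (fun n => F n * F' n) (fun n => G n * G' n) x y z := by
  unfold tt
  simp only [map_mul]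
  ring

theorem cone_mul {Φ Ψ : ℕ → ℕ → ℕ → ℂ} (h : Cone Φ) (h' : Cone Ψ) :
    Cone fun x y z => Φ x y z * Ψ x y z := by
  obtain ⟨ι, _, c, F, G, h1, h2, h3, h4⟩ := h
  obtain ⟨ι', _, c', F', G', h1', h2', h3', h4'⟩ := h'
  refine ⟨ι × ι', inferInstance, fun i => c i.1 * c' i.2, fun i n => F i.1 n * F' i.2 n,
    fun i n => G i.1 n * G' i.2 n, fun i => mul_nonneg (h1 _) (h1' _),
    fun i => cm_mul (h2 _) (h2' _), fun i => cm_mul (h3 _) (h3' _), ?_⟩
  intro x y z hx hy hz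
  simp only [h4 x y z hx hy hz, h4' x y z hx hy hz, Fintype.sum_prod_type, Finset.sum_mul_sum,
    ← tt_mul]
  refine Finset.sum_congr rfl fun i _ => Finset.sum_congr rfl fun j _ => ?_
  push_cast
  ring

theorem cone_sum {J : Type} (s : Finset J) (Φ : J → ℕ → ℕ → ℕ → ℂ) (h : ∀ j ∈ s, Cone (Φ j)) :
    Cone fun x y z => ∑ j ∈ s, Φ j x y z := by
  classical
  induction s using Finset.induction_on with
  | empty =>
    refine cone_congr (cone_const (le_refl (0 : ℝ))) fun x y z _ _ _ => ?_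
    simp
  | insert a s ha ih =>
    refine cone_congr (cone_add (h a (Finset.mem_insert_self a s))
      (ih fun j hj => h j (Finset.mem_insert_of_mem hj))) fun x y z _ _ _ => ?_
    rw [Finset.sum_insert ha]

/-- `Φ` is a constant plus an element of the cone -/
def ConeC (a : ℝ) (Φ : ℕ → ℕ → ℕ → ℂ) : Prop := Cone fun x y z => Φ x y z - (a : ℂ)

theorem coneC_cone {a : ℝ} (ha : 0 ≤ a) {Φ : ℕ → ℕ → ℕ → ℂ} (h : ConeC a Φ) : Cone Φ :=
  cone_congr (cone_add h (cone_const ha)) fun x y z _ _ _ => by ring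

theorem coneC_mul {a b : ℝ} (ha : 0 ≤ a) (hb : 0 ≤ b) {Φ Ψ : ℕ → ℕ → ℕ → ℂ} (h : ConeC a Φ)
    (h' : ConeC b Ψ) : ConeC (a * b) fun x y z => Φ x y z * Ψ x y z := by
  have h1 := cone_mul h h'
  have h2 := cone_smul h hb
  have h3 := cone_smul h' ha
  refine cone_congr (cone_add (cone_add h1 h2) h3) fun x y z _ _ _ => ?_
  push_cast
  ring

theorem coneC_prod {J : Type} (s : Finset J) (a : J → ℝ) (Φ : J → ℕ → ℕ → ℕ → ℂ)
    (ha : ∀ j, 0 ≤ a j) (h : ∀ j ∈ s, ConeC (a j) (Φ j)) :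
    ConeC (∏ j ∈ s, a j) fun x y z => ∏ j ∈ s, Φ j x y z := by
  classical
  induction s using Finset.induction_on with
  | empty =>
    refine cone_congr (cone_const (le_refl (0 : ℝ))) fun x y z _ _ _ => ?_
    simp
  | insert j s hj ih =>
    have h1 := coneC_mul (ha j) (Finset.prod_nonneg fun i _ => ha i)
      (h j (Finset.mem_insert_self j s)) (ih fun i hi => h i (Finset.mem_insert_of_mem hi))
    refine cone_congr (Φ := fun x y z => Φ j x y z * ∏ i ∈ s, Φ i x y z -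
      ((a j * ∏ i ∈ s, a i : ℝ) : ℂ)) h1 fun x y z _ _ _ => ?_
    beta_reduce
    rw [Finset.prod_insert hj, Finset.prod_insert hj]

/-! ## The weight -/

theorem sum_choose_sq (N : ℕ) :
    1 / ((N : ℝ) + 1) ≤ ∑ a ∈ Finset.range (N + 1), ((N.choose a : ℝ) / 2 ^ N) ^ 2 := by
  have h1 := sq_sum_le_card_mul_sum_sq (s := Finset.range (N + 1))
    (f := fun a => (N.choose a : ℝ) / 2 ^ N)
  have h2 : ∑ a ∈ Finset.range (N + 1), ((N.choose a : ℝ) / 2 ^ N) = 1 := by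
    rw [← Finset.sum_div, ← Nat.cast_sum, Nat.sum_range_choose]
    push_cast
    exact div_self (by positivity)
  rw [h2, Finset.card_range, one_pow] at h1
  rw [div_le_iff₀ (by positivity)]
  push_cast at h1
  linarith

theorem half_pow (w : ℂ) (N : ℕ) :
    ((1 + w) / 2) ^ N = ∑ a ∈ Finset.range (N + 1), (((N.choose a : ℝ) / 2 ^ N : ℝ) : ℂ) * w ^ a := by
  rw [div_pow, add_comm, add_pow, Finset.sum_div]
  refine Finset.sum_congr rfl fun a _ => ?_
  rw [one_pow, mul_one]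
  push_cast
  ring

theorem h2_eq {f : ℕ → ℂ} (hf : CM f) (N : ℕ) {x z : ℕ} (hz : 0 < z) :
    ((h2 f N x z : ℝ) : ℂ) = ∑ a ∈ Finset.range (N + 1), ∑ b ∈ Finset.range (N + 1),
      ((((N.choose a : ℝ) / 2 ^ N) * ((N.choose b : ℝ) / 2 ^ N) : ℝ) : ℂ) *
        ((f x * conj (f z)) ^ a * conj (f x * conj (f z)) ^ b) := by
  set w : ℂ := f x * conj (f z) with hw
  have h1 : ‖f x + f z‖ = ‖1 + w‖ := by
    have : 1 + w = (f x + f z) * conj (f z) := by
      rw [hw, add_mul, cm_conj_mul hf hz]; ring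
    rw [this, norm_mul, Complex.norm_conj, hf.2.2 z hz, mul_one]
  have h2 : ((‖f x + f z‖ ^ 2 / 4 : ℝ) : ℂ) = ((1 + w) / 2) * ((1 + conj w) / 2) := by
    rw [h1]
    have : ((‖1 + w‖ ^ 2 : ℝ) : ℂ) = (1 + w) * conj (1 + w) := by
      rw [Complex.mul_conj, Complex.normSq_eq_norm_sq]
    push_cast at this ⊢
    rw [this, map_add, map_one]
    ring
  unfold KT.h2
  rw [Complex.ofReal_pow, h2, mul_pow, half_pow, half_pow, Finset.sum_mul_sum]
  refine Finset.sum_congr rfl fun a _ => Finset.sum_congr rfl fun b _ => ?_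
  push_cast
  ring

/-- the function of `w^a * conj w^b` -/
def Fab (f : ℕ → ℂ) (a b : ℕ) (n : ℕ) : ℂ := (one1 n * f n ^ a) * conj (one1 n * f n ^ b)

theorem cm_Fab {f : ℕ → ℂ} (hf : CM f) (a b : ℕ) : CM (Fab f a b) :=
  cm_mul (cm_pow hf a) (cm_conj (cm_pow hf b))

theorem tt_Fab_x (f : ℕ → ℂ) (a b : ℕ) {x y z : ℕ} (hx : 0 < x) (hy : 0 < y) (hz : 0 < z) :
    tt (Fab f a b) one1 x y z = (f x * conj (f z)) ^ a * conj (f x * conj (f z)) ^ b := by
  unfold tt Fab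
  rw [one1_pos hx, one1_pos hy, one1_pos hz]
  simp only [map_mul, map_pow, one_mul, mul_one, Complex.conj_conj, mul_pow]
  ring

theorem tt_Fab_y (f : ℕ → ℂ) (a b : ℕ) {x y z : ℕ} (hx : 0 < x) (hy : 0 < y) (hz : 0 < z) :
    tt one1 (Fab f a b) x y z = (f y * conj (f z)) ^ a * conj (f y * conj (f z)) ^ b := by
  unfold tt Fab
  rw [one1_pos hx, one1_pos hy, one1_pos hz]
  simp only [map_mul, map_pow, one_mul, mul_one, Complex.conj_conj, mul_pow]
  ring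

/-- the two variable weights are `1/(N+1)` plus an element of the cone -/
theorem coneC_h2 {f : ℕ → ℂ} (hf : CM f) (N : ℕ) (T : ℕ → ℕ → ℕ → ℕ) (Θ : ℕ → ℕ → ℕ → ℕ → ℕ → ℂ)
    (hT : ∀ x y z, 0 < x → 0 < y → 0 < z → 0 < T x y z)
    (hΘ : ∀ a b, Cone (Θ a b))
    (hval : ∀ a b x y z, 0 < x → 0 < y → 0 < z → Θ a b x y z =
      (f (T x y z) * conj (f z)) ^ a * conj (f (T x y z) * conj (f z)) ^ b) :
    ConeC (1 / ((N : ℝ) + 1)) fun x y z => ((h2 f N (T x y z) z : ℝ) : ℂ) := by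
  set m : ℕ → ℕ → ℝ := fun a b => ((N.choose a : ℝ) / 2 ^ N) * ((N.choose b : ℝ) / 2 ^ N) with hm
  have hm0 : ∀ a b, 0 ≤ m a b := fun a b => by rw [hm]; positivity
  set D : ℝ := ∑ a ∈ Finset.range (N + 1), ((N.choose a : ℝ) / 2 ^ N) ^ 2 with hD
  have hD0 : 0 ≤ D - 1 / ((N : ℝ) + 1) := sub_nonneg.2 (sum_choose_sq N)
  have h1 : Cone fun x y z => ∑ p ∈ (Finset.range (N + 1) ×ˢ Finset.range (N + 1)),
      (((if p.1 = p.2 then 0 else m p.1 p.2 : ℝ)) : ℂ) * Θ p.1 p.2 x y z := by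
    refine cone_sum _ (fun (p : ℕ × ℕ) x y z =>
      (((if p.1 = p.2 then 0 else m p.1 p.2 : ℝ)) : ℂ) * Θ p.1 p.2 x y z) fun p _ => ?_
    refine cone_smul (hΘ p.1 p.2) ?_
    split_ifs
    · exact le_refl _
    · exact hm0 _ _
  refine cone_congr (cone_add h1 (cone_const hD0)) fun x y z hx hy hz => ?_
  have hTz := hT x y z hx hy hz
  beta_reduce
  rw [h2_eq hf N hz, Finset.sum_product]
  have hdiag : ∀ a : ℕ, (f (T x y z) * conj (f z)) ^ a * conj (f (T x y z) * conj (f z)) ^ a = 1 := by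
    intro a
    rw [← mul_pow]
    have : f (T x y z) * conj (f z) * conj (f (T x y z) * conj (f z)) = 1 := by
      rw [map_mul, Complex.conj_conj]
      have e1 := cm_conj_mul hf hTz
      have e2 := cm_conj_mul' hf hz
      linear_combination (f z * conj (f z)) * e1 + e2
    rw [this, one_pow]
  have e1 : ∀ a ∈ Finset.range (N + 1), ∑ b ∈ Finset.range (N + 1), ((m a b : ℝ) : ℂ) *
      ((f (T x y z) * conj (f z)) ^ a * conj (f (T x y z) * conj (f z)) ^ b) =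
      (∑ b ∈ Finset.range (N + 1), (((if a = b then 0 else m a b : ℝ)) : ℂ) * Θ a b x y z) +
        ((((N.choose a : ℝ) / 2 ^ N) ^ 2 : ℝ) : ℂ) := by
    intro a ha
    have e2 : ((((N.choose a : ℝ) / 2 ^ N) ^ 2 : ℝ) : ℂ) =
        ∑ b ∈ Finset.range (N + 1), if a = b then ((m a b : ℝ) : ℂ) else 0 := by
      rw [Finset.sum_ite_eq, if_pos ha]
      rw [hm]
      push_cast
      ring
    rw [e2, ← Finset.sum_add_distrib]
    refine Finset.sum_congr rfl fun b _ => ?_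
    rw [hval a b x y z hx hy hz]
    by_cases hab : a = b
    · subst hab
      rw [if_pos rfl, if_pos rfl, hdiag a]
      push_cast
      ring
    · rw [if_neg hab, if_neg hab]
      ring
  rw [Finset.sum_congr rfl e1, Finset.sum_add_distrib]
  have e3 : ∑ a ∈ Finset.range (N + 1), ((((N.choose a : ℝ) / 2 ^ N) ^ 2 : ℝ) : ℂ) = (D : ℂ) := by
    rw [hD]
    push_cast
    rfl
  rw [e3]
  push_cast
  ring

theorem coneC_wN {d : ℕ} {f : Fin d → ℕ → ℂ} (hf : ∀ j, CM (f j)) (N : ℕ) :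
    ConeC (cN d N) fun x y z => ((wN f N x y z : ℝ) : ℂ) := by
  have h1 : ∀ j, ConeC (1 / ((N : ℝ) + 1)) fun x _ z => ((h2 (f j) N x z : ℝ) : ℂ) := fun j =>
    coneC_h2 (hf j) N (fun x _ _ => x) (fun a b => tt (Fab (f j) a b) one1)
      (fun x y z hx _ _ => hx) (fun a b => cone_tt (cm_Fab (hf j) a b) cm_one1)
      (fun a b x y z hx hy hz => tt_Fab_x (f j) a b hx hy hz)
  have h2' : ∀ j, ConeC (1 / ((N : ℝ) + 1)) fun _ y z => ((h2 (f j) N y z : ℝ) : ℂ) := fun j =>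
    coneC_h2 (hf j) N (fun _ y _ => y) (fun a b => tt one1 (Fab (f j) a b))
      (fun x y z _ hy _ => hy) (fun a b => cone_tt cm_one1 (cm_Fab (hf j) a b))
      (fun a b x y z hx hy hz => tt_Fab_y (f j) a b hx hy hz)
  have hN : (0 : ℝ) ≤ 1 / ((N : ℝ) + 1) := by positivity
  have h3 : ∀ j, ConeC (1 / ((N : ℝ) + 1) * (1 / ((N : ℝ) + 1))) fun x y z =>
      ((h2 (f j) N x z : ℝ) : ℂ) * ((h2 (f j) N y z : ℝ) : ℂ) := fun j =>
    coneC_mul hN hN (h1 j) (h2' j)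
  have h4 := coneC_prod Finset.univ (fun _ : Fin d => 1 / ((N : ℝ) + 1) * (1 / ((N : ℝ) + 1)))
    (fun j x y z => ((h2 (f j) N x z : ℝ) : ℂ) * ((h2 (f j) N y z : ℝ) : ℂ))
    (fun _ => mul_nonneg hN hN) (fun j _ => h3 j)
  refine cone_congr h4 fun x y z _ _ _ => ?_
  have e1 : cN d N = ∏ _j : Fin d, (1 / ((N : ℝ) + 1) * (1 / ((N : ℝ) + 1))) := by
    rw [Finset.prod_const, Finset.card_univ, Fintype.card_fin]
    unfold cN
    rw [pow_mul, sq]
  rw [e1]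
  unfold wN
  push_cast
  rfl

theorem cN_pos (d N : ℕ) : 0 < cN d N := by unfold cN; positivity

theorem cone_pc {g : ℕ → ℂ} (hg : CM g) : Cone (pc g) := by
  refine cone_congr (cone_add (cone_add (cone_tt hg (cm_conj hg)) (cone_tt cm_one1 hg))
    (cone_tt (cm_conj hg) cm_one1)) fun x y z hx hy hz => ?_
  unfold pc tt
  rw [one1_pos hx, one1_pos hy, one1_pos hz, cm_conj_mul hg hz]
  simp only [map_one, one_mul, mul_one, Complex.conj_conj]
  ring

/-! ## Positivity on the cone -/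

theorem cone_pos {E : ℕ} (hP : PosE E) {Φ : ℕ → ℕ → ℕ → ℂ} (h : Cone Φ) : ∀ ε : ℝ, 0 < ε →
    Nest fun w K M => -ε ≤ (AvK E w K M Φ).re := by
  intro ε hε
  obtain ⟨ι, hι, c, F, G, h1, h2, h3, h4⟩ := h
  set S : ℝ := ∑ i, c i with hS
  have hS0 : 0 ≤ S := Finset.sum_nonneg fun i _ => h1 i
  have hε' : 0 < ε / (S + 1) := by positivity
  have h5 := pr_Nst.2.2 ι inferInstance
    (fun i w K M => -(ε / (S + 1)) ≤ (AvK E w K M (tt (F i) (G i))).re)
    (fun i => hP (F i) (G i) (h2 i) (h3 i) _ hε')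
  refine pr_Nst.1 _ _ (fun w K M _ hK hM h6 => ?_) h5
  obtain ⟨hadd, hmul, hsum⟩ := pr_AvL E w K M
  obtain ⟨hcong, -, -⟩ := pr_AvP E w K M hK hM
  have e1 : AvK E w K M Φ = ∑ i, (c i : ℂ) * AvK E w K M (tt (F i) (G i)) := by
    rw [hcong Φ _ h4, hsum ι Finset.univ fun i x y z => (c i : ℂ) * tt (F i) (G i) x y z]
    exact Finset.sum_congr rfl fun i _ => hmul _ _
  rw [e1, Complex.re_sum]
  have e2 : ∀ i ∈ (Finset.univ : Finset ι), c i * (-(ε / (S + 1))) ≤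
      ((c i : ℂ) * AvK E w K M (tt (F i) (G i))).re := by
    intro i _
    rw [Complex.re_ofReal_mul]
    exact mul_le_mul_of_nonneg_left (h6 i) (h1 i)
  refine le_trans ?_ (Finset.sum_le_sum e2)
  rw [← Finset.sum_mul, ← hS]
  have e3 : S * (ε / (S + 1)) ≤ ε := by
    rw [mul_div_assoc', div_le_iff₀ (by positivity)]
    nlinarith
  linarith

/-- The weighted lower bound and the mass of the weight. -/
theorem wtT {E : ℕ} (hP : PosE E) : WtT E := by
  intro d f hf N ε hε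
  have hC := coneC_wN hf N
  have hC' := coneC_cone (cN_pos d N).le hC
  refine ⟨fun g hg => cone_pos hP (cone_mul hC' (cone_pc hg)) ε hε, ?_⟩
  have h1 := cone_pos hP hC ε hε
  refine pr_Nst.1 _ _ (fun w K M _ hK hM h6 => ?_) h1
  obtain ⟨hadd, hmul, -⟩ := pr_AvL E w K M
  obtain ⟨-, -, hone⟩ := pr_AvP E w K M hK hM
  have e1 : AvK E w K M (fun x y z => ((wN f N x y z : ℝ) : ℂ)) =
      AvK E w K M (fun x y z => ((wN f N x y z : ℝ) : ℂ) - ((cN d N : ℝ) : ℂ)) +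
        ((cN d N : ℝ) : ℂ) := by
    have e2 := hmul (fun _ _ _ => 1) ((cN d N : ℝ) : ℂ)
    rw [hone, mul_one] at e2
    have e3 := hadd (fun x y z => ((wN f N x y z : ℝ) : ℂ) - ((cN d N : ℝ) : ℂ))
      (fun _ _ _ => ((cN d N : ℝ) : ℂ))
    rw [e2] at e3
    rw [← e3]
    congr 1
    funext x y z
    ring
  rw [e1, Complex.add_re, Complex.ofReal_re]
  linarith

/-! ## Size of the weight -/

theorem h2_nonneg (f : ℕ → ℂ) (N x z : ℕ) : 0 ≤ h2 f N x z := by unfold h2; positivity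

theorem h2_base_le {f : ℕ → ℂ} (hf : CM f) (x z : ℕ) : ‖f x + f z‖ ^ 2 / 4 ≤ 1 := by
  have h1 : ‖f x + f z‖ ≤ 2 := by
    refine (norm_add_le _ _).trans ?_
    have := cm_le hf x
    have := cm_le hf z
    linarith
  have h2 : 0 ≤ ‖f x + f z‖ := norm_nonneg _
  rw [div_le_one (by norm_num)]
  nlinarith

theorem h2_le_one {f : ℕ → ℂ} (hf : CM f) (N x z : ℕ) : h2 f N x z ≤ 1 :=
  pow_le_one₀ (by positivity) (h2_base_le hf x z)

theorem h2_small {f : ℕ → ℂ} (hf : CM f) (N : ℕ) {x z : ℕ} (hx : 0 < x) (hz : 0 < z) {δ : ℝ}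
    (hδ : 0 ≤ δ) (h : δ < ‖f x - f z‖) : h2 f N x z ≤ (1 - δ ^ 2 / 4) ^ N := by
  unfold h2
  refine pow_le_pow_left₀ (by positivity) ?_ N
  have h1 := parallelogram_law_with_norm ℝ (f x) (f z)
  rw [hf.2.2 x hx, hf.2.2 z hz] at h1
  nlinarith

theorem wN_nonneg {d : ℕ} (f : Fin d → ℕ → ℂ) (N x y z : ℕ) : 0 ≤ wN f N x y z :=
  Finset.prod_nonneg fun _ _ => mul_nonneg (h2_nonneg _ _ _ _) (h2_nonneg _ _ _ _)

theorem wN_le_one {d : ℕ} {f : Fin d → ℕ → ℂ} (hf : ∀ j, CM (f j)) (N x y z : ℕ) :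
    wN f N x y z ≤ 1 :=
  Finset.prod_le_one (fun _ _ => mul_nonneg (h2_nonneg _ _ _ _) (h2_nonneg _ _ _ _))
    fun j _ => mul_le_one₀ (h2_le_one (hf j) _ _ _) (h2_nonneg _ _ _ _) (h2_le_one (hf j) _ _ _)

theorem wN_small {d : ℕ} {f : Fin d → ℕ → ℂ} (hf : ∀ j, CM (f j)) (N : ℕ) {x y z : ℕ}
    (hx : 0 < x) (hy : 0 < y) (hz : 0 < z) {δ : ℝ} (hδ : 0 ≤ δ)
    (h : ∃ j, δ < ‖f j x - f j z‖ ∨ δ < ‖f j y - f j z‖) :
    wN f N x y z ≤ (1 - δ ^ 2 / 4) ^ N := by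
  classical
  obtain ⟨j, hj⟩ := h
  have h1 : wN f N x y z ≤ h2 (f j) N x z * h2 (f j) N y z := by
    unfold wN
    rw [← Finset.mul_prod_erase Finset.univ _ (Finset.mem_univ j)]
    refine mul_le_of_le_one_right (mul_nonneg (h2_nonneg _ _ _ _) (h2_nonneg _ _ _ _)) ?_
    exact Finset.prod_le_one (fun _ _ => mul_nonneg (h2_nonneg _ _ _ _) (h2_nonneg _ _ _ _))
      fun i _ => mul_le_one₀ (h2_le_one (hf i) _ _ _) (h2_nonneg _ _ _ _)
        (h2_le_one (hf i) _ _ _)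
  refine h1.trans ?_
  rcases hj with hj | hj
  · refine le_trans (mul_le_of_le_one_right (h2_nonneg _ _ _ _) (h2_le_one (hf j) _ _ _)) ?_
    exact h2_small (hf j) N hx hz hδ hj
  · refine le_trans (mul_le_of_le_one_left (h2_nonneg _ _ _ _) (h2_le_one (hf j) _ _ _)) ?_
    exact h2_small (hf j) N hy hz hδ hj

/-- the weight of the bad triples is small compared to the mass -/
theorem exN (d : ℕ) (B ε δ : ℝ) (hε : 0 < ε) (hδ : 0 < δ) (hδ1 : δ ≤ 1) :
    ∃ N : ℕ, B * (1 - δ ^ 2 / 4) ^ N < ε * cN d N := by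
  set q : ℝ := 1 - δ ^ 2 / 4 with hq
  have hq0 : 0 < q := by rw [hq]; nlinarith
  have hq1 : q < 1 := by rw [hq]; nlinarith
  have h1 := tendsto_pow_const_mul_const_pow_of_abs_lt_one (2 * d) (r := q)
    (abs_lt.2 ⟨by linarith, hq1⟩)
  have h2 : Tendsto (fun n : ℕ => B / q * (((n : ℝ)) ^ (2 * d) * q ^ n)) atTop (𝓝 (B / q * 0)) :=
    h1.const_mul _
  rw [mul_zero] at h2
  obtain ⟨n, hn⟩ := eventually_atTop.1 (h2.eventually (gt_mem_nhds hε))
  have h3 := hn (n + 1) (by omega)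
  refine ⟨n, ?_⟩
  have h4 : (0 : ℝ) < ((n : ℝ) + 1) ^ (2 * d) := by positivity
  unfold cN
  rw [one_div, inv_pow, ← div_eq_mul_inv, lt_div_iff₀ h4]
  have h5 : B * q ^ n * ((n : ℝ) + 1) ^ (2 * d) =
      B / q * ((((n + 1 : ℕ) : ℝ)) ^ (2 * d) * q ^ (n + 1)) := by
    push_cast
    rw [pow_succ q n]
    field_simp
  rw [h5]
  exact h3

end Pool.Agent.F0f91f8.KT
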